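import Pool.Agent.D0H26.TS.Shell

set_option autoImplicit false

/-!
Tubes tangent to a sphere: the two halves of the lines.
-/

open MeasureTheory Set Complex Real ENNReal Filter

namespace Pool.Agent.D0H26.TS

open Pool.Agent.N249.LR (cx cy w norm_w)

/-- The reflection. -/
def Rf (X : ℝ × ℂ) : ℝ × ℂ := (-X.1, X.2)

theorem Rf_meas : Measurable Rf := by
  unfold Rf
  fun_prop

theorem cx_neg (y : ℂ) (φ : ℝ) : cx (-y) φ = -cx y φ := by
  unfold cx
  simp only [Complex.neg_re, Complex.neg_im]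
  ring

theorem ell_neg (y : ℂ) (φ s : ℝ) : ell y φ (-s) = Rf (ell (-y) φ s) := by
  unfold ell Rf
  rw [cx_neg, norm_neg]
  apply Prod.ext
  · simp only
    ring
  · simp only
    push_cast
    ring

theorem Rf_Sh (j : ℕ) (X : ℝ × ℂ) : Rf X ∈ Sh j ↔ X ∈ Sh j := by
  unfold Rf Sh
  simp only [mem_ofPred_eq, neg_sq]

theorem Rf_mp : MeasurePreserving Rf volume volume := by
  have h1 : MeasurePreserving (fun x : ℝ => -x) volume volume := Measure.measurePreserving_neg _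
  exact h1.prod (MeasurePreserving.id (volume : Measure ℂ))

theorem cube_add (a b : ℝ≥0∞) : (a + b) ^ 3 ≤ 4 * (a ^ 3 + b ^ 3) := by
  have h := ENNReal.rpow_add_le_mul_rpow_add_rpow a b (p := 3) (by norm_num)
  have e : ∀ x : ℝ≥0∞, x ^ (3 : ℝ) = x ^ 3 := fun x => by
    rw [← ENNReal.rpow_natCast]
    norm_num
  rw [e, e, e] at h
  refine h.trans (le_of_eq ?_)
  congr 1
  have : (3 : ℝ) - 1 = ((2 : ℕ) : ℝ) := by norm_num
  rw [this, ENNReal.rpow_natCast]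
  norm_num

variable {f : ℝ × ℂ → ℝ≥0∞} {δ : ℝ}

/-- The majorant. -/
noncomputable def HF (f : ℝ × ℂ → ℝ≥0∞) (δ : ℝ) (K : ℕ) (y : ℂ) : ℝ≥0∞ :=
  4 * (HJ f δ K y + HJ (fun X => f (Rf X)) δ K (-y))

theorem HF_meas (hf : Measurable f) (K : ℕ) : Measurable (HF f δ K) := by
  unfold HF
  have h1 := HJ_meas (δ := δ) hf K
  have h2 := HJ_meas (δ := δ) (hf.comp Rf_meas) K
  exact (h1.add (h2.comp (measurable_neg (G := ℂ)))).const_mul _

theorem split_half (g : ℝ → ℝ≥0∞) :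
    ∫⁻ s, g s = (∫⁻ s in Ioi (0 : ℝ), g s) + ∫⁻ s in Ioi (0 : ℝ), g (-s) := by
  have h1 : ∫⁻ s, g s = (∫⁻ s in Ioi (0 : ℝ), g s) + ∫⁻ s in Iic (0 : ℝ), g s := by
    rw [← lintegral_add_compl g (measurableSet_Ioi (a := (0 : ℝ))), compl_Ioi]
  rw [h1]
  congr 1
  have h2 : ∫⁻ s in Iic (0 : ℝ), g s = ∫⁻ s in Iio (0 : ℝ), g s :=
    setLIntegral_congr Iio_ae_eq_Iic.symm
  rw [h2]
  have h3 := (Measure.measurePreserving_neg (volume : Measure ℝ)).setLIntegral_comp_preimage_emb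
    (MeasurableEquiv.neg ℝ).measurableEmbedding (fun s => g s) (Iio (0 : ℝ))
  have h4 : (fun x : ℝ => -x) ⁻¹' Iio 0 = Ioi 0 := by
    ext x
    simp
  rw [← h3, h4]

/-- **The pointwise bound.** -/
theorem HF_pt (hf : Measurable f) (hδ : 0 < δ) (hδ1 : δ ≤ 1) {K : ℕ} (hK : 0 < K) (j : ℕ)
    (y : ℂ) (φ : ℝ) :
    (∫⁻ φ' in Ioc (-π) π, ENNReal.ofReal (kap K (φ - φ')) *
      ∫⁻ s, (Sh j).indicator f (ell y φ' s)) ^ 3 ≤ HF f δ K y := by
  have hem := ell_meas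
  have hfS : Measurable ((Sh j).indicator f) := hf.indicator (Sh_meas j)
  have hkm : Measurable (fun φ' => ENNReal.ofReal (kap K (φ - φ'))) :=
    ((kap_cont K).measurable.comp (by fun_prop)).ennreal_ofReal
  have e1 : ∀ φ' : ℝ, ∫⁻ s, (Sh j).indicator f (ell y φ' s) =
      (∫⁻ s in Ioi (0 : ℝ), (Sh j).indicator f (ell y φ' s)) +
        ∫⁻ s in Ioi (0 : ℝ), (Sh j).indicator (fun X => f (Rf X)) (ell (-y) φ' s) := by
    intro φ'
    rw [split_half]
    congr 1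
    apply lintegral_congr
    intro s
    rw [ell_neg]
    by_cases h : ell (-y) φ' s ∈ Sh j
    · rw [indicator_of_mem h, indicator_of_mem ((Rf_Sh j _).2 h)]
    · rw [indicator_of_notMem h, indicator_of_notMem (fun h' => h ((Rf_Sh j _).1 h'))]
  have hm1 : Measurable (fun φ' : ℝ => ∫⁻ s in Ioi (0 : ℝ), (Sh j).indicator f (ell y φ' s)) := by
    have h1 : Measurable (fun p : ℝ × ℝ => (Sh j).indicator f (ell y p.1 p.2)) :=
      hfS.comp (hem.comp (f := fun p : ℝ × ℝ => ((y, p.1), p.2)) (by fun_prop))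
    exact h1.lintegral_prod_right' (ν := volume.restrict (Ioi (0 : ℝ)))
  simp only [e1, mul_add]
  have hm2 : Measurable (fun φ' : ℝ => ENNReal.ofReal (kap K (φ - φ')) *
      ∫⁻ s in Ioi (0 : ℝ), (Sh j).indicator f (ell y φ' s)) := hkm.mul hm1
  rw [lintegral_add_left hm2]
  refine (cube_add _ _).trans ?_
  unfold HF
  gcongr
  · exact HJ_pt hf hδ hδ1 hK j y φ
  · exact HJ_pt (f := fun X => f (Rf X)) (hf.comp Rf_meas) hδ hδ1 hK j (-y) φ

/-- **The integral of the majorant.** -/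
theorem HF_int (hf : Measurable f) (hδ : 0 < δ) (hδ1 : δ ≤ 1) (K : ℕ) :
    ∫⁻ y in Metric.closedBall (0 : ℂ) 1, HF f δ K y ≤
      ENNReal.ofReal (32 * (48 * π * (832 * π ^ 2)) * (1 + Real.log (1 / δ)) *
        (1 + Real.log K)) *
        ∫⁻ X in {X : ℝ × ℂ | 1 ≤ X.1 ^ 2 + ‖X.2‖ ^ 2}, f X ^ 3 * kt δ X * Wt X := by
  have hpi := Real.pi_pos
  have hlog : 0 ≤ Real.log K := Real.log_natCast_nonneg K
  have hlogδ : 0 ≤ Real.log (1 / δ) := Real.log_nonneg (by rw [le_div_iff₀ hδ]; linarith)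
  have hm1 := HJ_meas (δ := δ) hf K
  have hm2 := HJ_meas (δ := δ) (f := fun X => f (Rf X)) (hf.comp Rf_meas) K
  unfold HF
  rw [lintegral_const_mul' _ _ (by norm_num), lintegral_add_left hm1]
  have e1 : ∫⁻ y in Metric.closedBall (0 : ℂ) 1, HJ (fun X => f (Rf X)) δ K (-y) =
      ∫⁻ y in Metric.closedBall (0 : ℂ) 1, HJ (fun X => f (Rf X)) δ K y := by
    have h3 := (Measure.measurePreserving_neg (volume : Measure ℂ)).setLIntegral_comp_preimage_emb
      (MeasurableEquiv.neg ℂ).measurableEmbedding (fun y => HJ (fun X => f (Rf X)) δ K y)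
      (Metric.closedBall (0 : ℂ) 1)
    have h4 : (fun x : ℂ => -x) ⁻¹' Metric.closedBall (0 : ℂ) 1 = Metric.closedBall (0 : ℂ) 1 := by
      ext x
      simp
    rw [← h3]
    congr 1
    congr 1
    exact h4.symm
  rw [e1]
  have h1 := HJ_int hf hδ hδ1 K
  have h2 := HJ_int (f := fun X => f (Rf X)) (hf.comp Rf_meas) hδ hδ1 K
  have e2 : ∫⁻ X in {X : ℝ × ℂ | 1 ≤ X.1 ^ 2 + ‖X.2‖ ^ 2}, f (Rf X) ^ 3 * kt δ X * Wt X =
      ∫⁻ X in {X : ℝ × ℂ | 1 ≤ X.1 ^ 2 + ‖X.2‖ ^ 2}, f X ^ 3 * kt δ X * Wt X := by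
    have hS : MeasurableSet {X : ℝ × ℂ | 1 ≤ X.1 ^ 2 + ‖X.2‖ ^ 2} :=
      measurableSet_le measurable_const (by fun_prop)
    have hkm := kt_meas δ
    have hWm := Wt_meas
    have h5 := Rf_mp.setLIntegral_comp_preimage hS
      (f := fun X => f X ^ 3 * kt δ X * Wt X) (((hf.pow_const 3).mul hkm).mul hWm)
    rw [← h5]
    have h6 : Rf ⁻¹' {X : ℝ × ℂ | 1 ≤ X.1 ^ 2 + ‖X.2‖ ^ 2} =
        {X : ℝ × ℂ | 1 ≤ X.1 ^ 2 + ‖X.2‖ ^ 2} := by
      ext X
      simp only [Rf, mem_preimage, mem_ofPred_eq, neg_sq]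
    rw [h6]
    apply lintegral_congr
    intro X
    have h7 : kt δ (Rf X) = kt δ X := by
      unfold kt Rf
      simp only [neg_sq]
    have h8 : Wt (Rf X) = Wt X := by
      unfold Wt Rf
      simp only [neg_sq]
    rw [h7, h8]
  rw [e2] at h2
  set A := ∫⁻ X in {X : ℝ × ℂ | 1 ≤ X.1 ^ 2 + ‖X.2‖ ^ 2}, f X ^ 3 * kt δ X * Wt X with hA
  calc _ ≤ 4 * (ENNReal.ofReal (4 * (48 * π * (832 * π ^ 2)) * (1 + Real.log (1 / δ)) *
        (1 + Real.log K)) * A + ENNReal.ofReal (4 * (48 * π * (832 * π ^ 2)) *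
        (1 + Real.log (1 / δ)) * (1 + Real.log K)) * A) := by
        gcongr
    _ = ENNReal.ofReal 8 * ENNReal.ofReal (4 * (48 * π * (832 * π ^ 2)) *
        (1 + Real.log (1 / δ)) * (1 + Real.log K)) * A := by
        have : ENNReal.ofReal 8 = 8 := by norm_num
        rw [this]
        ring
    _ = _ := by
        rw [← ENNReal.ofReal_mul (by norm_num)]
        congr 2
        ring

end Pool.Agent.D0H26.TS
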