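import Pool.Agent.D0H26.TS.Zero
import Pool.Agent.N249.LR.Geo

set_option autoImplicit false

/-!
Tubes tangent to a sphere: coordinates.
-/

open MeasureTheory Set Complex Real ENNReal Filter

namespace Pool.Agent.D0H26.TS

open Pool.Agent.N249.LR (cx cy w norm_w)

/-- The space. -/
abbrev E3 : Type := EuclideanSpace ℝ (Fin 3)

/-- The coordinates of a point. -/
noncomputable def co (x : E3) : ℝ × ℂ := (x 0, ⟨x 1, x 2⟩)

/-- The point with given coordinates. -/
noncomputable def em (X : ℝ × ℂ) : E3 :=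
  WithLp.toLp 2 (Fin.cons X.1 ![X.2.re, X.2.im] : Fin 3 → ℝ)

theorem co_em (X : ℝ × ℂ) : co (em X) = X := by
  apply Prod.ext
  · rfl
  · apply Complex.ext
    · rfl
    · rfl

theorem em_co (x : E3) : em (co x) = x := by
  ext i
  fin_cases i <;> rfl

theorem em_mp : MeasurePreserving em volume volume := by
  have h1 : MeasurePreserving (Prod.map (id : ℝ → ℝ) Complex.measurableEquivRealProd)
      volume volume := (MeasurePreserving.id _).prod Complex.volume_preserving_equiv_real_prod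
  have h2 : MeasurePreserving (Prod.map (id : ℝ → ℝ)
      (MeasurableEquiv.finTwoArrow (α := ℝ)).symm) volume volume :=
    (MeasurePreserving.id _).prod (volume_preserving_finTwoArrow ℝ).symm
  have h5 := Pool.Agent.N249.LR.cons_mp 2
  have h6 := PiLp.volume_preserving_toLp (Fin 3)
  have h := h6.comp (h5.comp (h2.comp h1))
  exact h

theorem co_meas : Measurable co := by
  have h0 : Measurable (fun x : E3 => x 0) := by fun_prop
  have h1 : Measurable (fun x : E3 => x 1) := by fun_prop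
  have h2 : Measurable (fun x : E3 => x 2) := by fun_prop
  have h3 : Measurable (fun x : E3 => Complex.measurableEquivRealProd.symm (x 1, x 2)) :=
    Complex.measurableEquivRealProd.symm.measurable.comp (h1.prodMk h2)
  exact h0.prodMk h3

theorem norm_co (x : E3) : ‖x‖ ^ 2 = (co x).1 ^ 2 + ‖(co x).2‖ ^ 2 := by
  rw [EuclideanSpace.norm_sq_eq, Fin.sum_univ_three, Complex.sq_norm, Complex.normSq_apply]
  simp only [co, Real.norm_eq_abs, sq_abs]
  ring

theorem inner_co (x y : E3) : inner ℝ x y = (co x).1 * (co y).1 + inner ℝ (co x).2 (co y).2 := by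
  rw [Complex.inner, PiLp.inner_apply, Fin.sum_univ_three]
  simp only [co, RCLike.inner_apply, conj_trivial, Complex.mul_re, Complex.conj_re,
    Complex.conj_im]
  ring

theorem co_sub (x y : E3) : co (x - y) = co x - co y := by
  apply Prod.ext
  · rfl
  · apply Complex.ext
    · rfl
    · rfl

theorem co_smul (t : ℝ) (x : E3) : co (t • x) = t • co x := by
  apply Prod.ext
  · rfl
  · apply Complex.ext
    · simp [co]
    · simp [co]

theorem co_neg (x : E3) : co (-x) = -co x := by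
  apply Prod.ext
  · rfl
  · apply Complex.ext
    · rfl
    · rfl

theorem norm_co1 (x : E3) : |(co x).1| ≤ ‖x‖ := by
  apply abs_le_of_sq_le_sq _ (norm_nonneg _)
  rw [norm_co]
  nlinarith [sq_nonneg ‖(co x).2‖]

theorem norm_co2 (x : E3) : ‖(co x).2‖ ≤ ‖x‖ := by
  have : ‖(co x).2‖ ^ 2 ≤ ‖x‖ ^ 2 := by
    rw [norm_co]
    nlinarith [sq_nonneg (co x).1]
  exact le_of_sq_le_sq this (norm_nonneg _)

/-- Integrals in coordinates. -/
theorem int_co {F : E3 → ℝ≥0∞} (hF : Measurable F) : ∫⁻ x, F x = ∫⁻ X, F (em X) :=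
  (em_mp.lintegral_comp hF).symm

theorem setInt_co {F : E3 → ℝ≥0∞} (hF : Measurable F) {T : Set E3} (hT : MeasurableSet T) :
    ∫⁻ x in T, F x = ∫⁻ X in {X | em X ∈ T}, F (em X) :=
  (em_mp.setLIntegral_comp_preimage hT hF).symm

/-- The position of the points of a tube. -/
theorem tube_pt {e a P x : E3} {δ : ℝ} (hδ : 0 < δ)
    (hx1 : |inner ℝ (x - a) e| ≤ 1 / 2) (hx2 : ‖(x - a) - (inner ℝ (x - a) e : ℝ) • e‖ ≤ δ)
    (hP : ‖(a - P) - (inner ℝ (a - P) e : ℝ) • e‖ ≤ δ) :
    ∃ t : ℝ, |t - inner ℝ (a - P) e| ≤ 1 / 2 ∧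
      |(co x).1 - ((co P).1 + t * (co e).1)| ≤ 2 * δ ∧
      ‖(co x).2 - ((co P).2 + t * (co e).2)‖ ≤ 2 * δ := by
  refine ⟨inner ℝ (x - a) e + inner ℝ (a - P) e, by simpa using hx1, ?_⟩
  set z : E3 := ((x - a) - (inner ℝ (x - a) e : ℝ) • e) +
    ((a - P) - (inner ℝ (a - P) e : ℝ) • e) with hz
  have h1 : ‖z‖ ≤ 2 * δ := by
    rw [hz]
    refine (norm_add_le _ _).trans ?_
    linarith
  have h2 : z = x - P - ((inner ℝ (x - a) e : ℝ) + inner ℝ (a - P) e) • e := by
    rw [hz, add_smul]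
    abel
  have h3 : co z = co x - co P - ((inner ℝ (x - a) e : ℝ) + inner ℝ (a - P) e) • co e := by
    rw [h2, co_sub, co_sub, co_smul]
  have h4 := (norm_co1 z).trans h1
  have h5 := (norm_co2 z).trans h1
  rw [h3] at h4 h5
  constructor
  · have e1 : (co x).1 - ((co P).1 + ((inner ℝ (x - a) e : ℝ) + inner ℝ (a - P) e) * (co e).1) =
        (co x - co P - ((inner ℝ (x - a) e : ℝ) + inner ℝ (a - P) e) • co e).1 := by
      rw [Prod.fst_sub, Prod.fst_sub, Prod.smul_fst, smul_eq_mul]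
      ring
    rw [e1]
    exact h4
  · have e2 : (co x).2 - ((co P).2 + (((inner ℝ (x - a) e : ℝ) + inner ℝ (a - P) e : ℝ) : ℂ) *
        (co e).2) = (co x - co P - ((inner ℝ (x - a) e : ℝ) + inner ℝ (a - P) e) • co e).2 := by
      rw [Prod.snd_sub, Prod.snd_sub, Prod.smul_snd, Complex.real_smul]
      ring
    rw [e2]
    exact h5

end Pool.Agent.D0H26.TS
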