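import Pool.Agent.D0H26.TS.Frq

set_option autoImplicit false

/-!
Tubes tangent to a sphere: the kernel of Fejér.
-/

open MeasureTheory Set Complex Real ENNReal

namespace Pool.Agent.D0H26.TS

/-- The kernel of Dirichlet. -/
noncomputable def DK (K : ℕ) (x : ℝ) : ℂ := ∑ j ∈ Finset.range K, cexp (j * x * I)

/-- The kernel of Fejér. -/
noncomputable def kap (K : ℕ) (x : ℝ) : ℝ := ‖DK K x‖ ^ 2 / K

theorem DK_cont (K : ℕ) : Continuous (DK K) := by
  unfold DK
  fun_prop

theorem kap_cont (K : ℕ) : Continuous (kap K) := by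
  have := DK_cont K
  unfold kap
  fun_prop

theorem kap_nonneg (K : ℕ) (x : ℝ) : 0 ≤ kap K x := by
  unfold kap
  positivity

/-- The expansion of the kernel. -/
theorem kap_eq (K : ℕ) (x : ℝ) : ((kap K x : ℝ) : ℂ) =
    (K : ℂ)⁻¹ * ∑ l ∈ Finset.range K, ∑ j ∈ Finset.range K,
      cexp ((((j : ℤ) - (l : ℤ) : ℤ) : ℂ) * x * I) := by
  have h1 : ((‖DK K x‖ ^ 2 : ℝ) : ℂ) = (starRingEnd ℂ) (DK K x) * DK K x := by
    rw [mul_comm, Complex.mul_conj, Complex.normSq_eq_norm_sq]
  unfold kap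
  push_cast at h1 ⊢
  rw [h1, div_eq_inv_mul]
  congr 1
  unfold DK
  rw [map_sum, Finset.sum_mul_sum]
  apply Finset.sum_congr rfl
  intro l _
  apply Finset.sum_congr rfl
  intro j _
  rw [← Complex.exp_conj, ← Complex.exp_add]
  congr 1
  simp only [map_mul, Complex.conj_I, Complex.conj_ofReal, map_natCast]
  ring

/-- Sums over differences. -/
theorem sum_diff (g : ℤ → ℝ) (hg : ∀ k, 0 ≤ g k) {K l : ℕ} (hl : l ≤ K) :
    ∑ j ∈ Finset.range K, g ((j : ℤ) - (l : ℤ)) ≤
      g 0 + ∑ n ∈ Finset.range K, g (n + 1) + ∑ n ∈ Finset.range K, g (-(n + 1)) := by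
  rw [← Finset.sum_range_add_sum_Ico _ hl]
  have h1 : ∑ j ∈ Finset.range l, g ((j : ℤ) - (l : ℤ)) = ∑ n ∈ Finset.range l, g (-(n + 1)) := by
    rw [← Finset.sum_range_reflect]
    apply Finset.sum_congr rfl
    intro j hj
    rw [Finset.mem_range] at hj
    congr 1
    omega
  have h2 : ∑ j ∈ Finset.Ico l K, g ((j : ℤ) - (l : ℤ)) = ∑ n ∈ Finset.range (K - l), g n := by
    rw [Finset.sum_Ico_eq_sum_range]
    apply Finset.sum_congr rfl
    intro j _
    congr 1
    push_cast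
    ring
  have h3 : ∑ n ∈ Finset.range l, g (-(n + 1)) ≤ ∑ n ∈ Finset.range K, g (-(n + 1)) :=
    Finset.sum_le_sum_of_subset_of_nonneg (Finset.range_subset_range.2 hl) fun n _ _ => hg _
  have h4 : ∑ n ∈ Finset.range (K - l), g n ≤ ∑ n ∈ Finset.range (K + 1), g n :=
    Finset.sum_le_sum_of_subset_of_nonneg (Finset.range_subset_range.2 (by omega))
      fun n _ _ => hg _
  rw [Finset.sum_range_succ'] at h4
  rw [h1, h2]
  push_cast at h4
  linarith

/-- Convolutions with the kernel of Fejér. -/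
theorem kap_conv {K : ℕ} (hK : 0 < K) {a : ℝ → ℝ} (hm : Measurable a) {M : ℝ}
    (hM : ∀ x, |a x| ≤ M) (φ : ℝ) :
    |∫ φ' in Ioc (-π) π, kap K (φ - φ') * a φ'| ≤
      ‖cf 0 (fun x => ((a x : ℝ) : ℂ))‖ +
        2 * ∑ n ∈ Finset.range K, ‖cf (n + 1) (fun x => ((a x : ℝ) : ℂ))‖ := by
  set A : ℝ → ℂ := fun x => ((a x : ℝ) : ℂ) with hA
  have hAm : Measurable A := Complex.measurable_ofReal.comp hm
  have hint : ∀ k : ℤ, Integrable (fun x : ℝ => cexp (-(k * x * I)) * A x)
      (volume.restrict (Ioc (-π) π)) := by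
    intro k
    refine (Pool.Agent.N249.LR.bdd_integrable (K := M) (by fun_prop) ?_ (S := univ) (by simp)
      MeasurableSet.univ (by intro x hx; exact absurd (mem_univ x) hx)).1
    intro x
    rw [norm_mul, norm_exp, one_mul, hA, Complex.norm_real, Real.norm_eq_abs]
    exact hM x
  have h1 : ((∫ φ' in Ioc (-π) π, kap K (φ - φ') * a φ' : ℝ) : ℂ) =
      (K : ℂ)⁻¹ * ∑ l ∈ Finset.range K, ∑ j ∈ Finset.range K,
        cexp ((((j : ℤ) - (l : ℤ) : ℤ) : ℂ) * φ * I) * cf ((j : ℤ) - (l : ℤ)) A := by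
    rw [← integral_complex_ofReal]
    have e : ∀ φ' : ℝ, ((kap K (φ - φ') * a φ' : ℝ) : ℂ) = (K : ℂ)⁻¹ *
        ∑ l ∈ Finset.range K, ∑ j ∈ Finset.range K,
        cexp ((((j : ℤ) - (l : ℤ) : ℤ) : ℂ) * φ * I) *
          (cexp (-((((j : ℤ) - (l : ℤ) : ℤ) : ℂ) * φ' * I)) * A φ') := by
      intro φ'
      rw [Complex.ofReal_mul, kap_eq, mul_assoc, Finset.sum_mul]
      congr 1
      apply Finset.sum_congr rfl
      intro l _
      rw [Finset.sum_mul]
      apply Finset.sum_congr rfl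
      intro j _
      rw [← mul_assoc, ← Complex.exp_add]
      congr 2
      push_cast
      ring
    simp only [e]
    rw [integral_const_mul, integral_finsetSum]
    · congr 1
      apply Finset.sum_congr rfl
      intro l _
      rw [integral_finsetSum]
      · apply Finset.sum_congr rfl
        intro j _
        rw [integral_const_mul, cf_eq]
      · intro j _
        exact (hint _).const_mul _
    · intro l _
      apply integrable_finsetSum
      intro j _
      exact (hint _).const_mul _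
  have h2 : |∫ φ' in Ioc (-π) π, kap K (φ - φ') * a φ'| =
      ‖((∫ φ' in Ioc (-π) π, kap K (φ - φ') * a φ' : ℝ) : ℂ)‖ := by
    rw [Complex.norm_real, Real.norm_eq_abs]
  have hconj : ∀ k : ℤ, ‖cf (-k) A‖ = ‖cf k A‖ := by
    intro k
    have : cf (-k) A = (starRingEnd ℂ) (cf k A) := by
      rw [cf_eq, cf_eq, ← integral_conj]
      congr 1
      funext x
      rw [map_mul, ← Complex.exp_conj]
      simp [hA]
    rw [this, RCLike.norm_conj]
  rw [h2, h1, norm_mul, norm_inv, Complex.norm_natCast]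
  have hK' : (0 : ℝ) < K := by exact_mod_cast hK
  rw [inv_mul_le_iff₀ hK']
  calc ‖∑ l ∈ Finset.range K, ∑ j ∈ Finset.range K,
        cexp ((((j : ℤ) - (l : ℤ) : ℤ) : ℂ) * φ * I) * cf ((j : ℤ) - (l : ℤ)) A‖
      ≤ ∑ l ∈ Finset.range K, ∑ j ∈ Finset.range K, ‖cf ((j : ℤ) - (l : ℤ)) A‖ := by
        refine (norm_sum_le _ _).trans (Finset.sum_le_sum fun l _ => ?_)
        refine (norm_sum_le _ _).trans (Finset.sum_le_sum fun j _ => ?_)
        rw [norm_mul]
        have : (((j : ℤ) - (l : ℤ) : ℤ) : ℂ) * φ * I =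
            -(((-((j : ℤ) - (l : ℤ)) : ℤ) : ℂ) * φ * I) := by push_cast; ring
        rw [this, norm_exp, one_mul]
    _ ≤ ∑ l ∈ Finset.range K, (‖cf 0 A‖ + 2 * ∑ n ∈ Finset.range K, ‖cf (n + 1) A‖) := by
        apply Finset.sum_le_sum
        intro l hl
        rw [Finset.mem_range] at hl
        have h3 := sum_diff (fun k => ‖cf k A‖) (fun k => norm_nonneg _) hl.le
        simp only [hconj] at h3
        linarith
    _ = _ := by
        rw [Finset.sum_const, Finset.card_range, nsmul_eq_mul]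

/-- Cauchy-Schwarz. -/
theorem harm_cs (K : ℕ) (b : ℕ → ℝ) :
    (∑ n ∈ Finset.range K, b n) ^ 2 ≤ (1 + Real.log K) *
      ∑ n ∈ Finset.range K, ((n : ℝ) + 1) * b n ^ 2 := by
  have h1 := Finset.sum_mul_sq_le_sq_mul_sq (Finset.range K)
    (fun n => (√((n : ℝ) + 1))⁻¹) (fun n => √((n : ℝ) + 1) * b n)
  have e1 : ∑ n ∈ Finset.range K, (√((n : ℝ) + 1))⁻¹ * (√((n : ℝ) + 1) * b n) =
      ∑ n ∈ Finset.range K, b n := by
    apply Finset.sum_congr rfl
    intro n _
    have : √((n : ℝ) + 1) ≠ 0 := (Real.sqrt_pos.2 (by positivity)).ne'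
    field_simp
  have e2 : ∑ n ∈ Finset.range K, ((√((n : ℝ) + 1))⁻¹) ^ 2 ≤ 1 + Real.log K := by
    have h2 := harmonic_le_one_add_log K
    unfold harmonic at h2
    push_cast at h2
    refine le_trans (le_of_eq ?_) h2
    apply Finset.sum_congr rfl
    intro n _
    rw [inv_pow, Real.sq_sqrt (by positivity)]
  have e3 : ∑ n ∈ Finset.range K, (√((n : ℝ) + 1) * b n) ^ 2 =
      ∑ n ∈ Finset.range K, ((n : ℝ) + 1) * b n ^ 2 := by
    apply Finset.sum_congr rfl
    intro n _
    rw [mul_pow, Real.sq_sqrt (by positivity)]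
  rw [e1, e3] at h1
  refine h1.trans ?_
  apply mul_le_mul_of_nonneg_right e2
  apply Finset.sum_nonneg
  intro n _
  positivity

/-- The lower bound of the kernel. -/
theorem kap_lower {K : ℕ} (hK : 0 < K) {x ε : ℝ} (hx : ‖cexp (x * I) - 1‖ ≤ ε)
    (hε : K * ε ≤ 1) : (K : ℝ) / 4 ≤ kap K x := by
  have hK' : (0 : ℝ) < K := by exact_mod_cast hK
  have hj : ∀ j : ℕ, ‖cexp (j * x * I) - 1‖ ≤ j * ε := by
    intro j
    induction j with
    | zero => simp
    | succ j ih =>
      have e : cexp (((j + 1 : ℕ) : ℂ) * x * I) - 1 =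
          cexp (x * I) * (cexp (j * x * I) - 1) + (cexp (x * I) - 1) := by
        rw [mul_sub, ← Complex.exp_add]
        have : (x : ℂ) * I + j * x * I = ((j + 1 : ℕ) : ℂ) * x * I := by push_cast; ring
        rw [this]
        ring
      rw [e]
      refine (norm_add_le _ _).trans ?_
      rw [norm_mul, Complex.norm_exp_ofReal_mul_I, one_mul]
      push_cast
      linarith
  have hsum : ∑ j ∈ Finset.range K, (j : ℝ) ≤ K ^ 2 / 2 := by
    have h1 : (∑ j ∈ Finset.range K, (j : ℝ)) * 2 = K * (K - 1) := by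
      have := Finset.sum_range_id_mul_two K
      have h2 : (((∑ i ∈ Finset.range K, i) * 2 : ℕ) : ℝ) = ((K * (K - 1) : ℕ) : ℝ) := by
        rw [this]
      push_cast at h2
      rw [Nat.cast_sub (by omega : 1 ≤ K)] at h2
      push_cast at h2
      exact h2
    nlinarith
  have h1 : ‖DK K x - K‖ ≤ K / 2 := by
    have e : DK K x - K = ∑ j ∈ Finset.range K, (cexp (j * x * I) - 1) := by
      unfold DK
      rw [Finset.sum_sub_distrib]
      simp
    rw [e]
    calc ‖∑ j ∈ Finset.range K, (cexp (j * x * I) - 1)‖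
        ≤ ∑ j ∈ Finset.range K, (j : ℝ) * ε :=
          (norm_sum_le _ _).trans (Finset.sum_le_sum fun j _ => hj j)
      _ = (∑ j ∈ Finset.range K, (j : ℝ)) * ε := by rw [Finset.sum_mul]
      _ ≤ K ^ 2 / 2 * ε := by
          have : 0 ≤ ε := (norm_nonneg _).trans hx
          gcongr
      _ = K * (K * ε) / 2 := by ring
      _ ≤ K * 1 / 2 := by gcongr
      _ = K / 2 := by ring
  have h2 : (K : ℝ) / 2 ≤ ‖DK K x‖ := by
    have h3 : ‖(K : ℂ)‖ ≤ ‖DK K x‖ + ‖DK K x - K‖ := by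
      have : (K : ℂ) = DK K x - (DK K x - K) := by ring
      calc ‖(K : ℂ)‖ = ‖DK K x - (DK K x - K)‖ := by rw [← this]
        _ ≤ _ := norm_sub_le _ _
    rw [Complex.norm_natCast] at h3
    linarith
  unfold kap
  rw [le_div_iff₀ hK']
  nlinarith

theorem cf_one_zero {k : ℤ} (hk : k ≠ 0) : cf k (fun _ => (1 : ℂ)) = 0 := by
  have := bk_zero (F := fun _ => (1 : ℂ)) (0 : ℂ) hk
  exact this

/-- The integral of the kernel. -/
theorem kap_int {K : ℕ} (hK : 0 < K) (φ : ℝ) :
    ∫⁻ φ' in Ioc (-π) π, ENNReal.ofReal (kap K (φ - φ')) ≤ ENNReal.ofReal (2 * π) := by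
  have hpi := Real.pi_pos
  have h1 := kap_conv hK (a := fun _ => (1 : ℝ)) measurable_const (M := 1) (by simp) φ
  have h0 : cf 0 (fun _ => ((1 : ℝ) : ℂ)) = 2 * π := by
    rw [cf_eq]
    simp
    rw [max_eq_left (by linarith)]
    push_cast
    ring
  have h2 : ∀ n : ℕ, cf ((n : ℤ) + 1) (fun _ => ((1 : ℝ) : ℂ)) = 0 := by
    intro n
    have := cf_one_zero (k := (n : ℤ) + 1) (by omega)
    simpa using this
  rw [h0] at h1
  simp only [h2, norm_zero, Finset.sum_const_zero, mul_zero, add_zero, mul_one] at h1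
  have hc : Continuous (fun φ' => kap K (φ - φ')) := (kap_cont K).comp (by fun_prop)
  rw [← ofReal_integral_eq_lintegral_ofReal]
  · apply ENNReal.ofReal_le_ofReal
    refine (le_abs_self _).trans (h1.trans (le_of_eq ?_))
    simp [abs_of_pos hpi]
  · exact hc.integrableOn_Ioc
  · filter_upwards with x
    exact kap_nonneg K _

end Pool.Agent.D0H26.TS
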