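import Pool.Agent.D0H26.TS.Coor
import Pool.Agent.H742R2.Kk.Sphere

set_option autoImplicit false

/-!
Tubes tangent to a sphere: the integral over the directions.
-/

open MeasureTheory Set Complex Real ENNReal Filter

namespace Pool.Agent.D0H26.TS

/-- One line. -/
theorem line_sub (z : ℂ) (Φ : ℂ → ℝ≥0∞) :
    ∫⁻ x in {x : ℝ | 0 ≤ x ∧ x ^ 2 + ‖z‖ ^ 2 ≤ 1}, Φ ((x + √(x ^ 2 + ‖z‖ ^ 2))⁻¹ • z) ≤
      ∫⁻ l in Ioc (0 : ℝ) 2, {l : ℝ | ‖z‖ ≤ l}.indicator (fun l => Φ (l⁻¹ • z)) l := by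
  set c : ℝ := ‖z‖ with hc
  have hc0 : 0 ≤ c := norm_nonneg z
  set f : ℝ → ℝ := fun l => (l - c ^ 2 / l) / 2 with hf
  set S : Set ℝ := Ioc (0 : ℝ) 2 ∩ {l : ℝ | c ≤ l} with hS
  have hSc : MeasurableSet {l : ℝ | c ≤ l} := measurableSet_le measurable_const measurable_id
  have hSm : MeasurableSet S := measurableSet_Ioc.inter hSc
  have hsub : {x : ℝ | 0 ≤ x ∧ x ^ 2 + c ^ 2 ≤ 1} ⊆ f '' S ∪ {0} := by
    rintro x ⟨hx0, hx1⟩
    by_cases hx : x = 0
    · right
      exact hx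
    · left
      have hx' : 0 < x := lt_of_le_of_ne hx0 (Ne.symm hx)
      set q : ℝ := √(x ^ 2 + c ^ 2) with hq
      have hq2 : q ^ 2 = x ^ 2 + c ^ 2 := Real.sq_sqrt (by positivity)
      have hq0 : 0 ≤ q := Real.sqrt_nonneg _
      have hq1 : q ≤ 1 := by
        rw [hq]
        exact Real.sqrt_le_one.2 hx1
      have hx2 : x ≤ 1 := by nlinarith
      have hcq : c ≤ q := by
        apply le_of_sq_le_sq _ hq0
        nlinarith
      refine ⟨x + q, ⟨⟨by linarith, by linarith⟩, ?_⟩, ?_⟩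
      · show c ≤ x + q
        linarith
      · simp only [hf]
        have h1 : x + q ≠ 0 := by positivity
        field_simp
        nlinarith
  have hder : ∀ l ∈ S, HasDerivWithinAt f ((1 + c ^ 2 / l ^ 2) / 2) S l := by
    rintro l ⟨⟨hl, _⟩, _⟩
    have h1 := ((hasDerivAt_id l).sub ((hasDerivAt_inv hl.ne').const_mul (c ^ 2))).div_const 2
    have h2 : HasDerivAt f ((1 - c ^ 2 * -(l ^ 2)⁻¹) / 2) l := h1
    have h3 : (1 - c ^ 2 * -(l ^ 2)⁻¹) / 2 = (1 + c ^ 2 / l ^ 2) / 2 := by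
      rw [div_eq_mul_inv (c ^ 2)]
      ring
    rw [h3] at h2
    exact h2.hasDerivWithinAt
  have hfl : ∀ l ∈ S, f l + √(f l ^ 2 + c ^ 2) = l := by
    rintro l ⟨⟨hl, _⟩, _⟩
    have h1 : f l ^ 2 + c ^ 2 = ((l + c ^ 2 / l) / 2) ^ 2 := by
      simp only [hf]
      field_simp
      ring
    rw [h1, Real.sqrt_sq (by positivity)]
    simp only [hf]
    ring
  have hinj : InjOn f S := by
    intro a ha b hb hab
    rw [← hfl a ha, ← hfl b hb, hab]
  have h1 := lintegral_image_eq_lintegral_abs_deriv_mul hSm hder hinj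
    (fun x => Φ ((x + √(x ^ 2 + c ^ 2))⁻¹ • z))
  calc ∫⁻ x in {x : ℝ | 0 ≤ x ∧ x ^ 2 + c ^ 2 ≤ 1}, Φ ((x + √(x ^ 2 + c ^ 2))⁻¹ • z)
      ≤ (∫⁻ x in f '' S, Φ ((x + √(x ^ 2 + c ^ 2))⁻¹ • z)) +
          ∫⁻ x in ({0} : Set ℝ), Φ ((x + √(x ^ 2 + c ^ 2))⁻¹ • z) :=
        (lintegral_mono_set hsub).trans (lintegral_union_le _ _ _)
    _ = ∫⁻ x in f '' S, Φ ((x + √(x ^ 2 + c ^ 2))⁻¹ • z) := by
        rw [setLIntegral_measure_zero ({0} : Set ℝ) _ (by simp), add_zero]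
    _ = ∫⁻ l in S, ENNReal.ofReal |(1 + c ^ 2 / l ^ 2) / 2| *
          Φ ((f l + √(f l ^ 2 + c ^ 2))⁻¹ • z) := h1
    _ ≤ ∫⁻ l in S, Φ (l⁻¹ • z) := by
        apply setLIntegral_mono' hSm
        intro l hl
        rw [hfl l hl]
        obtain ⟨⟨hl0, _⟩, hl1⟩ := hl
        have hl1' : c ≤ l := hl1
        have h2 : ENNReal.ofReal |(1 + c ^ 2 / l ^ 2) / 2| ≤ 1 := by
          rw [ENNReal.ofReal_le_one, abs_of_nonneg (by positivity)]
          have : c ^ 2 / l ^ 2 ≤ 1 := by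
            rw [div_le_one (by positivity)]
            exact pow_le_pow_left₀ hc0 hl1' 2
          linarith
        calc _ ≤ 1 * Φ (l⁻¹ • z) := by gcongr
          _ = _ := one_mul _
    _ = _ := by
        rw [setLIntegral_indicator hSc, inter_comm]

/-- Half of the unit ball. -/
theorem half_ball {Φ : ℂ → ℝ≥0∞} (hΦ : Measurable Φ) :
    ∫⁻ X in {X : ℝ × ℂ | 0 ≤ X.1 ∧ X.1 ^ 2 + ‖X.2‖ ^ 2 ≤ 1},
      Φ ((X.1 + √(X.1 ^ 2 + ‖X.2‖ ^ 2))⁻¹ • X.2) ≤
      8 * ∫⁻ y in Metric.closedBall (0 : ℂ) 1, Φ y := by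
  have hSm : MeasurableSet {X : ℝ × ℂ | 0 ≤ X.1 ∧ X.1 ^ 2 + ‖X.2‖ ^ 2 ≤ 1} := by
    have h1 : MeasurableSet {X : ℝ × ℂ | 0 ≤ X.1} := measurableSet_le measurable_const (by fun_prop)
    have h2 : MeasurableSet {X : ℝ × ℂ | X.1 ^ 2 + ‖X.2‖ ^ 2 ≤ 1} :=
      measurableSet_le (by fun_prop) measurable_const
    exact h1.inter h2
  have hg : Measurable (fun X : ℝ × ℂ => Φ ((X.1 + √(X.1 ^ 2 + ‖X.2‖ ^ 2))⁻¹ • X.2)) :=
    hΦ.comp (by fun_prop)
  have hl : Measurable (fun q : ℂ × ℝ => {q : ℂ × ℝ | ‖q.1‖ ≤ q.2}.indicator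
      (fun q => Φ (q.2⁻¹ • q.1)) q) := by
    apply Measurable.indicator
    · exact hΦ.comp (by fun_prop)
    · exact measurableSet_le (by fun_prop) (by fun_prop)
  calc ∫⁻ X in {X : ℝ × ℂ | 0 ≤ X.1 ∧ X.1 ^ 2 + ‖X.2‖ ^ 2 ≤ 1},
        Φ ((X.1 + √(X.1 ^ 2 + ‖X.2‖ ^ 2))⁻¹ • X.2)
      = ∫⁻ z : ℂ, ∫⁻ x in {x : ℝ | 0 ≤ x ∧ x ^ 2 + ‖z‖ ^ 2 ≤ 1},
          Φ ((x + √(x ^ 2 + ‖z‖ ^ 2))⁻¹ • z) := by
        rw [← lintegral_indicator hSm, Measure.volume_eq_prod,
          lintegral_prod_symm _ (hg.indicator hSm).aemeasurable]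
        apply lintegral_congr
        intro z
        have hm : MeasurableSet {x : ℝ | 0 ≤ x ∧ x ^ 2 + ‖z‖ ^ 2 ≤ 1} :=
          (by fun_prop : Measurable (fun x : ℝ => (x, z))) hSm
        rw [← lintegral_indicator hm]
        rfl
    _ ≤ ∫⁻ z : ℂ, ∫⁻ l in Ioc (0 : ℝ) 2, {q : ℂ × ℝ | ‖q.1‖ ≤ q.2}.indicator
          (fun q => Φ (q.2⁻¹ • q.1)) (z, l) := by
        apply lintegral_mono
        intro z
        exact line_sub z Φ
    _ = ∫⁻ l in Ioc (0 : ℝ) 2, ∫⁻ z : ℂ, {q : ℂ × ℝ | ‖q.1‖ ≤ q.2}.indicator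
          (fun q => Φ (q.2⁻¹ • q.1)) (z, l) := by
        rw [lintegral_lintegral_swap]
        exact hl.aemeasurable
    _ = ∫⁻ l in Ioc (0 : ℝ) 2, ENNReal.ofReal (l ^ 2) *
          ∫⁻ y in Metric.closedBall (0 : ℂ) 1, Φ y := by
        apply setLIntegral_congr_fun measurableSet_Ioc
        intro l hl0
        have hl1 : 0 < l := hl0.1
        simp only
        have hm : Measurable ((Metric.closedBall (0 : ℂ) 1).indicator Φ) :=
          hΦ.indicator Metric.isClosed_closedBall.measurableSet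
        have h3 := lintegral_map (μ := (volume : Measure ℂ)) hm
          (measurable_const_smul (l⁻¹ : ℝ) (α := ℂ))
        rw [Measure.map_addHaar_smul volume (inv_pos.2 hl1).ne', lintegral_smul_measure,
          smul_eq_mul, Complex.finrank_real_complex,
          lintegral_indicator Metric.isClosed_closedBall.measurableSet] at h3
        have h4 : |((l⁻¹) ^ 2)⁻¹| = l ^ 2 := by
          rw [inv_pow, inv_inv, abs_of_pos (by positivity)]
        rw [h4] at h3
        rw [h3]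
        apply lintegral_congr
        intro z
        by_cases hz : ‖z‖ ≤ l
        · have h5 : l⁻¹ • z ∈ Metric.closedBall (0 : ℂ) 1 := by
            rw [mem_closedBall_zero_iff, norm_smul, norm_inv, Real.norm_eq_abs, abs_of_pos hl1,
              inv_mul_le_iff₀ hl1, mul_one]
            exact hz
          rw [indicator_of_mem h5,
            indicator_of_mem (show (z, l) ∈ {q : ℂ × ℝ | ‖q.1‖ ≤ q.2} from hz)]
        · have h5 : l⁻¹ • z ∉ Metric.closedBall (0 : ℂ) 1 := by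
            rw [mem_closedBall_zero_iff, norm_smul, norm_inv, Real.norm_eq_abs, abs_of_pos hl1,
              inv_mul_le_iff₀ hl1, mul_one]
            exact hz
          rw [indicator_of_notMem h5,
            indicator_of_notMem (show (z, l) ∉ {q : ℂ × ℝ | ‖q.1‖ ≤ q.2} from hz)]
    _ ≤ ∫⁻ l in Ioc (0 : ℝ) 2, 4 * ∫⁻ y in Metric.closedBall (0 : ℂ) 1, Φ y := by
        apply setLIntegral_mono' measurableSet_Ioc
        intro l hl0
        gcongr
        rw [show (4 : ℝ≥0∞) = ENNReal.ofReal 4 by norm_num]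
        apply ENNReal.ofReal_le_ofReal
        nlinarith [hl0.1, hl0.2]
    _ = _ := by
        rw [setLIntegral_const, Real.volume_Ioc, sub_zero,
          show ENNReal.ofReal 2 = 2 by norm_num]
        ring

/-- The parameter of a direction with nonnegative first coordinate. -/
noncomputable def yp (x : E3) : ℂ := ((co x).1 + ‖x‖)⁻¹ • (co x).2

theorem yp_meas : Measurable yp := by
  have h1 : Measurable (fun x : E3 => (co x).1) := measurable_fst.comp co_meas
  have h2 : Measurable (fun x : E3 => (co x).2) := measurable_snd.comp co_meas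
  unfold yp
  exact (h1.add measurable_norm).inv.smul h2

/-- A function of the parameter as a function of the direction. -/
noncomputable def Hd (Φ : ℂ → ℝ≥0∞) (x : E3) : ℝ≥0∞ :=
  {x : E3 | 0 ≤ (co x).1}.indicator (fun x => Φ (yp x)) x +
    {x : E3 | (co x).1 < 0}.indicator (fun x => Φ (yp (-x))) x

theorem pos_meas : MeasurableSet {x : E3 | 0 ≤ (co x).1} :=
  measurableSet_le measurable_const (measurable_fst.comp co_meas)

theorem neg_meas : MeasurableSet {x : E3 | (co x).1 < 0} :=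
  measurableSet_lt (measurable_fst.comp co_meas) measurable_const

theorem Hd_meas {Φ : ℂ → ℝ≥0∞} (hΦ : Measurable Φ) : Measurable (Hd Φ) := by
  unfold Hd
  exact ((hΦ.comp yp_meas).indicator pos_meas).add
    ((hΦ.comp (yp_meas.comp measurable_neg)).indicator neg_meas)

theorem yp_smul {c : ℝ} (hc : 0 < c) (x : E3) : yp (c • x) = yp x := by
  unfold yp
  rw [co_smul, norm_smul, Real.norm_eq_abs, abs_of_pos hc, Prod.smul_fst, Prod.smul_snd,
    smul_eq_mul, ← mul_add, mul_inv, smul_smul]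
  congr 1
  field_simp

theorem Hd_smul (Φ : ℂ → ℝ≥0∞) {c : ℝ} (hc : 0 < c) (x : E3) : Hd Φ (c • x) = Hd Φ x := by
  unfold Hd
  have h1 : (c • x ∈ {x : E3 | 0 ≤ (co x).1}) ↔ x ∈ {x : E3 | 0 ≤ (co x).1} := by
    simp only [mem_ofPred_eq, co_smul, Prod.smul_fst, smul_eq_mul]
    exact mul_nonneg_iff_of_pos_left hc
  have h2 : (c • x ∈ {x : E3 | (co x).1 < 0}) ↔ x ∈ {x : E3 | (co x).1 < 0} := by
    simp only [mem_ofPred_eq, co_smul, Prod.smul_fst, smul_eq_mul]
    constructor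
    · intro h
      nlinarith
    · intro h
      nlinarith
  congr 1
  · by_cases h : x ∈ {x : E3 | 0 ≤ (co x).1}
    · rw [indicator_of_mem h, indicator_of_mem (h1.2 h), yp_smul hc]
    · rw [indicator_of_notMem h, indicator_of_notMem (fun h' => h (h1.1 h'))]
  · by_cases h : x ∈ {x : E3 | (co x).1 < 0}
    · rw [indicator_of_mem h, indicator_of_mem (h2.2 h), ← smul_neg, yp_smul hc]
    · rw [indicator_of_notMem h, indicator_of_notMem (fun h' => h (h2.1 h'))]

/-- **The integral over the directions.** -/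
theorem dir_int {Φ : ℂ → ℝ≥0∞} (hΦ : Measurable Φ) :
    ∫⁻ e : Metric.sphere (0 : E3) 1, Hd Φ e ∂(volume : Measure E3).toSphere ≤
      48 * ∫⁻ y in Metric.closedBall (0 : ℂ) 1, Φ y := by
  have hHm := Hd_meas hΦ
  have h1 := Pool.Agent.H742R2.Kk.sphere_le_ball 2 hHm
  have hBm : MeasurableSet (Metric.closedBall (0 : E3) 1) :=
    Metric.isClosed_closedBall.measurableSet
  have hyp : Measurable (fun x : E3 => Φ (yp x)) := hΦ.comp yp_meas
  have hyn : Measurable (fun x : E3 => Φ (yp (-x))) := hyp.comp measurable_neg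
  have e1 : ∫⁻ x in Metric.closedBall (0 : E3) 1, Hd Φ (‖x‖⁻¹ • x) =
      ∫⁻ x in Metric.closedBall (0 : E3) 1, Hd Φ x := by
    apply lintegral_congr
    intro x
    by_cases hx : x = 0
    · rw [hx, smul_zero]
    · exact Hd_smul Φ (inv_pos.2 (norm_pos_iff.2 hx)) x
  rw [e1] at h1
  set A : ℝ≥0∞ := ∫⁻ x in Metric.closedBall (0 : E3) 1 ∩ {x : E3 | 0 ≤ (co x).1}, Φ (yp x) with hA
  have h2 : ∫⁻ x in Metric.closedBall (0 : E3) 1, Hd Φ x ≤ A + A := by
    unfold Hd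
    rw [lintegral_add_left (hyp.indicator pos_meas), setLIntegral_indicator pos_meas,
      setLIntegral_indicator neg_meas, inter_comm]
    gcongr
    have h3 := (Measure.measurePreserving_neg (volume : Measure E3)).setLIntegral_comp_preimage
      (s := {x : E3 | 0 < (co x).1} ∩ Metric.closedBall (0 : E3) 1)
      ((measurableSet_lt measurable_const (measurable_fst.comp co_meas)).inter hBm)
      (f := fun x => Φ (yp x)) hyp
    have h4 : (fun x : E3 => -x) ⁻¹' ({x : E3 | 0 < (co x).1} ∩ Metric.closedBall (0 : E3) 1) =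
        {x : E3 | (co x).1 < 0} ∩ Metric.closedBall (0 : E3) 1 := by
      ext x
      simp only [mem_preimage, mem_inter_iff, mem_ofPred_eq, co_neg, Prod.fst_neg, Left.neg_pos_iff,
        mem_closedBall_zero_iff, norm_neg]
    rw [h4] at h3
    rw [h3, hA]
    apply lintegral_mono_set
    rintro x ⟨hx1, hx2⟩
    have hx1' : 0 < (co x).1 := hx1
    exact ⟨hx2, hx1'.le⟩
  have h5 : A ≤ 8 * ∫⁻ y in Metric.closedBall (0 : ℂ) 1, Φ y := by
    refine le_trans (le_of_eq ?_) (half_ball hΦ)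
    rw [hA, setInt_co hyp (hBm.inter pos_meas)]
    have e2 : {X : ℝ × ℂ | em X ∈ Metric.closedBall (0 : E3) 1 ∩ {x : E3 | 0 ≤ (co x).1}} =
        {X : ℝ × ℂ | 0 ≤ X.1 ∧ X.1 ^ 2 + ‖X.2‖ ^ 2 ≤ 1} := by
      ext X
      simp only [mem_inter_iff, mem_ofPred_eq, mem_closedBall_zero_iff, co_em]
      have h6 : ‖em X‖ ≤ 1 ↔ X.1 ^ 2 + ‖X.2‖ ^ 2 ≤ 1 := by
        have h7 := norm_co (em X)
        rw [co_em] at h7
        rw [← h7]
        constructor
        · intro h
          nlinarith [norm_nonneg (em X)]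
        · intro h
          nlinarith [norm_nonneg (em X)]
      rw [h6, and_comm]
    rw [e2]
    apply lintegral_congr
    intro X
    unfold yp
    have h7 := norm_co (em X)
    rw [co_em] at h7
    rw [co_em, ← h7, Real.sqrt_sq (norm_nonneg _)]
  calc _ ≤ _ := h1
    _ ≤ ((2 : ℕ) + 1) * (A + A) := by gcongr
    _ ≤ ((2 : ℕ) + 1) * (8 * (∫⁻ y in Metric.closedBall (0 : ℂ) 1, Φ y) +
          8 * ∫⁻ y in Metric.closedBall (0 : ℂ) 1, Φ y) := by gcongr
    _ = _ := by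
        push_cast
        ring

end Pool.Agent.D0H26.TS
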