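import Pool.Agent.D0H26.TS.Jen
import Pool.Agent.D0H26.TS.Sphe

set_option autoImplicit false

/-!
Tubes tangent to a sphere: the maximal estimate.
-/

open MeasureTheory Set Complex Real ENNReal Filter

namespace Pool.Agent.D0H26.TS

open Pool.Agent.N249.LR (cx cy w norm_w)

theorem tubE_neg (δ : ℝ) (e b : E3) : tubE δ (-e) b = tubE δ e b := by
  unfold tubE
  ext y
  simp only [mem_ofPred_eq, inner_neg_right, abs_neg, neg_smul_neg]

theorem yp_unit {e : E3} (he : ‖e‖ = 1) : yp e = yd (co e) := by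
  unfold yp yd
  rw [he, add_comm]

/-- The bound for the directions with a nonnegative first coordinate. -/
theorem avg_pos {δ : ℝ} (hδ : 0 < δ) (hδ1 : δ ≤ 1) {c : ℝ} (hc : 0 < c) {e a P : E3}
    (he : ‖e‖ = 1) (he0 : 0 ≤ (co e).1) (hP : ‖P‖ = 1) (hPe : inner ℝ P e = 0)
    (haP : ‖(a - P) - (inner ℝ (a - P) e : ℝ) • e‖ ≤ δ)
    (hv : ENNReal.ofReal (c * δ ^ 2) ≤ volume (tubE δ e a)) {F : E3 → ℝ≥0∞} (hF : Measurable F) :
    (volume (tubE δ e a))⁻¹ * ∫⁻ x in tubE δ e a, F x ≤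
      ENNReal.ofReal (4 / (c * δ ^ 3)) *
        HF (sm δ (fun X => F (em X))) δ ⌊1 / δ⌋₊ (yp e) ^ (1 / 3 : ℝ) := by
  rw [yp_unit he]
  have h1 := tube_le hδ hδ1 he he0 hP hPe haP hF
  set I : ℝ≥0∞ := ∫⁻ x in tubE δ e a, F x with hI
  set B : ℝ≥0∞ := HF (sm δ (fun X => F (em X))) δ ⌊1 / δ⌋₊ (yd (co e)) with hB
  have h2 : ENNReal.ofReal (δ / 4) * I ≤ B ^ (1 / 3 : ℝ) := by
    have h3 := ENNReal.rpow_le_rpow h1 (show (0 : ℝ) ≤ 1 / 3 by norm_num)
    rw [← ENNReal.rpow_natCast, ← ENNReal.rpow_mul] at h3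
    norm_num at h3
    norm_num
    exact h3
  calc (volume (tubE δ e a))⁻¹ * I ≤ (ENNReal.ofReal (c * δ ^ 2))⁻¹ * I :=
        mul_le_mul' (ENNReal.inv_le_inv.2 hv) le_rfl
    _ = ENNReal.ofReal (4 / (c * δ ^ 3)) * (ENNReal.ofReal (δ / 4) * I) := by
        rw [← ENNReal.ofReal_inv_of_pos (by positivity), ← mul_assoc,
          ← ENNReal.ofReal_mul (by positivity)]
        congr 2
        field_simp
    _ ≤ _ := by gcongr

/-- **The maximal estimate for the tubes tangent to the unit sphere.** -/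
theorem main : ∃ C : ℝ, 0 < C ∧
    ∀ (δ : ℝ) (F : E3 → ℝ≥0∞), 0 < δ → δ < 1 → Measurable F →
      ∃ H : E3 → ℝ≥0∞, Measurable H ∧
        (∀ e a P : E3, ‖e‖ = 1 → ‖P‖ = 1 → inner ℝ P e = 0 →
          ‖(a - P) - (inner ℝ (a - P) e : ℝ) • e‖ ≤ δ →
          (volume (tubE δ e a))⁻¹ * ∫⁻ x in tubE δ e a, F x ≤ H e) ∧
        ∫⁻ e : Metric.sphere (0 : E3) 1, H e ^ 3 ∂(volume : Measure E3).toSphere
          ≤ ENNReal.ofReal (C * (1 + Real.log (1 / δ)) ^ 2) * ∫⁻ y, F y ^ 3 := by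
  have hpi := Real.pi_pos
  obtain ⟨c, hc, hvol⟩ := Pool.Agent.H742R2.Kk.volume_tube 2
  refine ⟨(64 / c ^ 3) * 48 * (32 * (48 * π * (832 * π ^ 2))) * (66000 * (250 * π) ^ 2),
    by positivity, ?_⟩
  intro δ F hδ hδ1 hF
  have hem : Measurable em := em_mp.measurable
  have hG : Measurable (fun X => F (em X)) := hF.comp hem
  set G : ℝ × ℂ → ℝ≥0∞ := fun X => F (em X) with hGdef
  set K : ℕ := ⌊1 / δ⌋₊ with hK
  have hsm := sm_meas δ hG
  have hHF := HF_meas (δ := δ) hsm K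
  set Φ : ℂ → ℝ≥0∞ := HF (sm δ G) δ K with hΦ
  have hv : ∀ e a : E3, ‖e‖ = 1 → ENNReal.ofReal (c * δ ^ 2) ≤ volume (tubE δ e a) :=
    fun e a he => hvol δ e a hδ he
  refine ⟨fun e => ENNReal.ofReal (4 / (c * δ ^ 3)) * Hd Φ e ^ (1 / 3 : ℝ), ?_, ?_, ?_⟩
  · exact ((Hd_meas hHF).pow_const _).const_mul _
  · intro e a P he hP hPe haP
    rcases le_or_gt 0 (co e).1 with h0 | h0
    · refine (avg_pos hδ hδ1.le hc he h0 hP hPe haP (hv e a he) hF).trans ?_
      have h1 : Hd Φ e = Φ (yp e) := by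
        unfold Hd
        rw [indicator_of_mem (show e ∈ {x : E3 | 0 ≤ (co x).1} from h0),
          indicator_of_notMem (show e ∉ {x : E3 | (co x).1 < 0} from not_lt.2 h0), add_zero]
      simp only [h1]
      exact le_rfl
    · have he' : ‖-e‖ = 1 := by rw [norm_neg, he]
      have h0' : 0 ≤ (co (-e)).1 := by
        rw [co_neg, Prod.fst_neg]
        linarith
      have hPe' : inner ℝ P (-e) = 0 := by rw [inner_neg_right, hPe, neg_zero]
      have haP' : ‖(a - P) - (inner ℝ (a - P) (-e) : ℝ) • (-e)‖ ≤ δ := by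
        rw [inner_neg_right, neg_smul_neg]
        exact haP
      have h2 := avg_pos hδ hδ1.le hc he' h0' hP hPe' haP' (hv (-e) a he') hF
      rw [tubE_neg] at h2
      refine h2.trans ?_
      have h1 : Hd Φ e = Φ (yp (-e)) := by
        unfold Hd
        rw [indicator_of_notMem (show e ∉ {x : E3 | 0 ≤ (co x).1} from not_le.2 h0),
          indicator_of_mem (show e ∈ {x : E3 | (co x).1 < 0} from h0), zero_add]
      simp only [h1]
      exact le_rfl
  · have hcube : ∀ x : ℝ≥0∞, (x ^ (1 / 3 : ℝ)) ^ 3 = x := by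
      intro x
      rw [← ENNReal.rpow_natCast, ← ENNReal.rpow_mul]
      norm_num
    simp only [mul_pow, hcube]
    rw [lintegral_const_mul' _ _ (ENNReal.pow_ne_top ENNReal.ofReal_ne_top)]
    have hlogδ : 0 ≤ Real.log (1 / δ) := Real.log_nonneg (by rw [le_div_iff₀ hδ]; linarith)
    have h1δ : 1 ≤ 1 / δ := by rw [le_div_iff₀ hδ]; linarith
    have hK0 : 0 < K := Nat.floor_pos.2 h1δ
    have hKlog : Real.log K ≤ Real.log (1 / δ) := by
      apply Real.log_le_log (by exact_mod_cast hK0)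
      exact Nat.floor_le (by positivity)
    have hKlog0 : 0 ≤ Real.log K := Real.log_natCast_nonneg K
    have hi1 := dir_int hHF
    have hi2 := HF_int hsm hδ hδ1.le K
    have hi3 := sm_int hδ hG
    have hi4 : ∫⁻ U, G U ^ 3 = ∫⁻ y, F y ^ 3 := (int_co (hF.pow_const 3)).symm
    rw [hi4] at hi3
    set N : ℝ≥0∞ := ∫⁻ y, F y ^ 3 with hN
    calc ENNReal.ofReal (4 / (c * δ ^ 3)) ^ 3 *
          ∫⁻ e : Metric.sphere (0 : E3) 1, Hd Φ e ∂(volume : Measure E3).toSphere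
        ≤ ENNReal.ofReal (4 / (c * δ ^ 3)) ^ 3 * (48 * (ENNReal.ofReal
            (32 * (48 * π * (832 * π ^ 2)) * (1 + Real.log (1 / δ)) * (1 + Real.log K)) *
            (ENNReal.ofReal (66000 * δ ^ 3 * (250 * π * δ ^ 3) ^ 2) * N))) := by
          refine mul_le_mul' le_rfl (hi1.trans (mul_le_mul' le_rfl (hi2.trans
            (mul_le_mul' le_rfl hi3))))
      _ ≤ ENNReal.ofReal (4 / (c * δ ^ 3)) ^ 3 * (48 * (ENNReal.ofReal
            (32 * (48 * π * (832 * π ^ 2)) * (1 + Real.log (1 / δ)) * (1 + Real.log (1 / δ))) *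
            (ENNReal.ofReal (66000 * δ ^ 3 * (250 * π * δ ^ 3) ^ 2) * N))) := by
          gcongr
      _ = _ := by
          have h48 : (48 : ℝ≥0∞) = ENNReal.ofReal 48 := by norm_num
          rw [h48, ← ENNReal.ofReal_pow (by positivity)]
          simp only [← mul_assoc]
          congr 1
          rw [← ENNReal.ofReal_mul (by positivity), ← ENNReal.ofReal_mul (by positivity),
            ← ENNReal.ofReal_mul (by positivity)]
          congr 1
          field_simp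
          ring

end Pool.Agent.D0H26.TS
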