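import Pool.Agent.D0H26.TS.Rad
import Pool.Agent.N249.LR.Core

set_option autoImplicit false

/-!
Tubes tangent to a sphere: the Fourier transform of the averages over the light rays through a point.
-/

open MeasureTheory Set Complex Real ENNReal FourierTransform

namespace Pool.Agent.D0H26.TS

open Pool.Agent.N249.LR (cx cy ec ec_smul ec_cont ec_norm ec_add bdd_integrable Nice hat BB w
  hat_eq BB_eq norm_w)

variable {G : ℝ → ℂ → ℂ} {K R N : ℝ}

/-- The integral over the light ray from `y` in the direction `φ`. -/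
noncomputable def AA (G : ℝ → ℂ → ℂ) (y : ℂ) (φ : ℝ) : ℂ := ∫ r : ℝ, G r (y + r * w φ)

/-- Its Fourier coefficients. -/
noncomputable def Ak (G : ℝ → ℂ → ℂ) (k : ℤ) (y : ℂ) : ℂ := cf k (AA G y)

theorem cf_eq (k : ℤ) (g : ℝ → ℂ) : cf k g = ∫ φ in Ioc (-π) π, cexp (-(k * φ * I)) * g φ := by
  unfold cf
  rw [intervalIntegral.integral_of_le (by linarith [Real.pi_pos])]

theorem w_meas : Measurable w := by
  unfold w
  fun_prop

theorem n_pt_zero (h : Nice G K R N) {r φ : ℝ} {y : ℂ} (hy : N + R < ‖y‖) :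
    G r (y + r * w φ) = 0 := by
  by_cases hr : R < |r|
  · exact h.supp_r r _ hr
  · apply h.supp_y
    have h1 : ‖y‖ ≤ ‖y + r * w φ‖ + ‖(r : ℂ) * w φ‖ := by
      have : y = (y + r * w φ) - r * w φ := by ring
      calc ‖y‖ = ‖(y + r * w φ) - r * w φ‖ := by rw [← this]
        _ ≤ _ := norm_sub_le _ _
    rw [norm_mul, norm_w, mul_one, Complex.norm_real, Real.norm_eq_abs] at h1
    linarith [not_lt.1 hr]

theorem n_pt_meas (h : Nice G K R N) :
    Measurable (fun q : (ℂ × ℝ) × ℝ => G q.2 (q.1.1 + q.2 * w q.1.2)) := by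
  have hw := w_meas
  exact h.meas.comp (g := Function.uncurry G)
    (f := fun q : (ℂ × ℝ) × ℝ => (q.2, q.1.1 + q.2 * w q.1.2)) (by fun_prop)

theorem n_pt_int (h : Nice G K R N) (y : ℂ) (φ : ℝ) :
    Integrable (fun r : ℝ => G r (y + r * w φ)) := by
  have hm : Measurable (fun r : ℝ => G r (y + r * w φ)) :=
    ((n_pt_meas h)).comp (g := fun q : (ℂ × ℝ) × ℝ => G q.2 (q.1.1 + q.2 * w q.1.2))
      (f := fun r => ((y, φ), r)) (by fun_prop)
  refine (bdd_integrable hm (fun r => h.bd _ _) (S := Icc (-R) R) (by simp) measurableSet_Icc ?_).1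
  intro r hr
  apply h.supp_r
  rw [mem_Icc, ← abs_le] at hr
  exact not_le.1 hr

theorem n_AA_meas (h : Nice G K R N) : Measurable (Function.uncurry (AA G)) := by
  have := ((n_pt_meas h).stronglyMeasurable).integral_prod_right' (ν := (volume : Measure ℝ))
  exact this.measurable

theorem n_AA_bd (h : Nice G K R N) (y : ℂ) (φ : ℝ) : ‖AA G y φ‖ ≤ K * (2 * R) := by
  unfold AA
  have hR := h.R0
  have e : (fun r : ℝ => G r (y + r * w φ)) =
      (Icc (-R) R).indicator (fun r : ℝ => G r (y + r * w φ)) := by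
    funext r
    by_cases hr : r ∈ Icc (-R) R
    · rw [indicator_of_mem hr]
    · rw [indicator_of_notMem hr]
      apply h.supp_r
      rw [mem_Icc, ← abs_le] at hr
      exact not_le.1 hr
  rw [e, integral_indicator measurableSet_Icc]
  have := norm_setIntegral_le_of_norm_le_const (μ := volume) (s := Icc (-R) R)
    (f := fun r : ℝ => G r (y + r * w φ)) (C := K) (by simp) (fun r _ => h.bd _ _)
  refine this.trans (le_of_eq ?_)
  rw [Real.volume_real_Icc_of_le (by linarith)]
  ring

theorem n_Ak_meas (h : Nice G K R N) (k : ℤ) : Measurable (Ak G k) := by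
  have h1 : Measurable (fun q : ℂ × ℝ => cexp (-(k * q.2 * I)) * AA G q.1 q.2) := by
    have := (n_AA_meas h)
    have a1 : Measurable (fun q : ℂ × ℝ => AA G q.1 q.2) := this
    fun_prop
  have h2 := h1.stronglyMeasurable.integral_prod_right' (ν := volume.restrict (Ioc (-π) π))
  have e : Ak G k = fun y => ∫ φ in Ioc (-π) π, cexp (-(k * φ * I)) * AA G y φ := by
    funext y
    unfold Ak
    rw [cf_eq]
  rw [e]
  exact h2.measurable

theorem n_Ak_bd (h : Nice G K R N) (k : ℤ) (y : ℂ) : ‖Ak G k y‖ ≤ K * (2 * R) * (2 * π) := by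
  unfold Ak
  rw [cf_eq]
  have := norm_setIntegral_le_of_norm_le_const (μ := volume) (s := Ioc (-π) π)
    (f := fun φ : ℝ => cexp (-(k * φ * I)) * AA G y φ) (C := K * (2 * R)) (by simp) (by
      intro φ _
      rw [norm_mul, norm_exp, one_mul]
      exact (n_AA_bd h) y φ)
  refine this.trans (le_of_eq ?_)
  rw [Real.volume_real_Ioc_of_le (by linarith [Real.pi_pos])]
  ring

theorem n_Ak_supp (h : Nice G K R N) (k : ℤ) {y : ℂ} (hy : N + R < ‖y‖) : Ak G k y = 0 := by
  unfold Ak AA
  have : (fun φ : ℝ => ∫ r : ℝ, G r (y + r * w φ)) = fun _ => 0 := by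
    funext φ
    simp [(n_pt_zero h) hy]
  rw [this]
  unfold cf
  simp

theorem n_Ak_int (h : Nice G K R N) (k : ℤ) : Integrable (Ak G k) ∧ MemLp (Ak G k) 2 := by
  refine bdd_integrable ((n_Ak_meas h) k) ((n_Ak_bd h) k) (S := Metric.closedBall (0 : ℂ) (N + R))
    measure_closedBall_lt_top.ne measurableSet_closedBall ?_
  intro y hy
  apply (n_Ak_supp h)
  simpa using hy

theorem inner_w (φ : ℝ) (ξ : ℂ) : inner ℝ (w φ) ξ = cx ξ φ := by
  rw [Complex.inner]
  simp [w, cx, Complex.exp_re, Complex.exp_im]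

/-- The Fourier transform of a coefficient. -/
theorem n_Ak_four (h : Nice G K R N) (k : ℤ) (ξ : ℂ) :
    𝓕 (Ak G k) ξ = cf k (fun φ => BB G ξ (cx ξ φ)) := by
  have hN := h.N0
  have hR := h.R0
  rw [Real.fourier_eq, cf_eq]
  have hmeas : Measurable (fun q : (ℂ × ℝ) × ℝ => ec (-(inner ℝ q.1.1 ξ)) *
      (cexp (-(k * q.1.2 * I)) * G q.2 (q.1.1 + q.2 * w q.1.2))) := by
    have h1 := (n_pt_meas h)
    have h2 : Measurable (fun q : (ℂ × ℝ) × ℝ => ec (-(inner ℝ q.1.1 ξ))) := by
      apply ec_cont.measurable.comp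
      apply Measurable.neg
      exact ((continuous_fst.comp continuous_fst).inner continuous_const).measurable
    have h3 : Measurable (fun q : (ℂ × ℝ) × ℝ => cexp (-(k * q.1.2 * I))) := by fun_prop
    exact h2.mul (h3.mul h1)
  have hint : Integrable (fun q : (ℂ × ℝ) × ℝ => ec (-(inner ℝ q.1.1 ξ)) *
      (cexp (-(k * q.1.2 * I)) * G q.2 (q.1.1 + q.2 * w q.1.2)))
      (((volume : Measure ℂ).prod (volume.restrict (Ioc (-π) π))).prod volume) := by
    refine (bdd_integrable (K := K) hmeas ?_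
      (S := (Metric.closedBall (0 : ℂ) (N + R) ×ˢ univ) ×ˢ Icc (-R) R) ?_
      ((measurableSet_closedBall.prod MeasurableSet.univ).prod measurableSet_Icc) ?_).1
    · intro q
      rw [norm_mul, ec_norm, one_mul, norm_mul, norm_exp, one_mul]
      exact h.bd _ _
    · rw [Measure.prod_prod, Measure.prod_prod]
      apply ENNReal.mul_ne_top
      · apply ENNReal.mul_ne_top
        · exact measure_closedBall_lt_top.ne
        · simp
      · simp
    · intro q hq
      have : G q.2 (q.1.1 + q.2 * w q.1.2) = 0 := by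
        by_cases h1 : N + R < ‖q.1.1‖
        · exact (n_pt_zero h) h1
        · apply h.supp_r
          by_contra h2
          apply hq
          refine ⟨⟨?_, mem_univ _⟩, ?_⟩
          · simpa using not_lt.1 h1
          · rw [mem_Icc, ← abs_le]
            exact not_lt.1 h2
      rw [this, mul_zero, mul_zero]
  have e1 : ∀ y : ℂ, (𝐞 (-(inner ℝ y ξ)) : Circle) • Ak G k y =
      ∫ φ in Ioc (-π) π, ∫ r : ℝ, ec (-(inner ℝ y ξ)) *
        (cexp (-(k * φ * I)) * G r (y + r * w φ)) := by
    intro y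
    rw [ec_smul]
    unfold Ak
    rw [cf_eq, ← integral_const_mul]
    congr 1
    funext φ
    rw [integral_const_mul, integral_const_mul]
    rfl
  simp only [e1]
  have hint1 : Integrable (fun p : ℂ × ℝ => ∫ r : ℝ, ec (-(inner ℝ p.1 ξ)) *
      (cexp (-(k * p.2 * I)) * G r (p.1 + r * w p.2)))
      ((volume : Measure ℂ).prod (volume.restrict (Ioc (-π) π))) := hint.integral_prod_left
  rw [integral_integral_swap hint1]
  apply integral_congr_ae
  filter_upwards with φ
  have hmφ : Measurable (fun q : ℂ × ℝ => ec (-(inner ℝ q.1 ξ)) *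
      (cexp (-(k * φ * I)) * G q.2 (q.1 + q.2 * w φ))) := by
    exact hmeas.comp (f := fun q : ℂ × ℝ => ((q.1, φ), q.2)) (by fun_prop)
  have hintφ : Integrable (fun q : ℂ × ℝ => ec (-(inner ℝ q.1 ξ)) *
      (cexp (-(k * φ * I)) * G q.2 (q.1 + q.2 * w φ)))
      ((volume : Measure ℂ).prod (volume : Measure ℝ)) := by
    refine (bdd_integrable (K := K) hmφ ?_
      (S := Metric.closedBall (0 : ℂ) (N + R) ×ˢ Icc (-R) R) ?_
      (measurableSet_closedBall.prod measurableSet_Icc) ?_).1
    · intro q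
      rw [norm_mul, ec_norm, one_mul, norm_mul, norm_exp, one_mul]
      exact h.bd _ _
    · rw [Measure.prod_prod]
      apply ENNReal.mul_ne_top
      · exact measure_closedBall_lt_top.ne
      · simp
    · intro q hq
      have : G q.2 (q.1 + q.2 * w φ) = 0 := by
        by_cases h1 : N + R < ‖q.1‖
        · exact (n_pt_zero h) h1
        · apply h.supp_r
          by_contra h2
          apply hq
          refine ⟨?_, ?_⟩
          · simpa using not_lt.1 h1
          · rw [mem_Icc, ← abs_le]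
            exact not_lt.1 h2
      rw [this, mul_zero, mul_zero]
  rw [integral_integral_swap hintφ, BB_eq, ← integral_const_mul]
  congr 1
  funext r
  have h2 := integral_add_right_eq_self (μ := (volume : Measure ℂ))
    (fun y : ℂ => ec (-(inner ℝ (y - r * w φ) ξ)) * (cexp (-(k * φ * I)) * G r y)) (r * w φ)
  have e2 : (∫ y : ℂ, ec (-(inner ℝ y ξ)) * (cexp (-(k * φ * I)) * G r (y + r * w φ))) =
      ∫ y : ℂ, ec (-(inner ℝ (y + r * w φ - r * w φ) ξ)) *
        (cexp (-(k * φ * I)) * G r (y + r * w φ)) := by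
    congr 1
    funext y
    rw [add_sub_cancel_right]
  rw [e2, h2, ec_smul, hat_eq]
  rw [← integral_const_mul, ← integral_const_mul]
  congr 1
  funext y
  have e3 : -(inner ℝ (y - r * w φ) ξ) = r * cx ξ φ + -(inner ℝ y ξ) := by
    have : (r : ℂ) * w φ = (r : ℝ) • w φ := by rw [Complex.real_smul]
    rw [this, inner_sub_left, real_inner_smul_left, inner_w]
    ring
  rw [e3, ec_add, ec_smul]
  ring

theorem n_rd (h : Nice G K R N) (h0 : ∀ r y, r ≤ 0 → G r y = 0) (ξ : ℂ) :
    Rd (fun r => hat G r ξ) (K * volume.real (Metric.closedBall (0 : ℂ) N)) R where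
  meas := h.hat_meas.comp measurable_prodMk_right
  bd := fun t => h.hat_bd t ξ
  supp0 := by
    intro t ht
    rw [hat_eq]
    simp [h0 t _ ht]
  supp := by
    intro t ht
    by_cases h1 : t ≤ 0
    · rw [hat_eq]
      simp [h0 t _ h1]
    · apply h.hat_supp
      rw [abs_of_pos (not_le.1 h1)]
      exact ht
  C0 := mul_nonneg h.K0 measureReal_nonneg
  R0 := h.R0

/-- **The energy of the averages over the light rays.** -/
theorem n_energy (h : Nice G K R N) (h0 : ∀ r y, r ≤ 0 → G r y = 0) (k : ℕ) :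
    ∑ n ∈ Finset.range k, ((n : ℝ≥0∞) + 1) * ∫⁻ y, ‖Ak G (n + 1) y‖ₑ ^ 2 ≤
      ENNReal.ofReal ((2 * π) ^ 2) *
        ∫⁻ t in Ioi (0 : ℝ), ENNReal.ofReal t * ∫⁻ y, ‖G t y‖ₑ ^ 2 := by
  have e1 : ∀ n : ℕ, ∫⁻ y, ‖Ak G (n + 1) y‖ₑ ^ 2 =
      ∫⁻ ξ, ‖bk (FU (fun r => hat G r ξ)) ξ (n + 1) 1‖ₑ ^ 2 := by
    intro n
    rw [← Pool.Agent.H153R4.plancherel _ ((n_Ak_int h) (n + 1)).1 ((n_Ak_int h) (n + 1)).2]
    congr 1
    funext ξ
    rw [(n_Ak_four h)]
    unfold bk
    have : (fun φ => BB G ξ (cx ξ φ)) = fun φ => FU (fun r => hat G r ξ) (1 * cx ξ φ) := by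
      funext φ
      rw [BB_eq, one_mul]
      unfold FU
      simp only [ec_smul]
    rw [this]
  have hm : ∀ n : ℕ, Measurable (fun ξ => ‖bk (FU (fun r => hat G r ξ)) ξ (n + 1) 1‖ₑ ^ 2) := by
    intro n
    have e2 : (fun ξ => bk (FU (fun r => hat G r ξ)) ξ (n + 1) 1) = 𝓕 (Ak G (n + 1)) := by
      funext ξ
      rw [(n_Ak_four h)]
      unfold bk
      have : (fun φ => BB G ξ (cx ξ φ)) = fun φ => FU (fun r => hat G r ξ) (1 * cx ξ φ) := by
        funext φ
        rw [BB_eq, one_mul]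
        unfold FU
        simp only [ec_smul]
      rw [this]
    have hc : Continuous (𝓕 (Ak G (n + 1))) := by
      have hi := ((n_Ak_int h) (n + 1)).1
      have e : 𝓕 (Ak G (n + 1)) = fun q => ∫ v, (𝐞 (-(inner ℝ v q)) : Circle) • Ak G (n + 1) v := by
        funext q
        rw [Real.fourier_eq]
      rw [e]
      apply continuous_of_dominated (bound := fun v => ‖Ak G (n + 1) v‖)
      · intro q
        simp only [ec_smul]
        apply AEStronglyMeasurable.mul _ hi.aestronglyMeasurable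
        exact (ec_cont.comp (by fun_prop)).aestronglyMeasurable
      · intro q
        filter_upwards with v
        rw [Circle.norm_smul]
      · exact hi.norm
      · filter_upwards with v
        simp only [ec_smul]
        exact (ec_cont.comp (by fun_prop)).mul continuous_const
    rw [← e2] at hc
    exact hc.measurable.enorm.pow_const _
  have hh := h.hat_meas
  calc ∑ n ∈ Finset.range k, ((n : ℝ≥0∞) + 1) * ∫⁻ y, ‖Ak G (n + 1) y‖ₑ ^ 2
      = ∑ n ∈ Finset.range k, ∫⁻ ξ, ((n : ℝ≥0∞) + 1) *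
          ‖bk (FU (fun r => hat G r ξ)) ξ (n + 1) 1‖ₑ ^ 2 := by
        apply Finset.sum_congr rfl
        intro n _
        rw [e1, lintegral_const_mul _ (hm n)]
    _ = ∫⁻ ξ, ∑ n ∈ Finset.range k, ((n : ℝ≥0∞) + 1) *
          ‖bk (FU (fun r => hat G r ξ)) ξ (n + 1) 1‖ₑ ^ 2 := by
        rw [lintegral_finsetSum]
        intro n _
        exact (hm n).const_mul _
    _ ≤ ∫⁻ ξ, ENNReal.ofReal ((2 * π) ^ 2) *
          ∫⁻ t in Ioi (0 : ℝ), ENNReal.ofReal t * ‖hat G t ξ‖ₑ ^ 2 := by
        apply lintegral_mono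
        intro ξ
        exact ((n_rd h) h0 ξ).energy ξ k
    _ = ENNReal.ofReal ((2 * π) ^ 2) * ∫⁻ t in Ioi (0 : ℝ), ENNReal.ofReal t *
          ∫⁻ ξ, ‖hat G t ξ‖ₑ ^ 2 := by
        have hm1 : Measurable (fun p : ℂ × ℝ => ENNReal.ofReal p.2 * ‖hat G p.2 p.1‖ₑ ^ 2) := by
          have : Measurable (fun p : ℂ × ℝ => hat G p.2 p.1) :=
            hh.comp (g := Function.uncurry (hat G)) (f := fun p : ℂ × ℝ => (p.2, p.1)) (by fun_prop)
          fun_prop
        rw [lintegral_const_mul' _ _ ENNReal.ofReal_ne_top, lintegral_lintegral_swap hm1.aemeasurable]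
        congr 1
        apply lintegral_congr
        intro t
        rw [lintegral_const_mul' _ _ ENNReal.ofReal_ne_top]
    _ = _ := by
        congr 1
        apply lintegral_congr
        intro t
        congr 1
        simp only [Pool.Agent.N249.LR.hat_def]
        exact Pool.Agent.H153R4.plancherel _ (h.int_y t).1 (h.int_y t).2

end Pool.Agent.D0H26.TS
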