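import Pool.Agent.D0H26.TS.Both
import Pool.Agent.D0H26.TS.Coor

set_option autoImplicit false

/-!
Tubes tangent to a sphere: the lower bound for the means over a tangent line.
-/

open MeasureTheory Set Complex Real ENNReal Filter

namespace Pool.Agent.D0H26.TS

open Pool.Agent.N249.LR (cx cy w norm_w)

/-- The parameter of a direction. -/
noncomputable def yd (E : ℝ × ℂ) : ℂ := ((1 + E.1)⁻¹ : ℝ) • E.2

variable {E Q : ℝ × ℂ}

theorem yd_sq (hE : E.1 ^ 2 + ‖E.2‖ ^ 2 = 1) (h0 : 0 ≤ E.1) :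
    ‖yd E‖ ^ 2 = (1 - E.1) / (1 + E.1) := by
  unfold yd
  have h1 : 0 < 1 + E.1 := by linarith
  rw [norm_smul, mul_pow, Real.norm_eq_abs, sq_abs]
  have h2 : ‖E.2‖ ^ 2 = (1 - E.1) * (1 + E.1) := by linarith
  rw [h2]
  field_simp

theorem yd_le (hE : E.1 ^ 2 + ‖E.2‖ ^ 2 = 1) (h0 : 0 ≤ E.1) : ‖yd E‖ ≤ 1 := by
  have h1 := yd_sq hE h0
  have h2 : (1 - E.1) / (1 + E.1) ≤ 1 := by
    rw [div_le_one (by linarith)]
    linarith
  have h3 : ‖yd E‖ ^ 2 ≤ 1 ^ 2 := by linarith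
  exact le_of_sq_le_sq h3 zero_le_one

theorem yd_mul (h0 : 0 ≤ E.1) : ((1 + E.1 : ℝ) : ℂ) * yd E = E.2 := by
  unfold yd
  have h1 : (1 + E.1) ≠ 0 := by linarith
  rw [Complex.real_smul, ← mul_assoc, ← Complex.ofReal_mul, mul_inv_cancel₀ h1,
    Complex.ofReal_one, one_mul]

theorem sg_yd (hE : E.1 ^ 2 + ‖E.2‖ ^ 2 = 1) (h0 : 0 ≤ E.1) (φ s : ℝ) :
    s = (sg (yd E) φ s - cx (yd E) φ) * (1 + E.1) := by
  unfold sg
  rw [yd_sq hE h0]
  have h1 : (1 + E.1) ≠ 0 := by linarith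
  field_simp
  ring

/-- The points of a tangent line, by the parameter of length. -/
theorem ell_sg (hE : E.1 ^ 2 + ‖E.2‖ ^ 2 = 1) (h0 : 0 ≤ E.1) (φ s : ℝ) :
    (ell (yd E) φ s).1 = sg (yd E) φ s * E.1 - cx (yd E) φ * (1 + E.1) ∧
      (ell (yd E) φ s).2 = w φ + ((sg (yd E) φ s - cx (yd E) φ : ℝ) : ℂ) * E.2 := by
  have h1 : (1 + E.1) ≠ 0 := by linarith
  have hs := sg_yd hE h0 φ s
  set σ := sg (yd E) φ s with hσ
  set c := cx (yd E) φ with hc
  constructor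
  · unfold ell
    simp only
    rw [← hc, yd_sq hE h0, hs]
    field_simp
    ring
  · unfold ell
    simp only
    rw [← yd_mul h0]
    nth_rewrite 1 [hs]
    push_cast
    ring

theorem cx_sub_le (y : ℂ) (φ φ' : ℝ) : |cx y φ - cx y φ'| ≤ ‖w φ - w φ'‖ * ‖y‖ := by
  rw [← inner_w, ← inner_w, ← inner_sub_left]
  exact abs_real_inner_le_norm _ _

/-- The angle of a point of tangency. -/
theorem exists_angle (hE : E.1 ^ 2 + ‖E.2‖ ^ 2 = 1) (h0 : 0 ≤ E.1)
    (hQ : Q.1 ^ 2 + ‖Q.2‖ ^ 2 = 1) (hEQ : Q.1 * E.1 + inner ℝ Q.2 E.2 = 0) :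
    ∃ φ0 ∈ Ioc (-π) π, w φ0 = Q.2 - (Q.1 : ℂ) * yd E ∧ cx (yd E) φ0 * (1 + E.1) = -Q.1 := by
  have h1 : 0 < 1 + E.1 := by linarith
  have hin : inner ℝ Q.2 (yd E) = -(Q.1 * E.1) / (1 + E.1) := by
    unfold yd
    rw [real_inner_smul_right]
    have : inner ℝ Q.2 E.2 = -(Q.1 * E.1) := by linarith
    rw [this]
    field_simp
  set W : ℂ := Q.2 - (Q.1 : ℂ) * yd E with hW
  have hW' : W = Q.2 - Q.1 • yd E := by rw [hW, Complex.real_smul]
  have hn : ‖W‖ ^ 2 = 1 := by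
    rw [hW', norm_sub_sq_real, real_inner_smul_right, hin, norm_smul, mul_pow, Real.norm_eq_abs,
      sq_abs, yd_sq hE h0]
    have : ‖Q.2‖ ^ 2 = 1 - Q.1 ^ 2 := by linarith
    rw [this]
    field_simp
    ring
  have hn1 : ‖W‖ = 1 := by
    have := norm_nonneg W
    nlinarith
  have hw : w W.arg = W := by
    unfold w
    have := Complex.norm_mul_exp_arg_mul_I W
    rw [hn1, Complex.ofReal_one, one_mul] at this
    exact this
  refine ⟨W.arg, Complex.arg_mem_Ioc W, hw, ?_⟩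
  rw [← inner_w, hw, hW', inner_sub_left, real_inner_smul_left, hin,
    real_inner_self_eq_norm_sq, yd_sq hE h0]
  field_simp
  ring

/-- Close points. -/
theorem close (hE : E.1 ^ 2 + ‖E.2‖ ^ 2 = 1) (h0 : 0 ≤ E.1) {φ0 φ' s t δ : ℝ} (hδ : 0 < δ)
    (hw : w φ0 = Q.2 - (Q.1 : ℂ) * yd E) (hc : cx (yd E) φ0 * (1 + E.1) = -Q.1)
    (hφ : ‖w φ' - w φ0‖ ≤ δ) (hs : |sg (yd E) φ' s - t| ≤ δ) :
    |(ell (yd E) φ' s).1 - (Q.1 + t * E.1)| ≤ 3 * δ ∧
      ‖(ell (yd E) φ' s).2 - (Q.2 + t * E.2)‖ ≤ 3 * δ := by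
  have h1 : 0 < 1 + E.1 := by linarith
  obtain ⟨e1, e2⟩ := ell_sg hE h0 φ' s
  set σ := sg (yd E) φ' s with hσ
  set c' := cx (yd E) φ' with hc'
  set c0 := cx (yd E) φ0 with hc0
  have hE1 : |E.1| ≤ 1 := by
    apply abs_le_of_sq_le_sq _ zero_le_one
    nlinarith [sq_nonneg ‖E.2‖]
  have hE2 : ‖E.2‖ ≤ 1 := by
    have : ‖E.2‖ ^ 2 ≤ 1 ^ 2 := by nlinarith [sq_nonneg E.1]
    exact le_of_sq_le_sq this zero_le_one
  have hyE : (1 + E.1) * ‖yd E‖ = ‖E.2‖ := by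
    have := congrArg norm (yd_mul (E := E) h0)
    rwa [norm_mul, Complex.norm_real, Real.norm_eq_abs, abs_of_pos h1] at this
  have hcc := cx_sub_le (yd E) φ' φ0
  rw [← hc', ← hc0] at hcc
  have hy1 := yd_le hE h0
  have hcc1 : |c' - c0| * (1 + E.1) ≤ δ := by
    calc |c' - c0| * (1 + E.1) ≤ (‖w φ' - w φ0‖ * ‖yd E‖) * (1 + E.1) := by gcongr
      _ = ‖w φ' - w φ0‖ * ((1 + E.1) * ‖yd E‖) := by ring
      _ ≤ δ * 1 := by
          rw [hyE]
          gcongr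
      _ = δ := mul_one _
  have hcc2 : |c' - c0| ≤ δ := by
    calc |c' - c0| ≤ ‖w φ' - w φ0‖ * ‖yd E‖ := hcc
      _ ≤ δ * 1 := by gcongr
      _ = δ := mul_one _
  constructor
  · have e3 : (ell (yd E) φ' s).1 - (Q.1 + t * E.1) = (σ - t) * E.1 - (c' - c0) * (1 + E.1) := by
      rw [e1]
      linarith
    rw [e3]
    refine (abs_sub _ _).trans ?_
    rw [abs_mul, abs_mul, abs_of_pos h1]
    have : |σ - t| * |E.1| ≤ δ * 1 := by gcongr
    linarith
  · have e4 : (ell (yd E) φ' s).2 - (Q.2 + t * E.2) =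
        (w φ' - w φ0) + (((σ - t) - (c' - c0) : ℝ) : ℂ) * E.2 := by
      have h5 : (Q.1 : ℂ) * yd E = -((c0 : ℂ) * E.2) := by
        have : (Q.1 : ℂ) = -((c0 * (1 + E.1) : ℝ) : ℂ) := by rw [hc]; push_cast; ring
        rw [this]
        push_cast
        have h6 := yd_mul (E := E) h0
        push_cast at h6
        rw [← h6]
        ring
      rw [e2, hw, h5]
      push_cast
      ring
    rw [e4]
    refine (norm_add_le _ _).trans ?_
    rw [norm_mul, Complex.norm_real, Real.norm_eq_abs]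
    have h7 : |(σ - t) - (c' - c0)| ≤ 2 * δ := by
      refine (abs_sub _ _).trans ?_
      linarith
    have h8 : |(σ - t) - (c' - c0)| * ‖E.2‖ ≤ 2 * δ * 1 := by gcongr
    linarith

/-- The smoothed function. -/
noncomputable def sm (δ : ℝ) (G : ℝ × ℂ → ℝ≥0∞) (Z : ℝ × ℂ) : ℝ≥0∞ :=
  ∫⁻ U in Metric.closedBall Z (5 * δ), G U

theorem sm_eq (δ : ℝ) (G : ℝ × ℂ → ℝ≥0∞) (Z : ℝ × ℂ) :
    sm δ G Z = ∫⁻ U, {p : (ℝ × ℂ) × (ℝ × ℂ) | dist p.2 p.1 ≤ 5 * δ}.indicator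
      (fun p => G p.2) (Z, U) := by
  unfold sm
  rw [← lintegral_indicator Metric.isClosed_closedBall.measurableSet]
  apply lintegral_congr
  intro U
  rfl

theorem near_meas (δ : ℝ) :
    MeasurableSet {p : (ℝ × ℂ) × (ℝ × ℂ) | dist p.2 p.1 ≤ 5 * δ} :=
  measurableSet_le (by fun_prop) measurable_const

theorem sm_meas (δ : ℝ) {G : ℝ × ℂ → ℝ≥0∞} (hG : Measurable G) : Measurable (sm δ G) := by
  have e : sm δ G = fun Z => ∫⁻ U, {p : (ℝ × ℂ) × (ℝ × ℂ) | dist p.2 p.1 ≤ 5 * δ}.indicator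
      (fun p => G p.2) (Z, U) := by
    funext Z
    exact sm_eq δ G Z
  rw [e]
  exact Measurable.lintegral_prod_right' ((hG.comp measurable_snd).indicator (near_meas δ))

/-- The set of the parameters near a given one. -/
theorem seg_vol {y : ℂ} (hy : ‖y‖ ≤ 1) (φ t δ : ℝ) (hδ : 0 < δ) :
    ENNReal.ofReal (2 * δ) ≤ volume {s : ℝ | |sg y φ s - t| ≤ δ} := by
  unfold sg
  set D : ℝ := (1 + ‖y‖ ^ 2) / 2 with hD
  have hD0 : 0 < D := by rw [hD]; positivity
  have hD1 : D ≤ 1 := by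
    rw [hD]
    nlinarith [norm_nonneg y]
  have e : {s : ℝ | |cx y φ + s * D - t| ≤ δ} =
      Icc ((t - δ - cx y φ) / D) ((t + δ - cx y φ) / D) := by
    ext s
    simp only [mem_ofPred_eq, mem_Icc, abs_le]
    rw [div_le_iff₀ hD0, le_div_iff₀ hD0]
    constructor
    · rintro ⟨h1, h2⟩
      exact ⟨by linarith, by linarith⟩
    · rintro ⟨h1, h2⟩
      exact ⟨by linarith, by linarith⟩
  rw [e, Real.volume_Icc]
  apply ENNReal.ofReal_le_ofReal
  rw [← sub_div, le_div_iff₀ hD0]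
  nlinarith

/-- The lower bound on one line. -/
theorem low_line {y : ℂ} (hy : ‖y‖ ≤ 1) {φ t0 δ : ℝ} (hδ : 0 < δ) (hδ1 : δ ≤ 1)
    {G : ℝ × ℂ → ℝ≥0∞} (hG : Measurable G) {T : Set (ℝ × ℂ)} (hTm : MeasurableSet T)
    (hT : ∀ U ∈ T, ∃ t : ℝ, |t - t0| ≤ 1 / 2 ∧
      ∀ s, |sg y φ s - t| ≤ δ → dist U (ell y φ s) ≤ 5 * δ) :
    ENNReal.ofReal (2 * δ) * ∫⁻ U in T, G U ≤
      ∫⁻ s, (Sh ⌊|t0| - 3 / 2⌋₊).indicator (sm δ G) (ell y φ s) := by
  set j : ℕ := ⌊|t0| - 3 / 2⌋₊ with hj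
  have hem : Measurable (fun s : ℝ => ell y φ s) :=
    ell_meas.comp (f := fun s : ℝ => ((y, φ), s)) (by fun_prop)
  set M : Set (ℝ × (ℝ × ℂ)) := {p | ell y φ p.1 ∈ Sh j ∧ dist p.2 (ell y φ p.1) ≤ 5 * δ} with hM
  have hMm : MeasurableSet M := by
    have h1 : MeasurableSet {p : ℝ × (ℝ × ℂ) | ell y φ p.1 ∈ Sh j} :=
      (hem.comp measurable_fst) (Sh_meas j)
    have h2 : MeasurableSet {p : ℝ × (ℝ × ℂ) | dist p.2 (ell y φ p.1) ≤ 5 * δ} := by
      have h3 : Measurable (fun p : ℝ × (ℝ × ℂ) => dist p.2 (ell y φ p.1)) :=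
        measurable_snd.dist (hem.comp measurable_fst)
      exact measurableSet_le h3 measurable_const
    exact h1.inter h2
  have e1 : ∀ s : ℝ, (Sh j).indicator (sm δ G) (ell y φ s) =
      ∫⁻ U, M.indicator (fun p => G p.2) (s, U) := by
    intro s
    by_cases hs : ell y φ s ∈ Sh j
    · rw [indicator_of_mem hs]
      unfold sm
      rw [← lintegral_indicator Metric.isClosed_closedBall.measurableSet]
      apply lintegral_congr
      intro U
      by_cases hU : U ∈ Metric.closedBall (ell y φ s) (5 * δ)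
      · have : (s, U) ∈ M := ⟨hs, hU⟩
        rw [indicator_of_mem hU, indicator_of_mem this]
      · have : (s, U) ∉ M := fun h => hU h.2
        rw [indicator_of_notMem hU, indicator_of_notMem this]
    · rw [indicator_of_notMem hs]
      symm
      rw [lintegral_eq_zero_iff']
      · refine ae_of_all _ fun U => ?_
        have : (s, U) ∉ M := fun h => hs h.1
        simp only
        rw [indicator_of_notMem this]
        rfl
      · have h4 : Measurable (M.indicator (fun p : ℝ × (ℝ × ℂ) => G p.2)) :=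
          (hG.comp measurable_snd).indicator hMm
        exact (h4.comp (by fun_prop : Measurable (fun U : ℝ × ℂ => (s, U)))).aemeasurable
  simp only [e1]
  rw [lintegral_lintegral_swap]
  swap
  · exact ((hG.comp measurable_snd).indicator hMm).aemeasurable
  rw [← lintegral_const_mul' _ _ ENNReal.ofReal_ne_top, ← lintegral_indicator hTm]
  apply lintegral_mono
  intro U
  by_cases hU : U ∈ T
  · rw [indicator_of_mem hU]
    obtain ⟨t, ht, hclose⟩ := hT U hU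
    have e2 : ∫⁻ s, M.indicator (fun p => G p.2) (s, U) = G U * volume {s : ℝ | (s, U) ∈ M} := by
      have hm : MeasurableSet {s : ℝ | (s, U) ∈ M} :=
        (by fun_prop : Measurable (fun s : ℝ => (s, U))) hMm
      rw [← lintegral_indicator_const hm]
      apply lintegral_congr
      intro s
      by_cases hs : (s, U) ∈ M
      · rw [indicator_of_mem hs, indicator_of_mem (show s ∈ {s : ℝ | (s, U) ∈ M} from hs)]
      · rw [indicator_of_notMem hs, indicator_of_notMem (show s ∉ {s : ℝ | (s, U) ∈ M} from hs)]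
    show ENNReal.ofReal (2 * δ) * G U ≤ ∫⁻ s, M.indicator (fun p => G p.2) (s, U)
    rw [e2, mul_comm]
    gcongr
    refine (seg_vol hy φ t δ hδ).trans (measure_mono ?_)
    intro s hs
    have hs' : |sg y φ s - t| ≤ δ := hs
    refine ⟨?_, hclose s hs'⟩
    rw [ell_mem_Sh]
    have h5 : |sg y φ s - t0| ≤ 3 / 2 := by
      have : sg y φ s - t0 = (sg y φ s - t) + (t - t0) := by ring
      rw [this]
      refine (abs_add_le _ _).trans ?_
      linarith
    have h6 : |sg y φ s| ≤ |t0| + 3 / 2 := by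
      have := abs_sub_abs_le_abs_sub (sg y φ s) t0
      linarith
    have h7 : |t0| - 3 / 2 ≤ |sg y φ s| := by
      have := abs_sub_abs_le_abs_sub t0 (sg y φ s)
      rw [abs_sub_comm] at this
      linarith
    constructor
    · rcases le_total 0 (|t0| - 3 / 2) with h8 | h8
      · exact (Nat.floor_le h8).trans h7
      · rw [hj, Nat.floor_of_nonpos h8]
        simp
    · have := Nat.lt_floor_add_one (|t0| - 3 / 2)
      rw [← hj] at this
      linarith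
  · rw [indicator_of_notMem hU]
    exact zero_le

theorem w_lip (φ φ' : ℝ) : ‖w φ - w φ'‖ ≤ |φ - φ'| := by
  have h1 : w φ - w φ' = w φ' * (cexp (I * ((φ - φ' : ℝ) : ℂ)) - 1) := by
    unfold w
    rw [mul_sub, ← Complex.exp_add, mul_one]
    congr 2
    push_cast
    ring
  rw [h1, norm_mul, norm_w, one_mul]
  exact Real.norm_exp_I_mul_ofReal_sub_one_le

/-- The lower bound for the mean over the angles. -/
theorem low_avg {y : ℂ} (hy : ‖y‖ ≤ 1) {φ0 t0 δ : ℝ} (hφ0 : φ0 ∈ Ioc (-π) π) (hδ : 0 < δ)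
    (hδ1 : δ ≤ 1) {G : ℝ × ℂ → ℝ≥0∞} (hG : Measurable G) {T : Set (ℝ × ℂ)}
    (hTm : MeasurableSet T)
    (hT : ∀ φ : ℝ, ‖w φ - w φ0‖ ≤ δ → ∀ U ∈ T, ∃ t : ℝ, |t - t0| ≤ 1 / 2 ∧
      ∀ s, |sg y φ s - t| ≤ δ → dist U (ell y φ s) ≤ 5 * δ) :
    ENNReal.ofReal (δ / 4) * ∫⁻ U in T, G U ≤
      ∫⁻ φ in Ioc (-π) π, ENNReal.ofReal (kap ⌊1 / δ⌋₊ (φ0 - φ)) *
        ∫⁻ s, (Sh ⌊|t0| - 3 / 2⌋₊).indicator (sm δ G) (ell y φ s) := by
  have hpi := Real.pi_gt_three
  set K : ℕ := ⌊1 / δ⌋₊ with hK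
  have h1δ : 1 ≤ 1 / δ := by rw [le_div_iff₀ hδ]; linarith
  have hK1 : 1 ≤ K := by
    rw [hK]
    exact Nat.le_floor (by simpa using h1δ)
  have hK0 : 0 < K := hK1
  have hKδ : K * δ ≤ 1 := by
    have := Nat.floor_le (show 0 ≤ 1 / δ by positivity)
    rw [← hK] at this
    rwa [le_div_iff₀ hδ] at this
  have hK2 : 1 / δ ≤ 2 * K := by
    have h2 := Nat.lt_floor_add_one (1 / δ)
    rw [← hK] at h2
    have h3 : (1 : ℝ) ≤ K := by exact_mod_cast hK1
    linarith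
  obtain ⟨a, ha1, ha2⟩ : ∃ a : ℝ, Icc a (a + δ) ⊆ Ioc (-π) π ∧ Icc a (a + δ) ⊆
      Icc (φ0 - δ) (φ0 + δ) := by
    rcases le_total 0 φ0 with h | h
    · refine ⟨φ0 - δ, ?_, ?_⟩
      · intro x hx
        exact ⟨by linarith [hx.1], by linarith [hx.2, hφ0.2]⟩
      · intro x hx
        exact ⟨hx.1, by linarith [hx.2]⟩
    · refine ⟨φ0, ?_, ?_⟩
      · intro x hx
        exact ⟨by linarith [hx.1, hφ0.1], by linarith [hx.2]⟩
      · intro x hx
        exact ⟨by linarith [hx.1], hx.2⟩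
  calc ENNReal.ofReal (δ / 4) * ∫⁻ U in T, G U
      ≤ (ENNReal.ofReal (K / 4) * (ENNReal.ofReal (2 * δ) * ∫⁻ U in T, G U)) *
          ENNReal.ofReal δ := by
        rw [← mul_assoc, ← ENNReal.ofReal_mul (by positivity), mul_comm, mul_comm _
          (ENNReal.ofReal δ), ← mul_assoc, ← ENNReal.ofReal_mul hδ.le, mul_comm]
        gcongr
        have h3 : 1 / δ * (δ * δ / 2) ≤ 2 * K * (δ * δ / 2) := by gcongr
        have h4 : 1 / δ * (δ * δ / 2) = δ / 2 := by field_simp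
        nlinarith
    _ = ∫⁻ φ in Icc a (a + δ), ENNReal.ofReal (K / 4) *
          (ENNReal.ofReal (2 * δ) * ∫⁻ U in T, G U) := by
        rw [setLIntegral_const, Real.volume_Icc, add_sub_cancel_left]
    _ ≤ ∫⁻ φ in Icc a (a + δ), ENNReal.ofReal (kap K (φ0 - φ)) *
        ∫⁻ s, (Sh ⌊|t0| - 3 / 2⌋₊).indicator (sm δ G) (ell y φ s) := by
        apply setLIntegral_mono' measurableSet_Icc
        intro φ hφ
        have h5 : |φ - φ0| ≤ δ := by
          have := ha2 hφ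
          rw [abs_le]
          exact ⟨by linarith [this.1], by linarith [this.2]⟩
        have h6 : ‖w φ - w φ0‖ ≤ δ := (w_lip φ φ0).trans h5
        apply mul_le_mul'
        · apply ENNReal.ofReal_le_ofReal
          apply kap_lower hK0 (ε := δ) _ hKδ
          have h7 : cexp (((φ0 - φ : ℝ) : ℂ) * I) - 1 = cexp (I * ((φ0 - φ : ℝ) : ℂ)) - 1 := by
            rw [mul_comm]
          rw [h7]
          refine Real.norm_exp_I_mul_ofReal_sub_one_le.trans ?_
          rw [Real.norm_eq_abs, abs_sub_comm]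
          exact h5
        · exact low_line hy hδ hδ1 hG hTm (hT φ h6)
    _ ≤ _ := lintegral_mono_set ha1

end Pool.Agent.D0H26.TS
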