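import Pool.Agent.D0H26.TS.Ker

set_option autoImplicit false

/-!
Tubes tangent to a sphere: smoothing and the norm; the pointwise bound for the tubes.
-/

open MeasureTheory Set Complex Real ENNReal Filter

namespace Pool.Agent.D0H26.TS

open Pool.Agent.N249.LR (cx cy w norm_w)

theorem jensen {α : Type*} [MeasurableSpace α] (ν : Measure α) {g : α → ℝ≥0∞}
    (hg : AEMeasurable g ν) : (∫⁻ x, g x ∂ν) ^ 3 ≤ ν univ ^ 2 * ∫⁻ x, g x ^ 3 ∂ν := by
  have hpq : (3 : ℝ).HolderConjugate (3 / 2) := by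
    rw [Real.holderConjugate_iff]
    norm_num
  have h := ENNReal.lintegral_mul_le_Lp_mul_Lq ν hpq hg (g := fun _ => (1 : ℝ≥0∞))
    measurable_const.aemeasurable
  simp only [Pi.mul_apply, mul_one, ENNReal.one_rpow, lintegral_const, one_mul] at h
  have h2 := pow_le_pow_left₀ (zero_le) h 3
  refine h2.trans (le_of_eq ?_)
  rw [mul_pow, mul_comm]
  congr 1
  · rw [← ENNReal.rpow_natCast, ← ENNReal.rpow_mul, ← ENNReal.rpow_natCast]
    norm_num
  · rw [← ENNReal.rpow_natCast, ← ENNReal.rpow_mul]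
    have e : ∀ x : ℝ≥0∞, x ^ (3 : ℝ) = x ^ 3 := fun x => by
      rw [← ENNReal.rpow_natCast]
      norm_num
    simp only [e]
    norm_num

/-- **The norm of the smoothed function.** -/
theorem sm_int {δ : ℝ} (hδ : 0 < δ) {G : ℝ × ℂ → ℝ≥0∞} (hG : Measurable G) :
    ∫⁻ X in SS, sm δ G X ^ 3 * kt δ X * Wt X ≤
      ENNReal.ofReal (66000 * δ ^ 3 * (250 * π * δ ^ 3) ^ 2) * ∫⁻ U, G U ^ 3 := by
  have hpi := Real.pi_pos
  have hkm := kt_meas δ
  have hWm := Wt_meas
  have hkW : Measurable (fun X => kt δ X * Wt X) := hkm.mul hWm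
  have h1 : ∀ X : ℝ × ℂ, sm δ G X ^ 3 ≤ ENNReal.ofReal ((250 * π * δ ^ 3) ^ 2) *
      ∫⁻ U in Metric.closedBall X (5 * δ), G U ^ 3 := by
    intro X
    unfold sm
    refine (jensen _ hG.aemeasurable).trans ?_
    have e : 2 * π * (5 * δ) ^ 3 = 250 * π * δ ^ 3 := by ring
    rw [Measure.restrict_apply_univ, ball_vol X (by positivity),
      ← ENNReal.ofReal_pow (by positivity), e]
  set M : Set ((ℝ × ℂ) × (ℝ × ℂ)) := {p | p.1 ∈ SS ∧ dist p.2 p.1 ≤ 5 * δ} with hM
  have hMm : MeasurableSet M := (measurable_fst SS_meas).inter (near_meas δ)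
  set Φ : (ℝ × ℂ) × (ℝ × ℂ) → ℝ≥0∞ := M.indicator (fun p => G p.2 ^ 3 * (kt δ p.1 * Wt p.1))
    with hΦ
  have hΦm : Measurable Φ :=
    (((hG.comp measurable_snd).pow_const 3).mul (hkW.comp measurable_fst)).indicator hMm
  calc ∫⁻ X in SS, sm δ G X ^ 3 * kt δ X * Wt X
      ≤ ∫⁻ X in SS, ENNReal.ofReal ((250 * π * δ ^ 3) ^ 2) *
          ((∫⁻ U in Metric.closedBall X (5 * δ), G U ^ 3) * (kt δ X * Wt X)) := by
        apply lintegral_mono
        intro X
        simp only
        rw [mul_assoc, ← mul_assoc (ENNReal.ofReal ((250 * π * δ ^ 3) ^ 2))]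
        gcongr
        exact h1 X
    _ = ENNReal.ofReal ((250 * π * δ ^ 3) ^ 2) * ∫⁻ X in SS,
          ((∫⁻ U in Metric.closedBall X (5 * δ), G U ^ 3) * (kt δ X * Wt X)) :=
        lintegral_const_mul' _ _ ENNReal.ofReal_ne_top
    _ = ENNReal.ofReal ((250 * π * δ ^ 3) ^ 2) * ∫⁻ X, ∫⁻ U, Φ (X, U) := by
        congr 1
        rw [← lintegral_indicator SS_meas]
        apply lintegral_congr
        intro X
        by_cases hX : X ∈ SS
        · rw [indicator_of_mem hX, ← lintegral_mul_const _ (hG.pow_const 3),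
            ← lintegral_indicator Metric.isClosed_closedBall.measurableSet]
          apply lintegral_congr
          intro U
          by_cases hU : U ∈ Metric.closedBall X (5 * δ)
          · have : (X, U) ∈ M := ⟨hX, hU⟩
            rw [indicator_of_mem hU, hΦ, indicator_of_mem this]
          · have : (X, U) ∉ M := fun h => hU h.2
            rw [indicator_of_notMem hU, hΦ, indicator_of_notMem this]
        · rw [indicator_of_notMem hX]
          symm
          have : ∀ U, Φ (X, U) = 0 := by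
            intro U
            have : (X, U) ∉ M := fun h => hX h.1
            rw [hΦ, indicator_of_notMem this]
          simp only [this, lintegral_zero]
    _ = ENNReal.ofReal ((250 * π * δ ^ 3) ^ 2) * ∫⁻ U, ∫⁻ X, Φ (X, U) := by
        rw [lintegral_lintegral_swap]
        exact hΦm.aemeasurable
    _ = ENNReal.ofReal ((250 * π * δ ^ 3) ^ 2) * ∫⁻ U, G U ^ 3 *
          ∫⁻ X in SS ∩ Metric.closedBall U (5 * δ), kt δ X * Wt X := by
        congr 1
        apply lintegral_congr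
        intro U
        have hset : MeasurableSet (SS ∩ Metric.closedBall U (5 * δ)) :=
          SS_meas.inter Metric.isClosed_closedBall.measurableSet
        rw [← lintegral_const_mul _ hkW, ← lintegral_indicator hset]
        apply lintegral_congr
        intro X
        by_cases h : X ∈ SS ∩ Metric.closedBall U (5 * δ)
        · have : (X, U) ∈ M := ⟨h.1, by
            have := h.2
            rw [Metric.mem_closedBall, dist_comm] at this
            exact this⟩
          rw [indicator_of_mem h, hΦ, indicator_of_mem this]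
        · have : (X, U) ∉ M := fun h' => h ⟨h'.1, by
            rw [Metric.mem_closedBall, dist_comm]
            exact h'.2⟩
          rw [indicator_of_notMem h, hΦ, indicator_of_notMem this]
    _ ≤ ENNReal.ofReal ((250 * π * δ ^ 3) ^ 2) * ∫⁻ U, G U ^ 3 *
          ENNReal.ofReal (66000 * δ ^ 3) := by
        gcongr with U
        exact ker_bd U hδ
    _ = _ := by
        rw [lintegral_mul_const _ (hG.pow_const 3), mul_comm (∫⁻ U, G U ^ 3), ← mul_assoc,
          ← ENNReal.ofReal_mul (by positivity)]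
        congr 2
        ring

/-- The closed tube of length `1` and radius `δ` with centre `b` and axis direction `e`. -/
def tubE (δ : ℝ) (e b : E3) : Set E3 :=
  {y | |inner ℝ (y - b) e| ≤ 1 / 2 ∧ ‖(y - b) - (inner ℝ (y - b) e : ℝ) • e‖ ≤ δ}

theorem tubE_meas (δ : ℝ) (e b : E3) : MeasurableSet (tubE δ e b) := by
  have h1 : IsClosed {y : E3 | |inner ℝ (y - b) e| ≤ 1 / 2} :=
    isClosed_le (by fun_prop) continuous_const
  have h2 : IsClosed {y : E3 | ‖(y - b) - (inner ℝ (y - b) e : ℝ) • e‖ ≤ δ} :=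
    isClosed_le (by fun_prop) continuous_const
  exact (h1.inter h2).measurableSet

/-- **The pointwise bound.** -/
theorem tube_le {δ : ℝ} (hδ : 0 < δ) (hδ1 : δ ≤ 1) {e a P : E3} (he : ‖e‖ = 1)
    (he0 : 0 ≤ (co e).1) (hP : ‖P‖ = 1) (hPe : inner ℝ P e = 0)
    (haP : ‖(a - P) - (inner ℝ (a - P) e : ℝ) • e‖ ≤ δ) {F : E3 → ℝ≥0∞} (hF : Measurable F) :
    (ENNReal.ofReal (δ / 4) * ∫⁻ x in tubE δ e a, F x) ^ 3 ≤
      HF (sm δ (fun X => F (em X))) δ ⌊1 / δ⌋₊ (yd (co e)) := by
  have hem : Measurable em := em_mp.measurable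
  have hG : Measurable (fun X => F (em X)) := hF.comp hem
  have hE : (co e).1 ^ 2 + ‖(co e).2‖ ^ 2 = 1 := by rw [← norm_co, he, one_pow]
  have hQ : (co P).1 ^ 2 + ‖(co P).2‖ ^ 2 = 1 := by rw [← norm_co, hP, one_pow]
  have hEQ : (co P).1 * (co e).1 + inner ℝ (co P).2 (co e).2 = 0 := by rw [← inner_co, hPe]
  obtain ⟨φ0, hφ0, hw0, hc0⟩ := exists_angle hE he0 hQ hEQ
  set t0 : ℝ := inner ℝ (a - P) e with ht0
  rw [setInt_co hF (tubE_meas δ e a)]
  have hTm : MeasurableSet {X | em X ∈ tubE δ e a} := hem (tubE_meas δ e a)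
  have hT : ∀ φ : ℝ, ‖w φ - w φ0‖ ≤ δ → ∀ U ∈ {X | em X ∈ tubE δ e a}, ∃ t : ℝ,
      |t - t0| ≤ 1 / 2 ∧ ∀ s, |sg (yd (co e)) φ s - t| ≤ δ →
        dist U (ell (yd (co e)) φ s) ≤ 5 * δ := by
    intro φ hφ U hU
    obtain ⟨hU1, hU2⟩ : em U ∈ tubE δ e a := hU
    obtain ⟨t, ht, h1, h2⟩ := tube_pt hδ hU1 hU2 haP
    rw [co_em] at h1 h2
    refine ⟨t, ht, ?_⟩
    intro s hs
    obtain ⟨h3, h4⟩ := close hE he0 hδ hw0 hc0 hφ hs
    rw [Prod.dist_eq, max_le_iff, Real.dist_eq, Complex.dist_eq]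
    constructor
    · have e : U.1 - (ell (yd (co e)) φ s).1 = (U.1 - ((co P).1 + t * (co e).1)) -
        ((ell (yd (co e)) φ s).1 - ((co P).1 + t * (co e).1)) := by ring
      rw [e]
      refine (abs_sub _ _).trans ?_
      linarith
    · have e : U.2 - (ell (yd (co e)) φ s).2 = (U.2 - ((co P).2 + t * (co e).2)) -
        ((ell (yd (co e)) φ s).2 - ((co P).2 + t * (co e).2)) := by ring
      rw [e]
      refine (norm_sub_le _ _).trans ?_
      linarith
  have h5 := low_avg (yd_le hE he0) (t0 := t0) hφ0 hδ hδ1 hG hTm hT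
  have h1δ : 1 ≤ 1 / δ := by rw [le_div_iff₀ hδ]; linarith
  have hK1 : 0 < ⌊1 / δ⌋₊ := Nat.floor_pos.2 h1δ
  refine (pow_le_pow_left₀ zero_le h5 3).trans ?_
  exact HF_pt (sm_meas δ hG) hδ hδ1 hK1 _ _ _

end Pool.Agent.D0H26.TS
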