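import Pool.Agent.D0H26.TS.Geo
import Pool.Agent.D0H26.WF.Sph

set_option autoImplicit false

/-!
Tubes tangent to a sphere: smoothing.
-/

open MeasureTheory Set Complex Real ENNReal Filter

namespace Pool.Agent.D0H26.TS

open Pool.Agent.N249.LR (cx cy w norm_w)

theorem inv_sqrt_int {a : ℝ} (ha : 0 < a) :
    ∫⁻ u in Ioc (0 : ℝ) a, ENNReal.ofReal (√u)⁻¹ = ENNReal.ofReal (2 * √a) := by
  have h1 : IntervalIntegrable (fun x : ℝ => x ^ (-(1 / 2) : ℝ)) volume 0 a :=
    intervalIntegral.intervalIntegrable_rpow' (by norm_num)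
  have h2 := integral_rpow (a := 0) (b := a) (r := -(1 / 2)) (Or.inl (by norm_num))
  have h3 : IntegrableOn (fun x : ℝ => x ^ (-(1 / 2) : ℝ)) (Ioc 0 a) volume :=
    (intervalIntegrable_iff_integrableOn_Ioc_of_le ha.le).1 h1
  have e1 : ∫⁻ u in Ioc (0 : ℝ) a, ENNReal.ofReal (√u)⁻¹ =
      ∫⁻ u in Ioc (0 : ℝ) a, ENNReal.ofReal (u ^ (-(1 / 2) : ℝ)) := by
    apply setLIntegral_congr_fun measurableSet_Ioc
    intro u hu
    simp only
    rw [Real.rpow_neg hu.1.le, ← Real.sqrt_eq_rpow]
  rw [e1, ← ofReal_integral_eq_lintegral_ofReal h3 ?_]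
  · congr 1
    rw [← intervalIntegral.integral_of_le ha.le, h2]
    have e2 : (-(1 / 2) : ℝ) + 1 = 1 / 2 := by norm_num
    rw [e2, Real.zero_rpow (by norm_num), ← Real.sqrt_eq_rpow]
    ring
  · apply (ae_restrict_iff' measurableSet_Ioc).2
    refine ae_of_all _ fun u hu => ?_
    exact Real.rpow_nonneg hu.1.le _

theorem sqrt_int {a : ℝ} (ha : 0 < a) {I : Set ℝ} (hI : MeasurableSet I) (hI1 : I ⊆ Ici 1)
    (hv : volume I ≤ ENNReal.ofReal a) :
    ∫⁻ r in I, ENNReal.ofReal (√(r - 1))⁻¹ ≤ ENNReal.ofReal (3 * √a) := by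
  have hsa : 0 < √a := Real.sqrt_pos.2 ha
  have hm : Measurable (fun r : ℝ => ENNReal.ofReal (√(r - 1))⁻¹) := by fun_prop
  have h1 : I ⊆ (Ioc (1 : ℝ) (1 + a)) ∪ (I ∩ (Ioi (1 + a) ∪ {1})) := by
    intro r hr
    have h2 : 1 ≤ r := hI1 hr
    rcases lt_or_ge (1 + a) r with h3 | h3
    · exact Or.inr ⟨hr, Or.inl h3⟩
    · rcases h2.lt_or_eq with h4 | h4
      · exact Or.inl ⟨h4, h3⟩
      · exact Or.inr ⟨hr, Or.inr h4.symm⟩
  calc ∫⁻ r in I, ENNReal.ofReal (√(r - 1))⁻¹
      ≤ (∫⁻ r in Ioc (1 : ℝ) (1 + a), ENNReal.ofReal (√(r - 1))⁻¹) +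
          ∫⁻ r in I ∩ (Ioi (1 + a) ∪ {1}), ENNReal.ofReal (√(r - 1))⁻¹ :=
        (lintegral_mono_set h1).trans (lintegral_union_le _ _ _)
    _ ≤ ENNReal.ofReal (2 * √a) + ENNReal.ofReal (√a) := by
        apply add_le_add
        · have e1 : ∫⁻ r in Ioc (1 : ℝ) (1 + a), ENNReal.ofReal (√(r - 1))⁻¹ =
              ∫⁻ u in Ioc (0 : ℝ) a, ENNReal.ofReal (√u)⁻¹ := by
            rw [← lintegral_indicator measurableSet_Ioc, ← lintegral_indicator measurableSet_Ioc,
              ← lintegral_sub_right_eq_self (fun u => (Ioc (0 : ℝ) a).indicator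
                (fun u => ENNReal.ofReal (√u)⁻¹) u) 1]
            apply lintegral_congr
            intro r
            by_cases hr : r ∈ Ioc (1 : ℝ) (1 + a)
            · have : r - 1 ∈ Ioc (0 : ℝ) a := ⟨by linarith [hr.1], by linarith [hr.2]⟩
              rw [indicator_of_mem hr, indicator_of_mem this]
            · have : r - 1 ∉ Ioc (0 : ℝ) a := fun h => hr ⟨by linarith [h.1], by linarith [h.2]⟩
              rw [indicator_of_notMem hr, indicator_of_notMem this]
          rw [e1, inv_sqrt_int ha]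
        · calc ∫⁻ r in I ∩ (Ioi (1 + a) ∪ {1}), ENNReal.ofReal (√(r - 1))⁻¹
              ≤ ∫⁻ r in I ∩ (Ioi (1 + a) ∪ {1}), ENNReal.ofReal (√a)⁻¹ := by
                apply setLIntegral_mono' (hI.inter (measurableSet_Ioi.union
                  (measurableSet_singleton _)))
                rintro r ⟨_, hr⟩
                apply ENNReal.ofReal_le_ofReal
                rcases hr with hr | hr
                · have hr' : 1 + a < r := hr
                  apply inv_anti₀ hsa
                  exact Real.sqrt_le_sqrt (by linarith)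
                · have hr' : r = 1 := hr
                  rw [hr', sub_self, Real.sqrt_zero, _root_.inv_zero]
                  positivity
            _ = ENNReal.ofReal (√a)⁻¹ * volume (I ∩ (Ioi (1 + a) ∪ {1})) := by
                rw [setLIntegral_const]
            _ ≤ ENNReal.ofReal (√a)⁻¹ * ENNReal.ofReal a := by
                gcongr
                exact (measure_mono inter_subset_left).trans hv
            _ = ENNReal.ofReal (√a) := by
                rw [← ENNReal.ofReal_mul (by positivity)]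
                congr 1
                rw [inv_mul_eq_iff_eq_mul₀ hsa.ne']
                exact (Real.mul_self_sqrt ha.le).symm
    _ = _ := by
        rw [← ENNReal.ofReal_add (by positivity) (by positivity)]
        congr 1
        ring

/-- The set of the admissible points. -/
def SS : Set (ℝ × ℂ) := {X : ℝ × ℂ | 1 ≤ X.1 ^ 2 + ‖X.2‖ ^ 2}

theorem SS_meas : MeasurableSet SS := measurableSet_le measurable_const (by fun_prop)

/-- The density near a point. -/
theorem wt_bd (U : ℝ × ℂ) {δ : ℝ} (hδ : 0 < δ) :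
    ∫⁻ Z in SS ∩ Metric.closedBall U (5 * δ), Wt Z ≤ ENNReal.ofReal (64800 * δ ^ 2 * √δ) := by
  have hWm := Wt_meas
  set A : Set (ℝ × ℂ) := SS ∩ Metric.closedBall U (5 * δ) with hA
  have hAm : MeasurableSet A := SS_meas.inter Metric.isClosed_closedBall.measurableSet
  set F : E3 → ℝ≥0∞ := fun x => A.indicator Wt (co x) with hF
  have hFm : Measurable F := (hWm.indicator hAm).comp co_meas
  have e1 : ∫⁻ Z in A, Wt Z = ∫⁻ x, F x := by
    rw [int_co hFm, ← lintegral_indicator hAm]
    apply lintegral_congr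
    intro X
    simp only [hF, co_em]
  rw [e1, Pool.Agent.D0H26.WF.polar_out 2 hFm]
  set ρ0 : ℝ := ‖em U‖ with hρ0
  set I : Set ℝ := {r : ℝ | 1 ≤ r ∧ |r - ρ0| ≤ 8 * δ} with hI
  have hIm : MeasurableSet I := by
    have h1 : MeasurableSet {r : ℝ | 1 ≤ r} := measurableSet_le measurable_const measurable_id
    have h2 : MeasurableSet {r : ℝ | |r - ρ0| ≤ 8 * δ} :=
      measurableSet_le (by fun_prop) measurable_const
    exact h1.inter h2
  have hnear : ∀ x x' : E3, |(co x).1 - (co x').1| ≤ 10 * δ → ‖(co x).2 - (co x').2‖ ≤ 10 * δ →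
      ‖x - x'‖ ≤ 15 * δ := by
    intro x x' h1 h2
    have h3 : ‖x - x'‖ ^ 2 ≤ (15 * δ) ^ 2 := by
      rw [norm_co, co_sub, Prod.fst_sub, Prod.snd_sub]
      have h4 : ((co x).1 - (co x').1) ^ 2 ≤ (10 * δ) ^ 2 := by
        rw [← sq_abs]
        exact pow_le_pow_left₀ (abs_nonneg _) h1 2
      have h5 : ‖(co x).2 - (co x').2‖ ^ 2 ≤ (10 * δ) ^ 2 :=
        pow_le_pow_left₀ (norm_nonneg _) h2 2
      nlinarith [sq_nonneg δ]
    exact le_of_sq_le_sq h3 (by positivity)
  have hnear' : ∀ x x' : E3, |(co x).1 - (co x').1| ≤ 5 * δ → ‖(co x).2 - (co x').2‖ ≤ 5 * δ →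
      ‖x - x'‖ ≤ 8 * δ := by
    intro x x' h1 h2
    have h3 : ‖x - x'‖ ^ 2 ≤ (8 * δ) ^ 2 := by
      rw [norm_co, co_sub, Prod.fst_sub, Prod.snd_sub]
      have h4 : ((co x).1 - (co x').1) ^ 2 ≤ (5 * δ) ^ 2 := by
        rw [← sq_abs]
        exact pow_le_pow_left₀ (abs_nonneg _) h1 2
      have h5 : ‖(co x).2 - (co x').2‖ ^ 2 ≤ (5 * δ) ^ 2 :=
        pow_le_pow_left₀ (norm_nonneg _) h2 2
      nlinarith [sq_nonneg δ]
    exact le_of_sq_le_sq h3 (by positivity)
  have hball : ∀ X ∈ A, |X.1 - U.1| ≤ 5 * δ ∧ ‖X.2 - U.2‖ ≤ 5 * δ := by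
    intro X hX
    have h1 : dist X U ≤ 5 * δ := hX.2
    rw [Prod.dist_eq, max_le_iff, Real.dist_eq, Complex.dist_eq] at h1
    exact h1
  have key : ∀ r ∈ Ioi (0 : ℝ), ENNReal.ofReal (r ^ 2) *
      ∫⁻ θ : Metric.sphere (0 : E3) 1, F (r • (θ : E3)) ∂((volume : Measure E3).toSphere) ≤
      I.indicator (fun r => ENNReal.ofReal (5400 * δ ^ 2) * ENNReal.ofReal (√(r - 1))⁻¹) r := by
    intro r hr
    have hr0 : 0 < r := hr
    have hn : ∀ θ : Metric.sphere (0 : E3) 1, ‖r • (θ : E3)‖ = r := by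
      intro θ
      rw [norm_smul, norm_eq_of_mem_sphere, Real.norm_eq_abs, abs_of_pos hr0, mul_one]
    set Z : Set (Metric.sphere (0 : E3) 1) := {θ | co (r • (θ : E3)) ∈ A} with hZ
    have hZm : MeasurableSet Z := by
      have h1 : Measurable (fun θ : Metric.sphere (0 : E3) 1 => co (r • (θ : E3))) :=
        co_meas.comp (measurable_subtype_coe.const_smul r)
      exact h1 hAm
    have hFe : ∀ θ : Metric.sphere (0 : E3) 1, F (r • (θ : E3)) =
        Z.indicator (fun _ => ENNReal.ofReal (√(r ^ 2 - 1))⁻¹) θ := by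
      intro θ
      simp only [hF]
      by_cases hθ : θ ∈ Z
      · have hθ' : co (r • (θ : E3)) ∈ A := hθ
        rw [indicator_of_mem hθ, indicator_of_mem hθ']
        unfold Wt
        rw [← norm_co, hn θ]
      · have hθ' : co (r • (θ : E3)) ∉ A := hθ
        rw [indicator_of_notMem hθ, indicator_of_notMem hθ']
    simp only [hFe]
    rw [lintegral_indicator_const hZm]
    rcases Z.eq_empty_or_nonempty with h0 | ⟨θ0, hθ0⟩
    · rw [h0, measure_empty, mul_zero, mul_zero]
      exact zero_le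
    · have hθ0' : co (r • (θ0 : E3)) ∈ A := hθ0
      have hr1 : 1 ≤ r := by
        have h1 : 1 ≤ (co (r • (θ0 : E3))).1 ^ 2 + ‖(co (r • (θ0 : E3))).2‖ ^ 2 := hθ0'.1
        rw [← norm_co, hn θ0] at h1
        nlinarith
      have hrI : r ∈ I := by
        refine ⟨hr1, ?_⟩
        obtain ⟨h1, h2⟩ := hball _ hθ0'
        have h3 := hnear' (r • (θ0 : E3)) (em U) (by rw [co_em]; exact h1)
          (by rw [co_em]; exact h2)
        have h4 := abs_norm_sub_norm_le (r • (θ0 : E3)) (em U)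
        rw [hn θ0] at h4
        exact h4.trans h3
      rw [indicator_of_mem hrI]
      have hZv : (volume : Measure E3).toSphere Z ≤
          ENNReal.ofReal (((2 : ℕ) + 1) * 2 ^ (2 + 1) * (15 * δ / r) ^ 2) := by
        apply Pool.Agent.D0H26.WF.sphere_diam 2 hZm (by positivity)
        intro θ hθ θ' hθ'
        obtain ⟨h1, h2⟩ := hball _ hθ
        obtain ⟨h3, h4⟩ := hball _ hθ'
        have h5 : ‖r • (θ : E3) - r • (θ' : E3)‖ ≤ 15 * δ := by
          apply hnear
          · have e : (co (r • (θ : E3))).1 - (co (r • (θ' : E3))).1 =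
                ((co (r • (θ : E3))).1 - U.1) - ((co (r • (θ' : E3))).1 - U.1) := by ring
            rw [e]
            refine (abs_sub _ _).trans ?_
            linarith
          · have e : (co (r • (θ : E3))).2 - (co (r • (θ' : E3))).2 =
                ((co (r • (θ : E3))).2 - U.2) - ((co (r • (θ' : E3))).2 - U.2) := by ring
            rw [e]
            refine (norm_sub_le _ _).trans ?_
            linarith
        rw [← smul_sub, norm_smul, Real.norm_eq_abs, abs_of_pos hr0] at h5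
        rw [le_div_iff₀ hr0, mul_comm]
        exact h5
      have hinv : (√(r ^ 2 - 1))⁻¹ ≤ (√(r - 1))⁻¹ := by
        rcases hr1.lt_or_eq with h6 | h6
        · apply inv_anti₀ (Real.sqrt_pos.2 (by linarith))
          apply Real.sqrt_le_sqrt
          nlinarith
        · rw [← h6]
          norm_num
      calc ENNReal.ofReal (r ^ 2) * (ENNReal.ofReal (√(r ^ 2 - 1))⁻¹ *
            (volume : Measure E3).toSphere Z)
          ≤ ENNReal.ofReal (r ^ 2) * (ENNReal.ofReal (√(r - 1))⁻¹ *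
            ENNReal.ofReal (((2 : ℕ) + 1) * 2 ^ (2 + 1) * (15 * δ / r) ^ 2)) := by
            exact mul_le_mul' le_rfl (mul_le_mul' (ENNReal.ofReal_le_ofReal hinv) hZv)
        _ = _ := by
            rw [← ENNReal.ofReal_mul (by positivity), ← ENNReal.ofReal_mul (by positivity),
              ← ENNReal.ofReal_mul (by positivity)]
            congr 1
            push_cast
            field_simp
            ring
  have hIv : volume I ≤ ENNReal.ofReal (16 * δ) := by
    calc volume I ≤ volume (Metric.closedBall ρ0 (8 * δ)) := by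
          apply measure_mono
          intro r hr
          rw [Metric.mem_closedBall, Real.dist_eq]
          exact hr.2
      _ = _ := by
          rw [Real.volume_closedBall]
          congr 1
          ring
  have hI1 : I ⊆ Ici 1 := fun r hr => hr.1
  calc ∫⁻ r in Ioi (0 : ℝ), ENNReal.ofReal (r ^ 2) *
      ∫⁻ θ : Metric.sphere (0 : E3) 1, F (r • (θ : E3)) ∂((volume : Measure E3).toSphere)
      ≤ ∫⁻ r in Ioi (0 : ℝ), I.indicator
          (fun r => ENNReal.ofReal (5400 * δ ^ 2) * ENNReal.ofReal (√(r - 1))⁻¹) r :=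
        setLIntegral_mono' measurableSet_Ioi key
    _ ≤ ∫⁻ r, I.indicator
          (fun r => ENNReal.ofReal (5400 * δ ^ 2) * ENNReal.ofReal (√(r - 1))⁻¹) r :=
        setLIntegral_le_lintegral _ _
    _ = ENNReal.ofReal (5400 * δ ^ 2) * ∫⁻ r in I, ENNReal.ofReal (√(r - 1))⁻¹ := by
        rw [lintegral_indicator hIm, lintegral_const_mul' _ _ ENNReal.ofReal_ne_top]
    _ ≤ ENNReal.ofReal (5400 * δ ^ 2) * ENNReal.ofReal (3 * √(16 * δ)) := by
        gcongr
        exact sqrt_int (by positivity) hIm hI1 hIv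
    _ = _ := by
        rw [← ENNReal.ofReal_mul (by positivity)]
        congr 1
        have h16 : √(16 : ℝ) = 4 := by
          rw [show (16 : ℝ) = 4 ^ 2 by norm_num]
          exact Real.sqrt_sq (by norm_num)
        rw [Real.sqrt_mul (by norm_num), h16]
        ring

theorem ball_vol (U : ℝ × ℂ) {r : ℝ} (hr : 0 ≤ r) :
    volume (Metric.closedBall U r) = ENNReal.ofReal (2 * π * r ^ 3) := by
  have hpi := Real.pi_pos
  rw [← closedBall_prod_same, Measure.volume_eq_prod, Measure.prod_prod, Real.volume_closedBall,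
    Complex.volume_closedBall, ← ENNReal.ofReal_pow hr]
  have : (NNReal.pi : ℝ≥0∞) = ENNReal.ofReal π := by
    rw [← NNReal.coe_real_pi, ENNReal.ofReal_coe_nnreal]
  rw [this, ← ENNReal.ofReal_mul (by positivity), ← ENNReal.ofReal_mul (by positivity)]
  congr 1
  ring

/-- The kernel near a point. -/
theorem ker_bd (U : ℝ × ℂ) {δ : ℝ} (hδ : 0 < δ) :
    ∫⁻ Z in SS ∩ Metric.closedBall U (5 * δ), kt δ Z * Wt Z ≤ ENNReal.ofReal (66000 * δ ^ 3) := by
  have hpi := Real.pi_pos
  have hpi4 := Real.pi_lt_four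
  have hsδ : 0 < √δ := Real.sqrt_pos.2 hδ
  have h1 : ∀ Z : ℝ × ℂ, kt δ Z * Wt Z ≤ 1 + ENNReal.ofReal (√δ) * Wt Z := by
    intro Z
    unfold kt Wt
    set ρ : ℝ := √(Z.1 ^ 2 + ‖Z.2‖ ^ 2 - 1) with hρ
    have hρ0 : 0 ≤ ρ := Real.sqrt_nonneg _
    rw [ENNReal.ofReal_add hρ0 hsδ.le, add_mul]
    gcongr
    rw [← ENNReal.ofReal_mul hρ0]
    rw [ENNReal.ofReal_le_one]
    exact mul_inv_le_one
  calc ∫⁻ Z in SS ∩ Metric.closedBall U (5 * δ), kt δ Z * Wt Z
      ≤ ∫⁻ Z in SS ∩ Metric.closedBall U (5 * δ), (1 + ENNReal.ofReal (√δ) * Wt Z) :=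
        lintegral_mono h1
    _ = (∫⁻ Z in SS ∩ Metric.closedBall U (5 * δ), 1) + ENNReal.ofReal (√δ) *
        ∫⁻ Z in SS ∩ Metric.closedBall U (5 * δ), Wt Z := by
        rw [lintegral_add_left measurable_const, lintegral_const_mul' _ _ ENNReal.ofReal_ne_top]
    _ ≤ ENNReal.ofReal (2 * π * (5 * δ) ^ 3) + ENNReal.ofReal (√δ) *
        ENNReal.ofReal (64800 * δ ^ 2 * √δ) := by
        gcongr
        · rw [setLIntegral_one, ← ball_vol U (by positivity)]
          exact measure_mono inter_subset_right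
        · exact wt_bd U hδ
    _ ≤ _ := by
        rw [← ENNReal.ofReal_mul hsδ.le, ← ENNReal.ofReal_add (by positivity) (by positivity)]
        apply ENNReal.ofReal_le_ofReal
        have h2 : √δ * (64800 * δ ^ 2 * √δ) = 64800 * δ ^ 3 := by
          have : √δ * √δ = δ := Real.mul_self_sqrt hδ.le
          calc √δ * (64800 * δ ^ 2 * √δ) = 64800 * δ ^ 2 * (√δ * √δ) := by ring
            _ = _ := by rw [this]; ring
        rw [h2]
        have h3 : 0 < δ ^ 3 := by positivity
        nlinarith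

end Pool.Agent.D0H26.TS
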