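import Pool.Agent.D0H26.TS.Fej

set_option autoImplicit false

/-!
Tubes tangent to a sphere: the maximal estimate for the light rays through the points of a
spacelike plane.
-/

open MeasureTheory Set Complex Real ENNReal Filter

namespace Pool.Agent.D0H26.TS

open Pool.Agent.N249.LR (cx cy ec bdd_integrable Nice hat BB w trc trc_meas trc_mono trc_le
  trc_le_nat trc_iSup)

/-- Truncation. -/
noncomputable def tg (Γ : ℝ → ℂ → ℝ≥0∞) (N : ℕ) (r : ℝ) (y : ℂ) : ℝ≥0∞ :=
  (Ioc (0 : ℝ) N).indicator (fun r => trc Γ N r y) r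

/-- The truncated function as a complex function. -/
noncomputable def gN (Γ : ℝ → ℂ → ℝ≥0∞) (N : ℕ) (r : ℝ) (y : ℂ) : ℂ :=
  (((tg Γ N r y).toReal : ℝ) : ℂ)

variable {Γ : ℝ → ℂ → ℝ≥0∞}

theorem tg_meas (hΓ : Measurable (Function.uncurry Γ)) (N : ℕ) :
    Measurable (Function.uncurry (tg Γ N)) := by
  have e : Function.uncurry (tg Γ N) =
      ((fun q : ℝ × ℂ => q.1) ⁻¹' (Ioc (0 : ℝ) N)).indicator (Function.uncurry (trc Γ N)) := by
    funext q
    rfl
  rw [e]
  exact (trc_meas hΓ N).indicator (measurable_fst measurableSet_Ioc)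

theorem tg_le (Γ : ℝ → ℂ → ℝ≥0∞) (N : ℕ) (r : ℝ) (y : ℂ) : tg Γ N r y ≤ Γ r y := by
  unfold tg
  by_cases hr : r ∈ Ioc (0 : ℝ) N
  · rw [indicator_of_mem hr]
    exact trc_le Γ N r y
  · rw [indicator_of_notMem hr]
    exact zero_le

theorem tg_le_nat (Γ : ℝ → ℂ → ℝ≥0∞) (N : ℕ) (r : ℝ) (y : ℂ) : tg Γ N r y ≤ N := by
  unfold tg
  by_cases hr : r ∈ Ioc (0 : ℝ) N
  · rw [indicator_of_mem hr]
    exact trc_le_nat Γ N r y
  · rw [indicator_of_notMem hr]
    exact zero_le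

theorem tg_mono (Γ : ℝ → ℂ → ℝ≥0∞) (r : ℝ) (y : ℂ) : Monotone (fun N : ℕ => tg Γ N r y) := by
  intro M N hMN
  have hMN' : (M : ℝ) ≤ N := by exact_mod_cast hMN
  simp only [tg]
  by_cases hr : r ∈ Ioc (0 : ℝ) M
  · rw [indicator_of_mem hr, indicator_of_mem (show r ∈ Ioc (0 : ℝ) N from ⟨hr.1, hr.2.trans hMN'⟩)]
    exact trc_mono Γ r y hMN
  · rw [indicator_of_notMem hr]
    exact zero_le

theorem tg_iSup (Γ : ℝ → ℂ → ℝ≥0∞) (r : ℝ) (y : ℂ) :
    (Ioi (0 : ℝ)).indicator (fun r => Γ r y) r = ⨆ N : ℕ, tg Γ N r y := by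
  by_cases hr0 : r ∈ Ioi (0 : ℝ)
  swap
  · rw [indicator_of_notMem hr0]
    symm
    rw [ENNReal.iSup_eq_zero]
    intro N
    unfold tg
    rw [indicator_of_notMem]
    intro h
    exact hr0 h.1
  rw [indicator_of_mem hr0]
  apply le_antisymm
  · rw [trc_iSup Γ r y]
    apply iSup_le
    intro M
    obtain ⟨n, hn, hy⟩ : ∃ n : ℕ, M ≤ n ∧ r ≤ n := by
      refine ⟨max M ⌈r⌉₊, le_max_left _ _, (Nat.le_ceil _).trans ?_⟩
      exact_mod_cast le_max_right _ _
    refine le_trans ?_ (le_iSup (fun N : ℕ => tg Γ N r y) n)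
    simp only [tg]
    rw [indicator_of_mem (show r ∈ Ioc (0 : ℝ) n from ⟨hr0, hy⟩)]
    exact trc_mono Γ r y hn
  · exact iSup_le fun N => tg_le Γ N r y

theorem gN_nice (hΓ : Measurable (Function.uncurry Γ)) (N : ℕ) : Nice (gN Γ N) N N N := by
  refine ⟨?_, ?_, ?_, ?_, by positivity, by positivity, by positivity⟩
  · exact Complex.measurable_ofReal.comp (tg_meas hΓ N).ennreal_toReal
  · intro r y
    unfold gN
    rw [Complex.norm_real, Real.norm_of_nonneg ENNReal.toReal_nonneg]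
    have := ENNReal.toReal_mono (ENNReal.natCast_ne_top N) (tg_le_nat Γ N r y)
    simpa using this
  · intro r y h
    have : tg Γ N r y = 0 := by
      unfold tg
      rw [indicator_of_notMem]
      intro hc
      rw [abs_of_pos hc.1] at h
      exact absurd h (not_lt.2 hc.2)
    unfold gN
    simp [this]
  · intro r y h
    have : tg Γ N r y = 0 := by
      unfold tg
      by_cases hr : r ∈ Ioc (0 : ℝ) N
      · rw [indicator_of_mem hr]
        unfold trc
        rw [indicator_of_notMem]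
        exact not_le.2 h
      · rw [indicator_of_notMem hr]
    unfold gN
    simp [this]

theorem gN_zero (Γ : ℝ → ℂ → ℝ≥0∞) (N : ℕ) (r : ℝ) (y : ℂ) (hr : r ≤ 0) : gN Γ N r y = 0 := by
  unfold gN tg
  rw [indicator_of_notMem]
  · simp
  · intro h
    exact absurd h.1 (not_lt.2 hr)

theorem gN_enorm (Γ : ℝ → ℂ → ℝ≥0∞) (N : ℕ) (r : ℝ) (y : ℂ) : ‖gN Γ N r y‖ₑ = tg Γ N r y := by
  unfold gN
  rw [← ofReal_norm, Complex.norm_real, Real.norm_of_nonneg ENNReal.toReal_nonneg,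
    ENNReal.ofReal_toReal ((tg_le_nat Γ N r y).trans_lt (ENNReal.natCast_lt_top N)).ne]

theorem ray_meas (hΓ : Measurable (Function.uncurry Γ)) :
    Measurable (fun q : (ℂ × ℝ) × ℝ => Γ q.2 (q.1.1 + q.2 * w q.1.2)) := by
  have hw := w_meas
  exact hΓ.comp (g := Function.uncurry Γ)
    (f := fun q : (ℂ × ℝ) × ℝ => (q.2, q.1.1 + q.2 * w q.1.2)) (by fun_prop)

/-- The average along the light rays of the truncated function. -/
theorem AA_gN (hΓ : Measurable (Function.uncurry Γ)) (N : ℕ) (y : ℂ) (φ : ℝ) :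
    AA (gN Γ N) y φ = (((∫⁻ r, tg Γ N r (y + r * w φ)).toReal : ℝ) : ℂ) := by
  unfold AA gN
  rw [integral_complex_ofReal]
  congr 1
  rw [integral_toReal]
  · have := (ray_meas (tg_meas hΓ N)).comp (f := fun r : ℝ => ((y, φ), r)) (by fun_prop)
    exact this.aemeasurable
  · filter_upwards with r
    exact (tg_le_nat Γ N r _).trans_lt (ENNReal.natCast_lt_top N)

theorem ray_lt_top (hΓ : Measurable (Function.uncurry Γ)) (N : ℕ) (y : ℂ) (φ : ℝ) :
    ∫⁻ r, tg Γ N r (y + r * w φ) < ∞ := by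
  have := (n_pt_int (gN_nice hΓ N) y φ).2
  rw [hasFiniteIntegral_def] at this
  simp only [gN_enorm] at this
  exact this

/-- The majorant for the truncated function. -/
noncomputable def MN (Γ : ℝ → ℂ → ℝ≥0∞) (K N : ℕ) (y : ℂ) : ℝ≥0∞ :=
  2 * ‖Ak (gN Γ N) 0 y‖ₑ ^ 2 + ENNReal.ofReal (8 * (1 + Real.log K)) *
    ∑ n ∈ Finset.range K, ((n : ℝ≥0∞) + 1) * ‖Ak (gN Γ N) (n + 1) y‖ₑ ^ 2

/-- The majorant. -/
noncomputable def MM (Γ : ℝ → ℂ → ℝ≥0∞) (K : ℕ) (y : ℂ) : ℝ≥0∞ :=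
  liminf (fun N => MN Γ K N y) atTop

theorem MN_meas (hΓ : Measurable (Function.uncurry Γ)) (K N : ℕ) : Measurable (MN Γ K N) := by
  have h : ∀ k, Measurable (Ak (gN Γ N) k) := fun k => n_Ak_meas (gN_nice hΓ N) k
  have h2 : Measurable (fun y => ∑ n ∈ Finset.range K,
      ((n : ℝ≥0∞) + 1) * ‖Ak (gN Γ N) (n + 1) y‖ₑ ^ 2) := by
    apply Finset.measurable_sum
    intro n _
    exact ((h _).enorm.pow_const _).const_mul _
  have h1 : Measurable (fun y => 2 * ‖Ak (gN Γ N) 0 y‖ₑ ^ 2) :=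
    ((h 0).enorm.pow_const _).const_mul _
  exact h1.add (h2.const_mul _)

theorem MM_meas (hΓ : Measurable (Function.uncurry Γ)) (K : ℕ) : Measurable (MM Γ K) :=
  Measurable.liminf fun N => MN_meas hΓ K N

/-- The pointwise bound for the truncated function. -/
theorem MN_le (hΓ : Measurable (Function.uncurry Γ)) {K : ℕ} (hK : 0 < K) (N : ℕ) (y : ℂ) (φ : ℝ) :
    (∫⁻ φ' in Ioc (-π) π, ENNReal.ofReal (kap K (φ - φ')) *
      ∫⁻ r, tg Γ N r (y + r * w φ')) ^ 2 ≤ MN Γ K N y := by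
  have hn := gN_nice hΓ N
  set a : ℝ → ℝ := fun φ' => (∫⁻ r, tg Γ N r (y + r * w φ')).toReal with ha
  have hAA : AA (gN Γ N) y = fun φ' => ((a φ' : ℝ) : ℂ) := by
    funext φ'
    exact AA_gN hΓ N y φ'
  have ham : Measurable a := by
    have h1 := (ray_meas (tg_meas hΓ N)).lintegral_prod_right' (ν := (volume : Measure ℝ))
    have h2 := h1.comp (f := fun φ' : ℝ => (y, φ')) (by fun_prop)
    exact h2.ennreal_toReal
  have hab : ∀ x, |a x| ≤ N * (2 * N) := by
    intro x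
    have := n_AA_bd hn y x
    rw [hAA] at this
    simpa using this
  have h1 := kap_conv hK ham hab φ
  rw [← hAA] at h1
  have hlog : 0 ≤ Real.log K := Real.log_natCast_nonneg K
  have hint : Integrable (fun φ' => kap K (φ - φ') * a φ') (volume.restrict (Ioc (-π) π)) := by
    have hc : Continuous (fun φ' => kap K (φ - φ')) := (kap_cont K).comp (by fun_prop)
    apply Integrable.mul_bdd (c := N * (2 * N)) hc.integrableOn_Ioc ham.aestronglyMeasurable
    filter_upwards with x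
    exact hab x
  have h2 : ∫⁻ φ' in Ioc (-π) π, ENNReal.ofReal (kap K (φ - φ')) *
      ∫⁻ r, tg Γ N r (y + r * w φ') =
      ENNReal.ofReal (∫ φ' in Ioc (-π) π, kap K (φ - φ') * a φ') := by
    rw [ofReal_integral_eq_lintegral_ofReal hint]
    · apply lintegral_congr
      intro φ'
      rw [ENNReal.ofReal_mul (kap_nonneg K _), ha, ENNReal.ofReal_toReal (ray_lt_top hΓ N y φ').ne]
    · filter_upwards with x
      exact mul_nonneg (kap_nonneg K _) ENNReal.toReal_nonneg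
  set b0 : ℝ := ‖cf 0 (AA (gN Γ N) y)‖ with hb0
  set b : ℕ → ℝ := fun n => ‖cf (n + 1) (AA (gN Γ N) y)‖ with hb
  have h3 := harm_cs K b
  have h4 : (∫ φ' in Ioc (-π) π, kap K (φ - φ') * a φ') ^ 2 ≤
      2 * b0 ^ 2 + 8 * (1 + Real.log K) * ∑ n ∈ Finset.range K, ((n : ℝ) + 1) * b n ^ 2 := by
    have h5 : |∫ φ' in Ioc (-π) π, kap K (φ - φ') * a φ'| ^ 2 ≤
        (b0 + 2 * ∑ n ∈ Finset.range K, b n) ^ 2 := pow_le_pow_left₀ (abs_nonneg _) h1 2
    rw [sq_abs] at h5
    nlinarith [sq_nonneg (b0 - 2 * ∑ n ∈ Finset.range K, b n)]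
  have hb2 : ∀ n : ℕ, 0 ≤ ((n : ℝ) + 1) * b n ^ 2 := fun n => by positivity
  have hS : 0 ≤ ∑ n ∈ Finset.range K, ((n : ℝ) + 1) * b n ^ 2 := Finset.sum_nonneg fun n _ => hb2 n
  have hS2 : ENNReal.ofReal (∑ n ∈ Finset.range K, ((n : ℝ) + 1) * b n ^ 2) =
      ∑ n ∈ Finset.range K, ((n : ℝ≥0∞) + 1) * ‖Ak (gN Γ N) (n + 1) y‖ₑ ^ 2 := by
    rw [ENNReal.ofReal_sum_of_nonneg (fun n _ => hb2 n)]
    apply Finset.sum_congr rfl
    intro n _
    rw [ENNReal.ofReal_mul (by positivity), hb, ENNReal.ofReal_pow (norm_nonneg _), ofReal_norm,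
      ENNReal.ofReal_add (by positivity) zero_le_one, ENNReal.ofReal_natCast,
      ENNReal.ofReal_one]
    rfl
  have hb0' : ENNReal.ofReal (2 * b0 ^ 2) = 2 * ‖Ak (gN Γ N) 0 y‖ₑ ^ 2 := by
    rw [ENNReal.ofReal_mul (by norm_num), hb0, ENNReal.ofReal_pow (norm_nonneg _), ofReal_norm]
    congr 1
    norm_num
  have hI0 : 0 ≤ ∫ φ' in Ioc (-π) π, kap K (φ - φ') * a φ' := by
    apply integral_nonneg
    intro x
    exact mul_nonneg (kap_nonneg K _) ENNReal.toReal_nonneg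
  have hL8 : 0 ≤ 8 * (1 + Real.log K) := by positivity
  rw [h2, ← ENNReal.ofReal_pow hI0]
  refine (ENNReal.ofReal_le_ofReal h4).trans (le_of_eq ?_)
  unfold MN
  rw [ENNReal.ofReal_add (by positivity) (mul_nonneg hL8 hS), hb0', ENNReal.ofReal_mul hL8, hS2]

/-- **The pointwise bound.** -/
theorem MM_le (hΓ : Measurable (Function.uncurry Γ)) {K : ℕ} (hK : 0 < K) (y : ℂ) (φ : ℝ) :
    (∫⁻ φ' in Ioc (-π) π, ENNReal.ofReal (kap K (φ - φ')) *
      ∫⁻ r in Ioi (0 : ℝ), Γ r (y + r * w φ')) ^ 2 ≤ MM Γ K y := by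
  set L : ℕ → ℝ≥0∞ := fun N => ∫⁻ φ' in Ioc (-π) π, ENNReal.ofReal (kap K (φ - φ')) *
      ∫⁻ r, tg Γ N r (y + r * w φ') with hL
  have hmono : Monotone L := by
    intro M N hMN
    simp only [hL]
    gcongr with φ' r
    exact tg_mono Γ _ _ hMN
  have hrm : ∀ N, Measurable (fun φ' : ℝ => ∫⁻ r, tg Γ N r (y + r * w φ')) := by
    intro N
    have h1 := (ray_meas (tg_meas hΓ N)).lintegral_prod_right' (ν := (volume : Measure ℝ))
    exact h1.comp (f := fun φ' : ℝ => (y, φ')) (by fun_prop)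
  have hsup : ∫⁻ φ' in Ioc (-π) π, ENNReal.ofReal (kap K (φ - φ')) *
      ∫⁻ r in Ioi (0 : ℝ), Γ r (y + r * w φ') = ⨆ N, L N := by
    have e1 : ∀ φ' : ℝ, ∫⁻ r in Ioi (0 : ℝ), Γ r (y + r * w φ') =
        ⨆ N : ℕ, ∫⁻ r, tg Γ N r (y + r * w φ') := by
      intro φ'
      rw [← lintegral_iSup]
      · rw [← lintegral_indicator measurableSet_Ioi]
        apply lintegral_congr
        intro r
        rw [← tg_iSup Γ r (y + r * w φ')]
        by_cases hr : r ∈ Ioi (0 : ℝ)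
        · rw [indicator_of_mem hr, indicator_of_mem hr]
        · rw [indicator_of_notMem hr, indicator_of_notMem hr]
      · intro N
        exact (ray_meas (tg_meas hΓ N)).comp (f := fun r : ℝ => ((y, φ'), r)) (by fun_prop)
      · intro M N hMN r
        exact tg_mono Γ _ _ hMN
    simp only [e1, hL]
    rw [← lintegral_iSup]
    · apply lintegral_congr
      intro φ'
      rw [ENNReal.mul_iSup]
    · intro N
      apply Measurable.mul _ (hrm N)
      exact ((kap_cont K).measurable.comp (by fun_prop)).ennreal_ofReal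
    · intro M N hMN φ'
      apply mul_le_mul_right
      apply lintegral_mono
      intro r
      exact tg_mono Γ _ _ hMN
  rw [hsup, ENNReal.iSup_pow]
  apply iSup_le
  intro M
  unfold MM
  apply le_liminf_of_le (by isBoundedDefault)
  filter_upwards [eventually_ge_atTop M] with N hN
  exact (pow_le_pow_left' (hmono hN) 2).trans (MN_le hΓ hK N y φ)

/-- **The maximal estimate for the light rays through the points of a spacelike plane.** -/
theorem MM_int (hΓ : Measurable (Function.uncurry Γ)) (K : ℕ) {B : Set ℂ} :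
    ∫⁻ y in B, MM Γ K y ≤
      2 * (∫⁻ y in B, (∫⁻ φ in Ioc (-π) π, ∫⁻ r in Ioi (0 : ℝ), Γ r (y + r * w φ)) ^ 2) +
      ENNReal.ofReal (8 * (2 * π) ^ 2 * (1 + Real.log K)) *
        ∫⁻ t in Ioi (0 : ℝ), ENNReal.ofReal t * ∫⁻ y, Γ t y ^ 2 := by
  have hlog : 0 ≤ Real.log K := Real.log_natCast_nonneg K
  unfold MM
  refine (lintegral_liminf_le fun N => MN_meas hΓ K N).trans ?_
  apply liminf_le_of_le (by isBoundedDefault)
  intro b hb
  obtain ⟨N, hN⟩ := hb.exists
  refine hN.trans ?_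
  have hn := gN_nice hΓ N
  have hm : ∀ k, Measurable (Ak (gN Γ N) k) := fun k => n_Ak_meas hn k
  unfold MN
  rw [lintegral_add_left (((hm 0).enorm.pow_const _).const_mul _),
    lintegral_const_mul' _ _ (by norm_num), lintegral_const_mul' _ _ ENNReal.ofReal_ne_top]
  apply add_le_add
  · gcongr with y
    unfold Ak
    rw [cf_eq]
    refine (enorm_integral_le_lintegral_enorm _).trans ?_
    apply lintegral_mono
    intro φ
    simp only
    rw [enorm_mul]
    have : ‖cexp (-(((0 : ℤ) : ℂ) * φ * I))‖ₑ = 1 := by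
      rw [← ofReal_norm, norm_exp, ENNReal.ofReal_one]
    rw [this, one_mul]
    unfold AA
    refine (enorm_integral_le_lintegral_enorm _).trans ?_
    simp only [gN_enorm]
    rw [← lintegral_indicator measurableSet_Ioi]
    apply lintegral_mono
    intro r
    simp only
    by_cases hr : r ∈ Ioi (0 : ℝ)
    · rw [indicator_of_mem hr]
      exact tg_le Γ N _ _
    · rw [indicator_of_notMem hr]
      unfold tg
      rw [indicator_of_notMem]
      intro h
      exact hr h.1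
  · have e8 : 8 * (2 * π) ^ 2 * (1 + Real.log K) = 8 * (1 + Real.log K) * (2 * π) ^ 2 := by ring
    have e9 : ENNReal.ofReal (8 * (1 + Real.log K) * (2 * π) ^ 2) =
        ENNReal.ofReal (8 * (1 + Real.log K)) * ENNReal.ofReal ((2 * π) ^ 2) :=
      ENNReal.ofReal_mul (by positivity)
    rw [e8, e9, mul_assoc]
    apply mul_le_mul_right
    rw [lintegral_finsetSum]
    swap
    · intro n _
      exact ((hm _).enorm.pow_const _).const_mul _
    calc ∑ n ∈ Finset.range K, ∫⁻ y in B, ((n : ℝ≥0∞) + 1) * ‖Ak (gN Γ N) (n + 1) y‖ₑ ^ 2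
        ≤ ∑ n ∈ Finset.range K, ((n : ℝ≥0∞) + 1) * ∫⁻ y, ‖Ak (gN Γ N) (n + 1) y‖ₑ ^ 2 := by
          apply Finset.sum_le_sum
          intro n _
          rw [← lintegral_const_mul _ ((hm _).enorm.pow_const _)]
          exact setLIntegral_le_lintegral _ _
      _ ≤ _ := n_energy hn (gN_zero Γ N) K
      _ ≤ _ := by
          gcongr with t y
          rw [gN_enorm]
          exact tg_le Γ N _ _

end Pool.Agent.D0H26.TS
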