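import Pool.Agent.D0H26.TS.Nik

set_option autoImplicit false

/-!
Tubes tangent to a sphere: the lines tangent to the unit sphere as light rays.
-/

open MeasureTheory Set Complex Real ENNReal Filter

namespace Pool.Agent.D0H26.TS

open Pool.Agent.N249.LR (cx cy w norm_w)

/-- The point with the parameter `s` of the tangent line `(y, φ)`. -/
noncomputable def ell (y : ℂ) (φ s : ℝ) : ℝ × ℂ :=
  (s * ((1 - ‖y‖ ^ 2) / 2) - cx y φ, w φ + s * y)

/-- The map from the space of the light rays. -/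
noncomputable def Ps (t : ℝ) (x : ℂ) : ℝ × ℂ :=
  ((1 - ‖x‖ ^ 2 + t ^ 2) / (2 * t), (t⁻¹ : ℝ) * x)

/-- The density. -/
noncomputable def Wt (X : ℝ × ℂ) : ℝ≥0∞ := ENNReal.ofReal (√(X.1 ^ 2 + ‖X.2‖ ^ 2 - 1))⁻¹

theorem Wt_meas : Measurable Wt := by
  unfold Wt
  fun_prop

theorem norm_add_w (y : ℂ) (t φ : ℝ) :
    ‖y + t * w φ‖ ^ 2 = ‖y‖ ^ 2 + 2 * t * cx y φ + t ^ 2 := by
  have : (t : ℂ) * w φ = (t : ℝ) • w φ := by rw [Complex.real_smul]
  rw [this, norm_add_sq_real, real_inner_smul_right, real_inner_comm, inner_w, norm_smul, norm_w,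
    mul_one, Real.norm_eq_abs, sq_abs]
  ring

/-- Light rays are mapped to tangent lines. -/
theorem Ps_ray {t : ℝ} (ht : t ≠ 0) (y : ℂ) (φ : ℝ) : Ps t (y + t * w φ) = ell y φ t⁻¹ := by
  unfold Ps ell
  rw [norm_add_w]
  have ht' : (t : ℂ) ≠ 0 := by exact_mod_cast ht
  apply Prod.ext
  · simp only
    field_simp
    ring
  · simp only
    push_cast
    field_simp
    ring

theorem Ps_meas : Measurable (fun q : ℝ × ℂ => Ps q.1 q.2) := by
  unfold Ps
  fun_prop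

/-- The function on the space of the light rays. -/
noncomputable def Gam (g : ℝ × ℂ → ℝ≥0∞) (t : ℝ) (x : ℂ) : ℝ≥0∞ :=
  ENNReal.ofReal (t⁻¹ ^ 2) * g (Ps t x)

theorem Gam_meas {g : ℝ × ℂ → ℝ≥0∞} (hg : Measurable g) :
    Measurable (Function.uncurry (Gam g)) := by
  have h := hg.comp Ps_meas
  have e : Function.uncurry (Gam g) = fun q : ℝ × ℂ => ENNReal.ofReal (q.1⁻¹ ^ 2) *
      (g ∘ fun q : ℝ × ℂ => Ps q.1 q.2) q := by
    funext q
    rfl
  rw [e]
  exact Measurable.mul (by fun_prop) h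

/-- Inversion. -/
theorem inv_int (F : ℝ → ℝ≥0∞) :
    ∫⁻ t in Ioi (0 : ℝ), ENNReal.ofReal (t⁻¹ ^ 2) * F t⁻¹ = ∫⁻ s in Ioi (0 : ℝ), F s := by
  have h1 := lintegral_image_eq_lintegral_abs_deriv_mul (s := Ioi (0 : ℝ)) measurableSet_Ioi
    (f := fun t => t⁻¹) (f' := fun t => -(t ^ 2)⁻¹)
    (fun t ht => (hasDerivAt_inv (ne_of_gt ht)).hasDerivWithinAt)
    (fun a _ b _ hab => inv_injective hab) F
  have h2 : (fun t : ℝ => t⁻¹) '' Ioi 0 = Ioi 0 := by
    ext x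
    constructor
    · rintro ⟨t, ht, rfl⟩
      have ht' : 0 < t := ht
      exact mem_Ioi.2 (inv_pos.2 ht')
    · intro hx
      have hx' : 0 < x := hx
      exact ⟨x⁻¹, mem_Ioi.2 (inv_pos.2 hx'), inv_inv x⟩
  rw [h2] at h1
  rw [h1]
  apply lintegral_congr
  intro t
  rw [abs_neg, abs_of_nonneg (by positivity), inv_pow]

/-- The integral over a half of a tangent line. -/
theorem Gam_ray (g : ℝ × ℂ → ℝ≥0∞) (y : ℂ) (φ : ℝ) :
    ∫⁻ t in Ioi (0 : ℝ), Gam g t (y + t * w φ) = ∫⁻ s in Ioi (0 : ℝ), g (ell y φ s) := by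
  rw [← inv_int (fun s => g (ell y φ s))]
  apply setLIntegral_congr_fun measurableSet_Ioi
  intro t ht
  simp only
  unfold Gam
  rw [Ps_ray (ne_of_gt ht)]

/-- The change of variables on one line. -/
theorem one_var (c : ℝ) (F : ℝ → ℝ≥0∞) :
    ∫⁻ t in Ioi (0 : ℝ), ENNReal.ofReal t⁻¹ * F ((t⁻¹ + c * t) / 2) ≤
      2 * ∫⁻ x, F x * ENNReal.ofReal (√(x ^ 2 - c))⁻¹ := by
  set S1 : Set ℝ := Ioi 0 ∩ {t | c * t < t⁻¹} with hS1
  set S2 : Set ℝ := Ioi 0 ∩ {t | t⁻¹ < c * t} with hS2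
  have hS1m : MeasurableSet S1 :=
    measurableSet_Ioi.inter (measurableSet_lt (by fun_prop) (by fun_prop))
  have hS2m : MeasurableSet S2 :=
    measurableSet_Ioi.inter (measurableSet_lt (by fun_prop) (by fun_prop))
  have hnull : volume {t : ℝ | c * t ^ 2 = 1} = 0 := by
    apply Set.Finite.measure_zero
    apply Set.Finite.subset (s := {t : ℝ | t ^ 2 = c⁻¹})
    · apply Set.Finite.subset (s := ({√c⁻¹, -√c⁻¹} : Set ℝ)) (by simp)
      intro t ht
      have ht' : t ^ 2 = c⁻¹ := ht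
      have : |t| = √c⁻¹ := by rw [← ht', Real.sqrt_sq_eq_abs]
      rcases abs_choice t with h | h
      · left
        rw [← this, h]
      · right
        rw [mem_singleton_iff, ← this, h, neg_neg]
    · intro t ht
      have ht' : c * t ^ 2 = 1 := ht
      exact eq_inv_of_mul_eq_one_right ht'
  have hsub : Ioi (0 : ℝ) ⊆ (S1 ∪ S2) ∪ {t : ℝ | c * t ^ 2 = 1} := by
    intro t ht
    have ht0 : 0 < t := ht
    rcases lt_trichotomy (c * t) t⁻¹ with h | h | h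
    · exact Or.inl (Or.inl ⟨ht, h⟩)
    · right
      show c * t ^ 2 = 1
      have : c * t * t = 1 := by rw [h, inv_mul_cancel₀ ht0.ne']
      nlinarith
    · exact Or.inl (Or.inr ⟨ht, h⟩)
  have hder : ∀ t : ℝ, 0 < t → HasDerivAt (fun t : ℝ => (t⁻¹ + c * t) / 2)
      ((-(t ^ 2)⁻¹ + c) / 2) t := by
    intro t ht
    have h1 := (hasDerivAt_inv ht.ne').add ((hasDerivAt_id t).const_mul c)
    have h2 := h1.div_const 2
    simpa using h2
  have hrho : ∀ t : ℝ, 0 < t → ((t⁻¹ + c * t) / 2) ^ 2 - c = ((t⁻¹ - c * t) / 2) ^ 2 := by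
    intro t ht
    field_simp
    ring
  have piece : ∀ S : Set ℝ, MeasurableSet S → (∀ t ∈ S, 0 < t ∧ t⁻¹ - c * t ≠ 0) →
      InjOn (fun t : ℝ => (t⁻¹ + c * t) / 2) S →
      ∫⁻ t in S, ENNReal.ofReal t⁻¹ * F ((t⁻¹ + c * t) / 2) ≤
        ∫⁻ x, F x * ENNReal.ofReal (√(x ^ 2 - c))⁻¹ := by
    intro S hS hS0 hinj
    have h1 := lintegral_image_eq_lintegral_abs_deriv_mul hS
      (f := fun t => (t⁻¹ + c * t) / 2) (f' := fun t => (-(t ^ 2)⁻¹ + c) / 2)
      (fun t ht => (hder t (hS0 t ht).1).hasDerivWithinAt) hinj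
      (fun x => F x * ENNReal.ofReal (√(x ^ 2 - c))⁻¹)
    calc ∫⁻ t in S, ENNReal.ofReal t⁻¹ * F ((t⁻¹ + c * t) / 2)
        = ∫⁻ t in S, ENNReal.ofReal |(-(t ^ 2)⁻¹ + c) / 2| * (F ((t⁻¹ + c * t) / 2) *
            ENNReal.ofReal (√(((t⁻¹ + c * t) / 2) ^ 2 - c))⁻¹) := by
          apply setLIntegral_congr_fun hS
          intro t ht
          obtain ⟨ht0, hne⟩ := hS0 t ht
          simp only
          rw [hrho t ht0, Real.sqrt_sq_eq_abs, mul_left_comm, ← ENNReal.ofReal_mul (abs_nonneg _),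
            mul_comm (F _)]
          congr 2
          have e1 : (-(t ^ 2)⁻¹ + c) / 2 = -(t⁻¹ * ((t⁻¹ - c * t) / 2)) := by
            field_simp
            ring
          have hne2 : |(t⁻¹ - c * t) / 2| ≠ 0 := by
            rw [Ne, abs_eq_zero]
            exact div_ne_zero hne (by norm_num)
          rw [e1, abs_neg, abs_mul, abs_of_pos (inv_pos.2 ht0), mul_assoc,
            mul_inv_cancel₀ hne2, mul_one]
      _ = ∫⁻ x in (fun t : ℝ => (t⁻¹ + c * t) / 2) '' S, F x *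
            ENNReal.ofReal (√(x ^ 2 - c))⁻¹ := h1.symm
      _ ≤ _ := setLIntegral_le_lintegral _ _
  have hp1 : ∫⁻ t in S1, ENNReal.ofReal t⁻¹ * F ((t⁻¹ + c * t) / 2) ≤
        ∫⁻ x, F x * ENNReal.ofReal (√(x ^ 2 - c))⁻¹ := by
    apply piece S1 hS1m
    · rintro t ⟨ht, h⟩
      exact ⟨ht, by have : c * t < t⁻¹ := h; linarith⟩
    · rintro a ⟨ha, ha'⟩ b ⟨hb, hb'⟩ hab
      have ha1 : c * a < a⁻¹ := ha'
      have hb1 : c * b < b⁻¹ := hb'
      have ha0 : 0 < a := ha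
      have hb0 : 0 < b := hb
      have hab' : (a⁻¹ + c * a) / 2 = (b⁻¹ + c * b) / 2 := hab
      have h2 : ((a⁻¹ - c * a) / 2) ^ 2 = ((b⁻¹ - c * b) / 2) ^ 2 := by
        rw [← hrho a ha0, ← hrho b hb0, hab']
      have h3 : (a⁻¹ - c * a) / 2 = (b⁻¹ - c * b) / 2 := by
        have := abs_eq_abs.2 (sq_eq_sq_iff_eq_or_eq_neg.1 h2)
        rwa [abs_of_pos (by linarith), abs_of_pos (by linarith)] at this
      have : a⁻¹ = b⁻¹ := by linarith
      exact inv_injective this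
  have hp2 : ∫⁻ t in S2, ENNReal.ofReal t⁻¹ * F ((t⁻¹ + c * t) / 2) ≤
        ∫⁻ x, F x * ENNReal.ofReal (√(x ^ 2 - c))⁻¹ := by
    apply piece S2 hS2m
    · rintro t ⟨ht, h⟩
      exact ⟨ht, by have : t⁻¹ < c * t := h; linarith⟩
    · rintro a ⟨ha, ha'⟩ b ⟨hb, hb'⟩ hab
      have ha1 : a⁻¹ < c * a := ha'
      have hb1 : b⁻¹ < c * b := hb'
      have ha0 : 0 < a := ha
      have hb0 : 0 < b := hb
      have hab' : (a⁻¹ + c * a) / 2 = (b⁻¹ + c * b) / 2 := hab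
      have h2 : ((a⁻¹ - c * a) / 2) ^ 2 = ((b⁻¹ - c * b) / 2) ^ 2 := by
        rw [← hrho a ha0, ← hrho b hb0, hab']
      have h3 : (a⁻¹ - c * a) / 2 = (b⁻¹ - c * b) / 2 := by
        have := abs_eq_abs.2 (sq_eq_sq_iff_eq_or_eq_neg.1 h2)
        rw [abs_of_neg (by linarith), abs_of_neg (by linarith)] at this
        linarith
      have : a⁻¹ = b⁻¹ := by linarith
      exact inv_injective this
  calc ∫⁻ t in Ioi (0 : ℝ), ENNReal.ofReal t⁻¹ * F ((t⁻¹ + c * t) / 2)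
      ≤ ∫⁻ t in (S1 ∪ S2) ∪ {t : ℝ | c * t ^ 2 = 1}, ENNReal.ofReal t⁻¹ *
          F ((t⁻¹ + c * t) / 2) := lintegral_mono_set hsub
    _ ≤ ((∫⁻ t in S1, ENNReal.ofReal t⁻¹ * F ((t⁻¹ + c * t) / 2)) +
          ∫⁻ t in S2, ENNReal.ofReal t⁻¹ * F ((t⁻¹ + c * t) / 2)) +
          ∫⁻ t in {t : ℝ | c * t ^ 2 = 1}, ENNReal.ofReal t⁻¹ * F ((t⁻¹ + c * t) / 2) :=
        (lintegral_union_le _ _ _).trans (add_le_add_left (lintegral_union_le _ _ _) _)
    _ ≤ ((∫⁻ x, F x * ENNReal.ofReal (√(x ^ 2 - c))⁻¹) +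
          ∫⁻ x, F x * ENNReal.ofReal (√(x ^ 2 - c))⁻¹) + 0 := by
        have h0 : ∫⁻ t in {t : ℝ | c * t ^ 2 = 1}, ENNReal.ofReal t⁻¹ *
            F ((t⁻¹ + c * t) / 2) = 0 := setLIntegral_measure_zero _ _ hnull
        rw [h0]
        exact add_le_add_left (add_le_add hp1 hp2) _
    _ = _ := by rw [add_zero, two_mul]

/-- **The change of variables.** -/
theorem Ps_int {g : ℝ × ℂ → ℝ≥0∞} (hg : Measurable g) :
    ∫⁻ t in Ioi (0 : ℝ), ENNReal.ofReal (t⁻¹ ^ 3) * ∫⁻ x, g (Ps t x) ≤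
      2 * ∫⁻ X, g X * Wt X := by
  have h1 : ∀ t ∈ Ioi (0 : ℝ), ENNReal.ofReal (t⁻¹ ^ 3) * ∫⁻ x, g (Ps t x) =
      ∫⁻ z : ℂ, ENNReal.ofReal t⁻¹ * g ((t⁻¹ + (1 - ‖z‖ ^ 2) * t) / 2, z) := by
    intro t ht
    have ht0 : 0 < t := ht
    have hm : Measurable (fun z : ℂ => g ((t⁻¹ + (1 - ‖z‖ ^ 2) * t) / 2, z)) :=
      hg.comp (by fun_prop)
    have h3 := lintegral_map (μ := (volume : Measure ℂ)) hm
      (measurable_const_smul (t⁻¹ : ℝ) (α := ℂ))
    have h4 : ∀ x : ℂ, g ((t⁻¹ + (1 - ‖t⁻¹ • x‖ ^ 2) * t) / 2, t⁻¹ • x) = g (Ps t x) := by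
      intro x
      congr 1
      unfold Ps
      apply Prod.ext
      · simp only
        rw [norm_smul, Real.norm_eq_abs, abs_of_pos (inv_pos.2 ht0)]
        field_simp
        ring
      · simp only
        rw [Complex.real_smul]
    simp only [h4] at h3
    rw [Measure.map_addHaar_smul volume (inv_pos.2 ht0).ne', lintegral_smul_measure,
      smul_eq_mul, Complex.finrank_real_complex] at h3
    rw [← h3, ← mul_assoc, ← ENNReal.ofReal_mul (by positivity), lintegral_const_mul _ hm]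
    congr 2
    rw [abs_of_pos (by positivity)]
    field_simp
  rw [setLIntegral_congr_fun measurableSet_Ioi h1, lintegral_lintegral_swap]
  · have h2 : ∫⁻ X, g X * Wt X = ∫⁻ z : ℂ, ∫⁻ x : ℝ, g (x, z) * Wt (x, z) := by
      have hm : AEMeasurable (fun X : ℝ × ℂ => g X * Wt X)
          ((volume : Measure ℝ).prod (volume : Measure ℂ)) := (hg.mul Wt_meas).aemeasurable
      rw [Measure.volume_eq_prod, lintegral_prod_symm _ hm]
    rw [h2, ← lintegral_const_mul']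
    swap
    · norm_num
    apply lintegral_mono
    intro z
    have h5 := one_var (1 - ‖z‖ ^ 2) (fun x => g (x, z))
    refine h5.trans (le_of_eq ?_)
    congr 1
    apply lintegral_congr
    intro x
    unfold Wt
    simp only
    congr 4
    ring
  · apply Measurable.aemeasurable
    apply Measurable.mul
    · fun_prop
    · exact hg.comp (by fun_prop)

end Pool.Agent.D0H26.TS
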