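import Pool.Agent.D0H26.TS.Tele
import Pool.Agent.N249.LR.Ray
import Pool.Agent.H153R4.Pl

set_option autoImplicit false

/-!
Tubes tangent to a sphere: the energy of the Fourier coefficients on the circle is bounded by a
two-dimensional Plancherel formula for radial functions.
-/

open MeasureTheory Set Complex Real ENNReal FourierTransform

namespace Pool.Agent.D0H26.TS

open Pool.Agent.N249.LR (cx cy ec ec_smul ec_cont ec_norm ec_add bdd_integrable)

/-- Bounded functions on a bounded interval of positive numbers. -/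
structure Rd (h : ℝ → ℂ) (C R : ℝ) : Prop where
  meas : Measurable h
  bd : ∀ t, ‖h t‖ ≤ C
  supp0 : ∀ t, t ≤ 0 → h t = 0
  supp : ∀ t, R < t → h t = 0
  C0 : 0 ≤ C
  R0 : 0 ≤ R

variable {h : ℝ → ℂ} {C R : ℝ}

noncomputable def FU (h : ℝ → ℂ) (u : ℝ) : ℂ := ∫ t, ec (t * u) * h t

noncomputable def FV (h : ℝ → ℂ) (u : ℝ) : ℂ := ∫ t, ec (t * u) * (2 * π * I * t * h t)

theorem Rd.int (H : Rd h C R) : Integrable h :=
  (bdd_integrable H.meas H.bd (S := Icc 0 R) (by simp) measurableSet_Icc (by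
    intro t ht
    rw [mem_Icc, not_and_or, not_le, not_le] at ht
    rcases ht with ht | ht
    · exact H.supp0 t ht.le
    · exact H.supp t ht)).1

theorem Rd.t_bd (H : Rd h C R) (t : ℝ) : |t| * ‖h t‖ ≤ R * C := by
  by_cases h1 : t ≤ 0
  · rw [H.supp0 t h1, norm_zero, mul_zero]
    exact mul_nonneg H.R0 H.C0
  · by_cases h2 : R < t
    · rw [H.supp t h2, norm_zero, mul_zero]
      exact mul_nonneg H.R0 H.C0
    · push Not at h1 h2
      rw [abs_of_pos h1]
      exact mul_le_mul h2 (H.bd t) (norm_nonneg _) H.R0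

theorem Rd.int' (H : Rd h C R) : Integrable (fun t : ℝ => 2 * π * I * t * h t) := by
  refine (bdd_integrable (K := 2 * π * (R * C)) ?_ ?_ (S := Icc 0 R) (by simp)
    measurableSet_Icc ?_).1
  · have := H.meas
    fun_prop
  · intro t
    have e : ‖2 * π * I * t * h t‖ = 2 * π * (|t| * ‖h t‖) := by
      rw [norm_mul, norm_mul, norm_mul, norm_mul, Complex.norm_I, Complex.norm_real,
        Complex.norm_real, Real.norm_eq_abs, Real.norm_eq_abs, abs_of_pos Real.pi_pos]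
      simp
      ring
    rw [e]
    have := H.t_bd t
    have hpi := Real.pi_pos
    gcongr
  · intro t ht
    rw [mem_Icc, not_and_or, not_le, not_le] at ht
    rcases ht with ht | ht
    · rw [H.supp0 t ht.le, mul_zero]
    · rw [H.supp t ht, mul_zero]

theorem FU_eq (u : ℝ) : FU h u = 𝓕 h (-u) := by
  rw [Real.fourier_real_eq]
  unfold FU
  congr 1
  funext t
  rw [ec_smul]
  congr 2
  ring

theorem FV_eq (u : ℝ) : FV h u = 𝓕 (fun t : ℝ => 2 * π * I * t * h t) (-u) := by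
  rw [Real.fourier_real_eq]
  unfold FV
  congr 1
  funext t
  rw [ec_smul]
  congr 2
  ring

theorem Rd.deriv (H : Rd h C R) (u : ℝ) : HasDerivAt (FU h) (FV h u) u := by
  have hi : Integrable (fun x : ℝ => x • h x) := by
    have := H.int'.const_mul (2 * π * I)⁻¹
    refine this.congr ?_
    filter_upwards with t
    have hpi : (2 * π * I : ℂ) ≠ 0 := by
      have := Real.pi_ne_zero
      simp [this]
    rw [Complex.real_smul]
    field_simp
  have h1 := (Real.hasDerivAt_fourier H.int hi (-u)).scomp u (hasDerivAt_neg u)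
  have e : (𝓕 h) ∘ (fun x : ℝ => -x) = FU h := by
    funext x
    rw [FU_eq]
    rfl
  rw [e] at h1
  refine h1.congr_deriv ?_
  rw [FV_eq, Real.fourier_real_eq, Real.fourier_real_eq, ← integral_smul]
  congr 1
  funext t
  simp only [smul_eq_mul, Circle.smul_def, Complex.real_smul]
  push_cast
  ring

theorem FV_bd (u : ℝ) : ‖FV h u‖ ≤ ∫ t, ‖2 * π * I * t * h t‖ := by
  unfold FV
  refine (norm_integral_le_integral_norm _).trans (le_of_eq ?_)
  congr 1
  funext t
  rw [norm_mul, ec_norm, one_mul]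

theorem Rd.FV_cont (H : Rd h C R) : Continuous (FV h) := by
  unfold FV
  apply continuous_of_dominated (bound := fun t => ‖2 * π * I * t * h t‖)
  · intro u
    apply AEStronglyMeasurable.mul
    · exact (ec_cont.comp (continuous_id.mul continuous_const)).aestronglyMeasurable
    · exact H.int'.aestronglyMeasurable
  · intro u
    filter_upwards with t
    rw [norm_mul, ec_norm, one_mul]
  · exact H.int'.norm
  · filter_upwards with t
    exact (ec_cont.comp (continuous_const.mul continuous_id)).mul continuous_const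

/-- The function of two variables. -/
noncomputable def HH (h : ℝ → ℂ) (j : ℕ) (p : ℂ) : ℂ := h ‖p‖ * ((starRingEnd ℂ) p / ‖p‖) ^ j

theorem HH_norm (h : ℝ → ℂ) (j : ℕ) (p : ℂ) : ‖HH h j p‖ ≤ ‖h ‖p‖‖ := by
  unfold HH
  rw [norm_mul, norm_pow, norm_div, RCLike.norm_conj, Complex.norm_real, norm_norm]
  have h1 : (‖p‖ / ‖p‖) ≤ 1 := div_self_le_one _
  have h2 : (‖p‖ / ‖p‖) ^ j ≤ 1 := pow_le_one₀ (by positivity) h1
  exact mul_le_of_le_one_right (norm_nonneg _) h2

theorem Rd.HH_int (H : Rd h C R) (j : ℕ) : Integrable (HH h j) ∧ MemLp (HH h j) 2 := by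
  refine bdd_integrable (K := C) ?_ ?_ (S := Metric.closedBall (0 : ℂ) R)
    measure_closedBall_lt_top.ne measurableSet_closedBall ?_
  · unfold HH
    have := H.meas
    fun_prop
  · intro p
    exact (HH_norm h j p).trans (H.bd _)
  · intro p hp
    have : R < ‖p‖ := by simpa using hp
    unfold HH
    rw [H.supp _ this, zero_mul]

/-- The Fourier transform of the function of two variables in polar coordinates. -/
theorem Rd.polar (H : Rd h C R) (j : ℕ) (q : ℂ) :
    𝓕 (HH h j) q = ∫ φ in Ioo (-π) π, ∫ r in Ioi (0 : ℝ),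
      (ec (-(r * cx q φ)) * (r * h r)) * cexp (-((j : ℤ) * φ * I)) := by
  have e0 : ∀ p ∈ polarCoord.target,
      p.1 • ((𝐞 (-(inner ℝ (Complex.polarCoord.symm p) q)) : Circle) •
        HH h j (Complex.polarCoord.symm p)) =
      (ec (-(p.1 * cx q p.2)) * (p.1 * h p.1)) * cexp (-((j : ℤ) * p.2 * I)) := by
    intro p hp
    rw [polarCoord_target] at hp
    have hr : 0 < p.1 := hp.1
    have e1 : (Complex.polarCoord.symm p : ℂ) = p.1 * cexp (p.2 * I) := by
      rw [Complex.polarCoord_symm_apply, Complex.exp_mul_I, Complex.ofReal_cos, Complex.ofReal_sin]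
    have e2 : ‖(Complex.polarCoord.symm p : ℂ)‖ = p.1 := by
      rw [e1, norm_mul, Complex.norm_exp_ofReal_mul_I, mul_one, Complex.norm_real,
        Real.norm_eq_abs, abs_of_pos hr]
    have e3 : inner ℝ (Complex.polarCoord.symm p : ℂ) q = p.1 * cx q p.2 := by
      rw [Complex.inner, e1]
      simp [Complex.exp_re, Complex.exp_im, cx]
      ring
    have e4 : (starRingEnd ℂ) (Complex.polarCoord.symm p : ℂ) = p.1 * cexp (-(p.2 * I)) := by
      rw [e1, map_mul, Complex.conj_ofReal, ← Complex.exp_conj, map_mul, Complex.conj_ofReal,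
        Complex.conj_I, mul_neg]
    have hr' : ((p.1 : ℝ) : ℂ) ≠ 0 := by exact_mod_cast hr.ne'
    unfold HH
    rw [e3, e2, e4, mul_div_cancel_left₀ _ hr', ← Complex.exp_nat_mul, ec_smul,
      Complex.real_smul]
    have e5 : (j : ℂ) * -(p.2 * I) = -(((j : ℤ) : ℂ) * p.2 * I) := by push_cast; ring
    rw [e5]
    ring
  rw [Real.fourier_eq, ← Complex.integral_comp_polarCoord_symm,
    setIntegral_congr_fun polarCoord.open_target.measurableSet e0, polarCoord_target,
    Measure.volume_eq_prod, ← Measure.prod_restrict, integral_prod_symm]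
  refine (bdd_integrable (K := R * C) ?_ ?_ (S := Icc 0 R ×ˢ univ) ?_
    (measurableSet_Icc.prod MeasurableSet.univ) ?_).1
  · have h1 : Measurable (fun p : ℝ × ℝ => ec (-(p.1 * cx q p.2))) := by
      apply ec_cont.measurable.comp
      unfold cx
      fun_prop
    have h2 := H.meas
    fun_prop
  · intro p
    rw [norm_mul, norm_exp, mul_one, norm_mul, ec_norm, one_mul, norm_mul, Complex.norm_real,
      Real.norm_eq_abs]
    exact H.t_bd _
  · rw [Measure.prod_prod]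
    apply ENNReal.mul_ne_top
    · apply ne_top_of_le_ne_top _ (Measure.restrict_apply_le _ _)
      simp
    · simp
  · intro p hp
    have hp' : ¬ (0 ≤ p.1 ∧ p.1 ≤ R) := by
      intro hc
      exact hp ⟨hc, mem_univ _⟩
    rw [not_and_or, not_le, not_le] at hp'
    have : h p.1 = 0 := by
      rcases hp' with h1 | h1
      · exact H.supp0 _ h1.le
      · exact H.supp _ h1
    rw [this]
    simp

/-- The coefficients of index zero and one are Fourier transforms in two variables. -/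
theorem Rd.bk_eq (H : Rd h C R) (ξ : ℂ) (j : ℕ) (x : ℝ) :
    bk (FV h) ξ j x = 2 * π * I * 𝓕 (HH h j) (-(x : ℂ) * ξ) := by
  rw [H.polar]
  unfold bk cf
  rw [intervalIntegral.integral_of_le (by linarith [Real.pi_pos]), integral_Ioc_eq_integral_Ioo,
    ← integral_const_mul]
  apply setIntegral_congr_fun measurableSet_Ioo
  intro φ _
  simp only
  have e1 : cx (-(x : ℂ) * ξ) φ = -(x * cx ξ φ) := by
    simp [cx]
    ring
  rw [integral_mul_const, FV, ← mul_assoc, mul_comm (cexp _)]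
  congr 1
  rw [← integral_const_mul]
  have e2 : (∫ t : ℝ, ec (t * (x * cx ξ φ)) * (2 * π * I * t * h t)) =
      ∫ t in Ioi (0 : ℝ), ec (t * (x * cx ξ φ)) * (2 * π * I * t * h t) := by
    rw [← integral_indicator measurableSet_Ioi]
    congr 1
    funext t
    by_cases ht : t ∈ Ioi (0 : ℝ)
    · rw [indicator_of_mem ht]
    · rw [indicator_of_notMem ht]
      rw [mem_Ioi, not_lt] at ht
      rw [H.supp0 t ht]
      simp
  rw [e2]
  apply setIntegral_congr_fun measurableSet_Ioi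
  intro t _
  simp only
  rw [e1]
  have e3 : -(t * -(x * cx ξ φ)) = t * (x * cx ξ φ) := by ring
  rw [e3]
  ring

/-- Invariance of the modulus under rotations. -/
theorem HH_rot (h : ℝ → ℂ) (j : ℕ) (z : Circle) (q : ℂ) :
    ‖𝓕 (HH h j) (z * q)‖ = ‖𝓕 (HH h j) q‖ := by
  have h1 := Real.fourier_comp_linearIsometry (rotation z) (HH h j) q
  rw [rotation_apply] at h1
  rw [← h1]
  have e : HH h j ∘ (rotation z) = fun p => ((starRingEnd ℂ) (z : ℂ)) ^ j * HH h j p := by
    funext p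
    simp only [Function.comp, rotation_apply, HH]
    rw [norm_mul, Circle.norm_coe, one_mul, map_mul, mul_div_assoc, mul_pow]
    ring
  rw [e, Real.fourier_eq, Real.fourier_eq]
  have e2 : (∫ v, (𝐞 (-(inner ℝ v q)) : Circle) • (((starRingEnd ℂ) (z : ℂ)) ^ j * HH h j v)) =
      ((starRingEnd ℂ) (z : ℂ)) ^ j * ∫ v, (𝐞 (-(inner ℝ v q)) : Circle) • HH h j v := by
    rw [← integral_const_mul]
    congr 1
    funext v
    rw [ec_smul, ec_smul]
    ring
  rw [e2, norm_mul, norm_pow, RCLike.norm_conj, Circle.norm_coe, one_pow, one_mul]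

/-- Integration of radial functions. -/
theorem radial_int {Φ : ℂ → ℝ≥0∞} (hm : Measurable Φ) (hrot : ∀ (z : Circle) (q : ℂ), Φ (z * q) = Φ q)
    (u : Circle) : ∫⁻ q, Φ q = ENNReal.ofReal (2 * π) *
      ∫⁻ r in Ioi (0 : ℝ), ENNReal.ofReal r * Φ (r * u) := by
  have e0 : ∀ p ∈ polarCoord.target, ENNReal.ofReal p.1 • Φ (Complex.polarCoord.symm p) =
      ENNReal.ofReal p.1 * Φ (p.1 * u) := by
    intro p hp
    have e1 : (Complex.polarCoord.symm p : ℂ) =
        ((Circle.exp p.2 * u⁻¹ : Circle) : ℂ) * (p.1 * u) := by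
      have hu : (u : ℂ) ≠ 0 := Circle.coe_ne_zero u
      rw [Complex.polarCoord_symm_apply, Complex.ofReal_cos, Complex.ofReal_sin,
        ← Complex.exp_mul_I, Circle.coe_mul, Circle.coe_inv, Circle.coe_exp]
      field_simp
    rw [e1, hrot, smul_eq_mul]
  rw [← Complex.lintegral_comp_polarCoord_symm,
    setLIntegral_congr_fun polarCoord.open_target.measurableSet e0, polarCoord_target,
    Measure.volume_eq_prod, ← Measure.prod_restrict]
  rw [lintegral_prod_symm]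
  · simp only [lintegral_const, Measure.restrict_apply MeasurableSet.univ, univ_inter,
      Real.volume_Ioo]
    rw [mul_comm]
    congr 2
    ring
  · apply Measurable.aemeasurable
    fun_prop

/-- Scaling. -/
theorem radial_scale {Φ : ℂ → ℝ≥0∞} (hm : Measurable Φ)
    (hrot : ∀ (z : Circle) (q : ℂ), Φ (z * q) = Φ q) {ξ : ℂ} (hξ : ξ ≠ 0) :
    ENNReal.ofReal (2 * π) * ∫⁻ x in Ioi (0 : ℝ), ENNReal.ofReal x *
      (ENNReal.ofReal (‖ξ‖ ^ 2) * Φ (x * ξ)) = ∫⁻ q, Φ q := by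
  have hn : 0 < ‖ξ‖ := norm_pos_iff.2 hξ
  obtain ⟨v, hv⟩ : ∃ v : Circle, (v : ℂ) = ξ / ‖ξ‖ := by
    refine ⟨⟨ξ / ‖ξ‖, ?_⟩, rfl⟩
    change ξ / ‖ξ‖ ∈ Metric.sphere (0 : ℂ) 1
    rw [mem_sphere_zero_iff_norm, norm_div, Complex.norm_real, norm_norm, div_self hn.ne']
  have h1 := radial_int (Φ := fun q => ENNReal.ofReal (‖ξ‖ ^ 2) * Φ (‖ξ‖ * q))
    ((hm.comp (measurable_const_mul _)).const_mul _) (by
      intro z q
      have e : (‖ξ‖ : ℂ) * (z * q) = z * (‖ξ‖ * q) := by ring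
      change ENNReal.ofReal (‖ξ‖ ^ 2) * Φ ((‖ξ‖ : ℂ) * (z * q)) = _
      rw [e, hrot z (‖ξ‖ * q)]) v
  have h2 : ∫⁻ q : ℂ, ENNReal.ofReal (‖ξ‖ ^ 2) * Φ (‖ξ‖ * q) = ∫⁻ q, Φ q := by
    have h0 : ∫⁻ q : ℂ, ENNReal.ofReal (‖ξ‖ ^ 2) * Φ (‖ξ‖ * q) =
        ENNReal.ofReal (‖ξ‖ ^ 2) * ∫⁻ q : ℂ, Φ (‖ξ‖ * q) :=
      lintegral_const_mul' _ _ ENNReal.ofReal_ne_top
    rw [h0]
    have h3 := lintegral_map (μ := (volume : Measure ℂ)) hm
      (measurable_const_smul (‖ξ‖ : ℝ) (α := ℂ))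
    rw [Measure.map_addHaar_smul volume hn.ne', lintegral_smul_measure, smul_eq_mul] at h3
    have h4 : ∫⁻ q : ℂ, Φ (‖ξ‖ * q) = ∫⁻ q : ℂ, Φ ((‖ξ‖ : ℝ) • q) := by
      congr 1
    rw [h4, ← h3, ← mul_assoc, ← ENNReal.ofReal_mul (by positivity), Complex.finrank_real_complex,
      abs_of_pos (by positivity), mul_inv_cancel₀ (by positivity), ENNReal.ofReal_one, one_mul]
  rw [h2] at h1
  rw [h1]
  congr 1
  apply setLIntegral_congr_fun measurableSet_Ioi
  intro x _
  simp only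
  congr 3
  rw [hv]
  have : ((‖ξ‖ : ℝ) : ℂ) ≠ 0 := by exact_mod_cast hn.ne'
  field_simp

theorem HH_meas_four (H : Rd h C R) (j : ℕ) : Continuous (𝓕 (HH h j)) := by
  have hi := (H.HH_int j).1
  have e : 𝓕 (HH h j) = fun q => ∫ v, (𝐞 (-(inner ℝ v q)) : Circle) • HH h j v := by
    funext q
    rw [Real.fourier_eq]
  rw [e]
  apply continuous_of_dominated (bound := fun v => ‖HH h j v‖)
  · intro q
    simp only [ec_smul]
    apply AEStronglyMeasurable.mul _ hi.aestronglyMeasurable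
    exact (ec_cont.comp (by fun_prop)).aestronglyMeasurable
  · intro q
    filter_upwards with v
    rw [Circle.norm_smul]
  · exact hi.norm
  · filter_upwards with v
    simp only [ec_smul]
    exact (ec_cont.comp (by fun_prop)).mul continuous_const

/-- The bound for the coefficients of index zero and one. -/
theorem Rd.cj_le (H : Rd h C R) {ξ : ℂ} (hξ : ξ ≠ 0) (j : ℕ) :
    ∫⁻ x in Ioi (0 : ℝ), ENNReal.ofReal x * (ENNReal.ofReal (‖ξ‖ ^ 2) * ‖bk (FV h) ξ j x‖ₑ ^ 2) ≤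
      ENNReal.ofReal ((2 * π) ^ 2) * ∫⁻ t in Ioi (0 : ℝ), ENNReal.ofReal t * ‖h t‖ₑ ^ 2 := by
  have hpi := Real.pi_pos
  set Φ : ℂ → ℝ≥0∞ := fun q => ‖𝓕 (HH h j) q‖ₑ ^ 2 with hΦ
  have hΦm : Measurable Φ := (HH_meas_four H j).measurable.enorm.pow_const _
  have hΦr : ∀ (z : Circle) (q : ℂ), Φ (z * q) = Φ q := by
    intro z q
    simp only [hΦ]
    rw [enorm_eq_iff_norm_eq.2 (HH_rot h j z q)]
  have h1 := radial_scale hΦm hΦr (neg_ne_zero.2 hξ)
  have h2 : ∫⁻ q, Φ q = ∫⁻ p, ‖HH h j p‖ₑ ^ 2 :=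
    Pool.Agent.H153R4.plancherel _ (H.HH_int j).1 (H.HH_int j).2
  have h3 : ∫⁻ p, ‖HH h j p‖ₑ ^ 2 ≤ ∫⁻ p : ℂ, ‖h ‖p‖‖ₑ ^ 2 := by
    apply lintegral_mono
    intro p
    apply pow_le_pow_left'
    exact enorm_le_iff_norm_le.2 (HH_norm h j p)
  have h4 := radial_int (Φ := fun p : ℂ => ‖h ‖p‖‖ₑ ^ 2)
    ((H.meas.comp measurable_norm).enorm.pow_const _) (by
      intro z q
      have e : ‖(z : ℂ) * q‖ = ‖q‖ := by rw [norm_mul, Circle.norm_coe, one_mul]
      exact congrArg (fun s : ℝ => ‖h s‖ₑ ^ 2) e) 1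
  have h5 : ∫⁻ r in Ioi (0 : ℝ), ENNReal.ofReal r * ‖h ‖((r : ℝ) : ℂ) * (1 : Circle)‖‖ₑ ^ 2 =
      ∫⁻ t in Ioi (0 : ℝ), ENNReal.ofReal t * ‖h t‖ₑ ^ 2 := by
    apply setLIntegral_congr_fun measurableSet_Ioi
    intro r hr
    simp only
    rw [Circle.coe_one, mul_one, Complex.norm_real, Real.norm_eq_abs, abs_of_pos hr]
  rw [h5] at h4
  have h6 : ∀ x : ℝ, ENNReal.ofReal x * (ENNReal.ofReal (‖ξ‖ ^ 2) * ‖bk (FV h) ξ j x‖ₑ ^ 2) =
      ENNReal.ofReal ((2 * π) ^ 2) * (ENNReal.ofReal x * (ENNReal.ofReal (‖-ξ‖ ^ 2) *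
        Φ (x * -ξ))) := by
    intro x
    rw [H.bk_eq, enorm_mul, mul_pow, norm_neg]
    have e1 : ‖2 * π * I‖ₑ = ENNReal.ofReal (2 * π) := by
      rw [← ofReal_norm]
      congr 1
      simp [abs_of_pos hpi]
    have e2 : -(x : ℂ) * ξ = x * -ξ := by ring
    rw [e1, e2, ← ENNReal.ofReal_pow (by positivity)]
    simp only [hΦ]
    ring
  simp only [h6]
  rw [lintegral_const_mul']
  swap
  · exact ENNReal.ofReal_ne_top
  have hne : ENNReal.ofReal (2 * π) ≠ 0 := by
    rw [Ne, ENNReal.ofReal_eq_zero]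
    push Not
    positivity
  apply mul_le_mul_right
  rw [← ENNReal.mul_le_mul_iff_right hne ENNReal.ofReal_ne_top, h1, h2, ← h4]
  exact h3

/-- **The energy estimate on the circle.** -/
theorem Rd.energy (H : Rd h C R) (ξ : ℂ) (K : ℕ) :
    ∑ n ∈ Finset.range K, ((n : ℝ≥0∞) + 1) * ‖bk (FU h) ξ (n + 1) 1‖ₑ ^ 2 ≤
      ENNReal.ofReal ((2 * π) ^ 2) * ∫⁻ t in Ioi (0 : ℝ), ENNReal.ofReal t * ‖h t‖ₑ ^ 2 := by
  have hT := telescope H.deriv H.FV_cont FV_bd ξ K
  have hc : ∀ k, Continuous (bk (FV h) ξ k) := fun k => bk_cont H.FV_cont FV_bd ξ k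
  have e1 : ∑ n ∈ Finset.range K, ((n : ℝ≥0∞) + 1) * ‖bk (FU h) ξ (n + 1) 1‖ₑ ^ 2 =
      ENNReal.ofReal (∑ n ∈ Finset.range K, ((n : ℝ) + 1) * ‖bk (FU h) ξ (n + 1) 1‖ ^ 2) := by
    rw [ENNReal.ofReal_sum_of_nonneg (fun n _ => by positivity)]
    apply Finset.sum_congr rfl
    intro n _
    rw [ENNReal.ofReal_mul (by positivity), ENNReal.ofReal_pow (norm_nonneg _),
      ofReal_norm, ENNReal.ofReal_add (by positivity) zero_le_one,
      ENNReal.ofReal_natCast, ENNReal.ofReal_one]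
  rw [e1]
  refine (ENNReal.ofReal_le_ofReal hT).trans ?_
  by_cases hξ : ξ = 0
  · rw [hξ]
    simp
  rw [intervalIntegral.integral_of_le zero_le_one,
    ofReal_integral_eq_lintegral_ofReal]
  · calc ∫⁻ x in Ioc (0 : ℝ) 1, ENNReal.ofReal (x / 2 * ‖ξ‖ ^ 2 *
          (‖bk (FV h) ξ 0 x‖ ^ 2 + ‖bk (FV h) ξ 1 x‖ ^ 2))
        ≤ ∫⁻ x in Ioi (0 : ℝ), ENNReal.ofReal (x / 2 * ‖ξ‖ ^ 2 *
          (‖bk (FV h) ξ 0 x‖ ^ 2 + ‖bk (FV h) ξ 1 x‖ ^ 2)) :=
          lintegral_mono_set Ioc_subset_Ioi_self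
      _ = ∫⁻ x in Ioi (0 : ℝ), (2⁻¹ * (ENNReal.ofReal x * (ENNReal.ofReal (‖ξ‖ ^ 2) *
            ‖bk (FV h) ξ (0 : ℕ) x‖ₑ ^ 2)) + 2⁻¹ * (ENNReal.ofReal x *
            (ENNReal.ofReal (‖ξ‖ ^ 2) * ‖bk (FV h) ξ (1 : ℕ) x‖ₑ ^ 2))) := by
          apply setLIntegral_congr_fun measurableSet_Ioi
          intro x hx
          have hx0 : 0 ≤ x := le_of_lt hx
          simp only [Nat.cast_zero, Nat.cast_one]
          rw [ENNReal.ofReal_mul (by positivity), ENNReal.ofReal_mul (by positivity),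
            ENNReal.ofReal_add (by positivity) (by positivity),
            ENNReal.ofReal_pow (norm_nonneg _), ENNReal.ofReal_pow (norm_nonneg _),
            ENNReal.ofReal_pow (norm_nonneg _),
            ofReal_norm, ofReal_norm, ofReal_norm,
            div_eq_mul_inv, ENNReal.ofReal_mul hx0, ENNReal.ofReal_inv_of_pos (by norm_num)]
          have : ENNReal.ofReal 2 = 2 := by norm_num
          rw [this]
          ring
      _ = 2⁻¹ * (∫⁻ x in Ioi (0 : ℝ), ENNReal.ofReal x * (ENNReal.ofReal (‖ξ‖ ^ 2) *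
            ‖bk (FV h) ξ (0 : ℕ) x‖ₑ ^ 2)) + 2⁻¹ * (∫⁻ x in Ioi (0 : ℝ), ENNReal.ofReal x *
            (ENNReal.ofReal (‖ξ‖ ^ 2) * ‖bk (FV h) ξ (1 : ℕ) x‖ₑ ^ 2)) := by
          have m0 := (hc (0 : ℕ)).measurable
          have m1 := (hc (1 : ℕ)).measurable
          rw [lintegral_add_left (by fun_prop), lintegral_const_mul _ (by fun_prop),
            lintegral_const_mul _ (by fun_prop)]
      _ ≤ 2⁻¹ * (ENNReal.ofReal ((2 * π) ^ 2) *
            ∫⁻ t in Ioi (0 : ℝ), ENNReal.ofReal t * ‖h t‖ₑ ^ 2) +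
          2⁻¹ * (ENNReal.ofReal ((2 * π) ^ 2) *
            ∫⁻ t in Ioi (0 : ℝ), ENNReal.ofReal t * ‖h t‖ₑ ^ 2) := by
          gcongr
          · exact H.cj_le hξ 0
          · exact H.cj_le hξ 1
      _ = _ := by
          rw [← two_mul, ← mul_assoc, ENNReal.mul_inv_cancel (by norm_num) (by norm_num), one_mul]
  · apply Continuous.integrableOn_Ioc
    have a0 := hc 0
    have a1 := hc 1
    fun_prop
  · filter_upwards [ae_restrict_mem measurableSet_Ioc] with x hx
    have : 0 < x := hx.1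
    simp only [Pi.zero_apply]
    positivity

end Pool.Agent.D0H26.TS
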