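import Pool.Agent.D0H26.TS.Zero
import Pool.Agent.N249.LR.Asm

set_option autoImplicit false

/-!
Tubes tangent to a sphere: the change of the exponent.
-/

open MeasureTheory Set Complex Real ENNReal Filter

namespace Pool.Agent.D0H26.TS

open Pool.Agent.N249.LR (cx cy w norm_w holder_weight log_shift)

/-- The weight. -/
noncomputable def kt (δ : ℝ) (X : ℝ × ℂ) : ℝ≥0∞ :=
  ENNReal.ofReal (√(X.1 ^ 2 + ‖X.2‖ ^ 2 - 1) + √δ)

theorem kt_meas (δ : ℝ) : Measurable (kt δ) := by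
  unfold kt
  fun_prop

theorem kt_ell (δ : ℝ) (y : ℂ) (φ s : ℝ) :
    kt δ (ell y φ s) = ENNReal.ofReal (|sg y φ s| + √δ) := by
  unfold kt
  rw [ell_sqrt]

/-- The function on a shell. -/
noncomputable def gj (f : ℝ × ℂ → ℝ≥0∞) (δ : ℝ) (j : ℕ) (X : ℝ × ℂ) : ℝ≥0∞ :=
  (Sh j).indicator (fun X => f X ^ (3 / 2 : ℝ) * kt δ X ^ (1 / 2 : ℝ)) X

theorem gj_meas {f : ℝ × ℂ → ℝ≥0∞} (hf : Measurable f) (δ : ℝ) (j : ℕ) :
    Measurable (gj f δ j) := by
  have := kt_meas δ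
  exact Measurable.indicator (by fun_prop) (Sh_meas j)

theorem gj_sq (f : ℝ × ℂ → ℝ≥0∞) (δ : ℝ) (j : ℕ) (X : ℝ × ℂ) :
    gj f δ j X ^ 2 = (Sh j).indicator (fun X => f X ^ 3 * kt δ X) X := by
  unfold gj
  by_cases hX : X ∈ Sh j
  · rw [indicator_of_mem hX, indicator_of_mem hX, mul_pow, ← ENNReal.rpow_natCast,
      ← ENNReal.rpow_natCast, ← ENNReal.rpow_mul, ← ENNReal.rpow_mul]
    norm_num
  · rw [indicator_of_notMem hX, indicator_of_notMem hX]
    norm_num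

/-- The logarithmic integral over the part of a line in a shell. -/
theorem log_line {δ : ℝ} (hδ : 0 < δ) (hδ1 : δ ≤ 1) (j : ℕ) (y : ℂ) (φ : ℝ) :
    ∫⁻ s, {s : ℝ | ell y φ s ∈ Sh j}.indicator
      (fun s => (ENNReal.ofReal (|sg y φ s| + √δ))⁻¹) s ≤
      ENNReal.ofReal (24 * (1 + Real.log (1 / δ))) := by
  set b : ℝ := √δ with hb
  have hb0 : 0 < b := Real.sqrt_pos.2 hδ
  have hb1 : b ≤ 1 := by rw [hb]; exact Real.sqrt_le_one.2 hδ1
  set D : ℝ := (1 + ‖y‖ ^ 2) / 2 with hD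
  have hD0 : 1 / 2 ≤ D := by rw [hD]; nlinarith [sq_nonneg ‖y‖]
  have hD1 : 0 < D := by linarith
  have hlog : 0 ≤ Real.log (1 / δ) := Real.log_nonneg (by rw [le_div_iff₀ hδ]; linarith)
  set h : ℝ → ℝ≥0∞ := fun σ => {σ : ℝ | (j : ℝ) ≤ |σ| ∧ |σ| < j + 4}.indicator
    (fun σ => (ENNReal.ofReal (|σ| + b))⁻¹) σ with hh
  have hset1 : MeasurableSet {σ : ℝ | (j : ℝ) ≤ |σ|} :=
    measurableSet_le measurable_const (by fun_prop)
  have hset2 : MeasurableSet {σ : ℝ | |σ| < (j : ℝ) + 4} :=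
    measurableSet_lt (by fun_prop) measurable_const
  have hset : MeasurableSet {σ : ℝ | (j : ℝ) ≤ |σ| ∧ |σ| < j + 4} := hset1.inter hset2
  have hhm : Measurable h := Measurable.indicator (by fun_prop) hset
  have e1 : ∀ s : ℝ, {s : ℝ | ell y φ s ∈ Sh j}.indicator
      (fun s => (ENNReal.ofReal (|sg y φ s| + b))⁻¹) s = h (cx y φ + s * D) := by
    intro s
    simp only [hh, indicator, mem_ofPred_eq, ell_mem_Sh]
    rfl
  simp only [e1]
  have e2 : ∫⁻ s : ℝ, h (cx y φ + s * D) = ENNReal.ofReal |D⁻¹| * ∫⁻ σ, h σ := by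
    have h1 : ∫⁻ s : ℝ, h (cx y φ + s * D) =
        ∫⁻ s, h (cx y φ + s) ∂(Measure.map (· * D) volume) := by
      rw [lintegral_map (by fun_prop) (by fun_prop)]
    rw [h1, Real.map_volume_mul_right hD1.ne', lintegral_smul_measure, smul_eq_mul,
      lintegral_add_left_eq_self]
  rw [e2]
  have e3 : ∫⁻ σ, h σ ≤ ENNReal.ofReal (2 + 2 * Real.log ((b + 3 * 2) / b)) +
      ENNReal.ofReal (2 + 2 * Real.log ((b + 3 * 2) / b)) := by
    calc ∫⁻ σ, h σ = ∫⁻ σ in {σ : ℝ | (j : ℝ) ≤ |σ| ∧ |σ| < j + 4},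
          (ENNReal.ofReal (|σ| + b))⁻¹ := lintegral_indicator hset _
      _ ≤ ∫⁻ σ in Metric.closedBall ((j : ℝ) + 2) 2 ∪ Metric.closedBall (-(j : ℝ) - 2) 2,
          (ENNReal.ofReal (|σ| + b))⁻¹ := by
          apply lintegral_mono_set
          intro σ hσ
          obtain ⟨h1, h2⟩ := hσ
          rcases le_total 0 σ with h3 | h3
          · left
            rw [abs_of_nonneg h3] at h1 h2
            rw [Metric.mem_closedBall, Real.dist_eq, abs_le]
            exact ⟨by linarith, by linarith⟩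
          · right
            rw [abs_of_nonpos h3] at h1 h2
            rw [Metric.mem_closedBall, Real.dist_eq, abs_le]
            exact ⟨by linarith, by linarith⟩
      _ ≤ _ := (lintegral_union_le _ _ _).trans
          (add_le_add (log_shift hb0 two_pos _) (log_shift hb0 two_pos _))
  have e4 : Real.log ((b + 3 * 2) / b) ≤ 2 + Real.log (1 / δ) / 2 := by
    have h1 : (b + 3 * 2) / b ≤ 7 * (1 / b) := by
      rw [div_le_iff₀ hb0]
      have : 7 * (1 / b) * b = 7 := by field_simp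
      linarith
    have h2 : Real.log ((b + 3 * 2) / b) ≤ Real.log (7 * (1 / b)) :=
      Real.log_le_log (by positivity) h1
    rw [Real.log_mul (by norm_num) (by positivity)] at h2
    have h3 : Real.log 7 ≤ 2 := by
      rw [Real.log_le_iff_le_exp (by norm_num)]
      have h4 : Real.exp 1 > 2.7182818283 := Real.exp_one_gt_d9
      have h5 : Real.exp 2 = Real.exp 1 * Real.exp 1 := by
        rw [← Real.exp_add]; norm_num
      rw [h5]
      nlinarith
    have h4 : Real.log (1 / b) = Real.log (1 / δ) / 2 := by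
      rw [Real.log_div (by norm_num) hb0.ne', Real.log_div (by norm_num) hδ.ne', Real.log_one,
        hb, Real.log_sqrt hδ.le]
      ring
    linarith
  have e5 : ENNReal.ofReal |D⁻¹| ≤ ENNReal.ofReal 2 := by
    apply ENNReal.ofReal_le_ofReal
    rw [abs_of_pos (inv_pos.2 hD1), inv_le_comm₀ hD1 (by norm_num)]
    linarith
  have hlg : 0 ≤ Real.log ((b + 3 * 2) / b) := by
    apply Real.log_nonneg
    rw [le_div_iff₀ hb0]
    linarith
  calc ENNReal.ofReal |D⁻¹| * ∫⁻ σ, h σ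
      ≤ ENNReal.ofReal 2 * (ENNReal.ofReal (2 + 2 * Real.log ((b + 3 * 2) / b)) +
        ENNReal.ofReal (2 + 2 * Real.log ((b + 3 * 2) / b))) := mul_le_mul' e5 e3
    _ = ENNReal.ofReal (2 * ((2 + 2 * Real.log ((b + 3 * 2) / b)) +
        (2 + 2 * Real.log ((b + 3 * 2) / b)))) := by
        rw [← ENNReal.ofReal_add (by positivity) (by positivity),
          ← ENNReal.ofReal_mul (by norm_num)]
    _ ≤ _ := by
        apply ENNReal.ofReal_le_ofReal
        linarith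

variable {f : ℝ × ℂ → ℝ≥0∞} {δ : ℝ}

/-- The change of the exponent on one shell. -/
theorem shell_pt (hf : Measurable f) (hδ : 0 < δ) (hδ1 : δ ≤ 1) {K : ℕ} (hK : 0 < K) (j : ℕ)
    (y : ℂ) (φ : ℝ) :
    (∫⁻ φ' in Ioc (-π) π, ENNReal.ofReal (kap K (φ - φ')) *
      ∫⁻ s in Ioi (0 : ℝ), (Sh j).indicator f (ell y φ' s)) ^ 3 ≤
      ENNReal.ofReal (48 * π * (1 + Real.log (1 / δ))) * MM (Gam (gj f δ j)) K y := by
  have hpi := Real.pi_pos
  have hem := ell_meas
  have hemy : Measurable (fun p : ℝ × ℝ => ell y p.1 p.2) :=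
    hem.comp (f := fun p : ℝ × ℝ => ((y, p.1), p.2)) (by fun_prop)
  set E : Set (ℝ × ℝ) := {p | ell y p.1 p.2 ∈ Sh j} with hE
  have hEm : MeasurableSet E := hemy (Sh_meas j)
  have hkm : Measurable (fun φ' => ENNReal.ofReal (kap K (φ - φ'))) :=
    ((kap_cont K).measurable.comp (by fun_prop)).ennreal_ofReal
  set ν : Measure ℝ := (volume.restrict (Ioc (-π) π)).withDensity
    (fun φ' => ENNReal.ofReal (kap K (φ - φ'))) with hν
  set μ : Measure (ℝ × ℝ) := (ν.prod (volume.restrict (Ioi (0 : ℝ)))).restrict E with hμ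
  have mu_int : ∀ F : ℝ × ℝ → ℝ≥0∞, Measurable F → ∫⁻ p, F p ∂μ =
      ∫⁻ φ' in Ioc (-π) π, ENNReal.ofReal (kap K (φ - φ')) *
        ∫⁻ s in Ioi (0 : ℝ), E.indicator F (φ', s) := by
    intro F hF
    have hFE : Measurable (E.indicator F) := hF.indicator hEm
    rw [hμ, ← lintegral_indicator hEm, lintegral_prod _ hFE.aemeasurable, hν,
      lintegral_withDensity_eq_lintegral_mul _ hkm
        (hFE.lintegral_prod_right' (ν := volume.restrict (Ioi (0 : ℝ))))]
    rfl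
  have hG : Measurable (fun p : ℝ × ℝ => f (ell y p.1 p.2)) := hf.comp hemy
  have hκ : Measurable (fun p : ℝ × ℝ => kt δ (ell y p.1 p.2)) := (kt_meas δ).comp hemy
  have hsδ : 0 < √δ := Real.sqrt_pos.2 hδ
  have hκ0 : ∀ p : ℝ × ℝ, kt δ (ell y p.1 p.2) ≠ 0 := by
    intro p
    rw [kt_ell, Ne, ENNReal.ofReal_eq_zero]
    push Not
    positivity
  have hκt : ∀ p : ℝ × ℝ, kt δ (ell y p.1 p.2) ≠ ∞ := by
    intro p
    rw [kt_ell]
    exact ENNReal.ofReal_ne_top
  have hH := holder_weight μ 0 hG.aemeasurable hκ.aemeasurable hκ0 hκt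
  simp only [Nat.cast_zero, zero_add, pow_one] at hH
  rw [mu_int _ hG, mu_int _ (by fun_prop),
    mu_int (fun p => (kt δ (ell y p.1 p.2))⁻¹) hκ.inv] at hH
  have e1 : ∀ φ' s : ℝ, E.indicator (fun p : ℝ × ℝ => f (ell y p.1 p.2)) (φ', s) =
      (Sh j).indicator f (ell y φ' s) := by
    intro φ' s
    simp only [indicator]
    rfl
  have e2 : ∀ φ' s : ℝ, E.indicator (fun p : ℝ × ℝ => f (ell y p.1 p.2) ^ (3 / 2 : ℝ) *
      kt δ (ell y p.1 p.2) ^ (1 / 2 : ℝ)) (φ', s) = gj f δ j (ell y φ' s) := by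
    intro φ' s
    simp only [indicator, gj]
    rfl
  simp only [e1, e2] at hH
  refine hH.trans ?_
  rw [mul_comm]
  apply mul_le_mul'
  · calc ∫⁻ φ' in Ioc (-π) π, ENNReal.ofReal (kap K (φ - φ')) *
          ∫⁻ s in Ioi (0 : ℝ), E.indicator (fun p : ℝ × ℝ => (kt δ (ell y p.1 p.2))⁻¹) (φ', s)
        ≤ ∫⁻ φ' in Ioc (-π) π, ENNReal.ofReal (kap K (φ - φ')) *
          ENNReal.ofReal (24 * (1 + Real.log (1 / δ))) := by
          gcongr with φ'
          refine le_trans ?_ (log_line hδ hδ1 j y φ')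
          refine (setLIntegral_le_lintegral _ _).trans (le_of_eq ?_)
          apply lintegral_congr
          intro s
          simp only [indicator, hE, mem_ofPred_eq, kt_ell]
          rfl
      _ = (∫⁻ φ' in Ioc (-π) π, ENNReal.ofReal (kap K (φ - φ'))) *
          ENNReal.ofReal (24 * (1 + Real.log (1 / δ))) :=
          lintegral_mul_const' _ _ ENNReal.ofReal_ne_top
      _ ≤ ENNReal.ofReal (2 * π) * ENNReal.ofReal (24 * (1 + Real.log (1 / δ))) := by
          gcongr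
          exact kap_int hK φ
      _ = _ := by
          rw [← ENNReal.ofReal_mul (by positivity)]
          congr 1
          ring
  · have h3 := MM_le (Gam_meas (gj_meas hf δ j)) hK y φ
    simp only [Gam_ray] at h3
    exact h3

/-- The integral of the majorant of one shell. -/
theorem shell_int (hf : Measurable f) (K j : ℕ) :
    ∫⁻ y in Metric.closedBall (0 : ℂ) 1, MM (Gam (gj f δ j)) K y ≤
      ENNReal.ofReal (832 * π ^ 2 * (1 + Real.log K)) *
        ∫⁻ X in Sh j, f X ^ 3 * kt δ X * Wt X := by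
  have hpi := Real.pi_pos
  have hlog : 0 ≤ Real.log K := Real.log_natCast_nonneg K
  have hgm := gj_meas hf δ j
  have h1 := MM_int (Gam_meas hgm) K (B := Metric.closedBall (0 : ℂ) 1)
  simp only [Gam_ray] at h1
  have h2 := zero_mode hgm (j := j) (fun X hX => by
    unfold gj
    rw [indicator_of_notMem hX])
  have e1 : ∫⁻ X, gj f δ j X ^ 2 * Wt X = ∫⁻ X in Sh j, f X ^ 3 * kt δ X * Wt X := by
    rw [← lintegral_indicator (Sh_meas j)]
    apply lintegral_congr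
    intro X
    rw [gj_sq]
    by_cases hX : X ∈ Sh j
    · rw [indicator_of_mem hX, indicator_of_mem hX]
    · rw [indicator_of_notMem hX, indicator_of_notMem hX, zero_mul]
  set A : ℝ≥0∞ := ∫⁻ X in Sh j, f X ^ 3 * kt δ X * Wt X with hA
  have h3 : ∫⁻ t in Ioi (0 : ℝ), ENNReal.ofReal t * ∫⁻ x, Gam (gj f δ j) t x ^ 2 ≤ 2 * A := by
    have h4 := Ps_int (g := fun X => gj f δ j X ^ 2) (hgm.pow_const 2)
    rw [e1] at h4
    refine le_trans (le_of_eq ?_) h4
    apply setLIntegral_congr_fun measurableSet_Ioi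
    intro t ht
    have ht0 : 0 < t := ht
    simp only
    unfold Gam
    simp only [mul_pow]
    rw [lintegral_const_mul' _ _ (ENNReal.pow_ne_top ENNReal.ofReal_ne_top), ← mul_assoc,
      ← ENNReal.ofReal_pow (by positivity), ← ENNReal.ofReal_mul ht0.le]
    congr 2
    field_simp
  rw [e1] at h2
  refine h1.trans ?_
  calc 2 * (∫⁻ y in Metric.closedBall (0 : ℂ) 1, (∫⁻ φ in Ioc (-π) π, ∫⁻ s in Ioi (0 : ℝ),
        gj f δ j (ell y φ s)) ^ 2) + ENNReal.ofReal (8 * (2 * π) ^ 2 * (1 + Real.log K)) *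
        ∫⁻ t in Ioi (0 : ℝ), ENNReal.ofReal t * ∫⁻ x, Gam (gj f δ j) t x ^ 2
      ≤ 2 * (ENNReal.ofReal (384 * π ^ 2) * A) +
        ENNReal.ofReal (8 * (2 * π) ^ 2 * (1 + Real.log K)) * (2 * A) := by
        gcongr
    _ = ENNReal.ofReal (2 * (384 * π ^ 2) + 8 * (2 * π) ^ 2 * (1 + Real.log K) * 2) * A := by
        have h2 : ENNReal.ofReal 2 = 2 := by norm_num
        have a1 : ENNReal.ofReal (2 * (384 * π ^ 2)) = 2 * ENNReal.ofReal (384 * π ^ 2) := by
          rw [ENNReal.ofReal_mul (by norm_num), h2]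
        have a2 : ENNReal.ofReal (8 * (2 * π) ^ 2 * (1 + Real.log K) * 2) =
            ENNReal.ofReal (8 * (2 * π) ^ 2 * (1 + Real.log K)) * 2 := by
          rw [ENNReal.ofReal_mul (by positivity), h2]
        rw [ENNReal.ofReal_add (by positivity) (by positivity), a1, a2]
        ring
    _ ≤ _ := by
        gcongr
        nlinarith [sq_nonneg π, mul_nonneg (sq_nonneg π) hlog]

/-- The overlap of the shells. -/
theorem Sh_overlap (X : ℝ × ℂ) : ∑' j : ℕ, (Sh j).indicator (fun _ => (1 : ℝ≥0∞)) X ≤ 4 := by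
  set ρ : ℝ := √(X.1 ^ 2 + ‖X.2‖ ^ 2 - 1) with hρ
  have hρ0 : 0 ≤ ρ := Real.sqrt_nonneg _
  have hz : ∀ j ∉ Finset.Icc (⌊ρ⌋₊ - 3) ⌊ρ⌋₊, (Sh j).indicator (fun _ => (1 : ℝ≥0∞)) X = 0 := by
    intro j hj
    rw [indicator_of_notMem]
    rintro ⟨_, h1, h2⟩
    apply hj
    rw [Finset.mem_Icc]
    rw [← hρ] at h1 h2
    have h3 : j ≤ ⌊ρ⌋₊ := Nat.le_floor h1
    have h4 : (⌊ρ⌋₊ : ℝ) ≤ ρ := Nat.floor_le hρ0
    have h5 : (⌊ρ⌋₊ : ℝ) < j + 4 := lt_of_le_of_lt h4 h2
    have h6 : ⌊ρ⌋₊ < j + 4 := by exact_mod_cast h5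
    exact ⟨by omega, h3⟩
  rw [tsum_eq_sum hz]
  calc ∑ j ∈ Finset.Icc (⌊ρ⌋₊ - 3) ⌊ρ⌋₊, (Sh j).indicator (fun _ => (1 : ℝ≥0∞)) X
      ≤ ∑ j ∈ Finset.Icc (⌊ρ⌋₊ - 3) ⌊ρ⌋₊, (1 : ℝ≥0∞) := by
        apply Finset.sum_le_sum
        intro j _
        exact indicator_le_self' (by simp) X
    _ = ((Finset.Icc (⌊ρ⌋₊ - 3) ⌊ρ⌋₊).card : ℝ≥0∞) := by simp
    _ ≤ 4 := by
        rw [Nat.card_Icc]
        have : ⌊ρ⌋₊ + 1 - (⌊ρ⌋₊ - 3) ≤ 4 := by omega
        exact_mod_cast this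

/-- The majorant for one half of the lines. -/
noncomputable def HJ (f : ℝ × ℂ → ℝ≥0∞) (δ : ℝ) (K : ℕ) (y : ℂ) : ℝ≥0∞ :=
  ∑' j : ℕ, ENNReal.ofReal (48 * π * (1 + Real.log (1 / δ))) * MM (Gam (gj f δ j)) K y

theorem HJ_meas (hf : Measurable f) (K : ℕ) : Measurable (HJ f δ K) := by
  unfold HJ
  apply Measurable.tsum
  intro j
  exact (MM_meas (Gam_meas (gj_meas hf δ j)) K).const_mul _

theorem HJ_pt (hf : Measurable f) (hδ : 0 < δ) (hδ1 : δ ≤ 1) {K : ℕ} (hK : 0 < K) (j : ℕ)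
    (y : ℂ) (φ : ℝ) :
    (∫⁻ φ' in Ioc (-π) π, ENNReal.ofReal (kap K (φ - φ')) *
      ∫⁻ s in Ioi (0 : ℝ), (Sh j).indicator f (ell y φ' s)) ^ 3 ≤ HJ f δ K y :=
  (shell_pt hf hδ hδ1 hK j y φ).trans (ENNReal.le_tsum j)

/-- **The integral of the majorant.** -/
theorem HJ_int (hf : Measurable f) (hδ : 0 < δ) (hδ1 : δ ≤ 1) (K : ℕ) :
    ∫⁻ y in Metric.closedBall (0 : ℂ) 1, HJ f δ K y ≤
      ENNReal.ofReal (4 * (48 * π * (832 * π ^ 2)) * (1 + Real.log (1 / δ)) * (1 + Real.log K)) *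
        ∫⁻ X in {X : ℝ × ℂ | 1 ≤ X.1 ^ 2 + ‖X.2‖ ^ 2}, f X ^ 3 * kt δ X * Wt X := by
  have hpi := Real.pi_pos
  have hlog : 0 ≤ Real.log K := Real.log_natCast_nonneg K
  have hlogδ : 0 ≤ Real.log (1 / δ) := Real.log_nonneg (by rw [le_div_iff₀ hδ]; linarith)
  have hkm := kt_meas δ
  have hWm := Wt_meas
  set S : Set (ℝ × ℂ) := {X : ℝ × ℂ | 1 ≤ X.1 ^ 2 + ‖X.2‖ ^ 2} with hS
  have hSm : MeasurableSet S := measurableSet_le measurable_const (by fun_prop)
  unfold HJ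
  rw [lintegral_tsum]
  swap
  · intro j
    exact ((MM_meas (Gam_meas (gj_meas hf δ j)) K).const_mul _).aemeasurable
  have h1 : ∀ j : ℕ, ∫⁻ y in Metric.closedBall (0 : ℂ) 1,
      ENNReal.ofReal (48 * π * (1 + Real.log (1 / δ))) * MM (Gam (gj f δ j)) K y ≤
      ENNReal.ofReal (48 * π * (1 + Real.log (1 / δ)) * (832 * π ^ 2 * (1 + Real.log K))) *
        ∫⁻ X in Sh j, f X ^ 3 * kt δ X * Wt X := by
    intro j
    have a1 : ENNReal.ofReal (48 * π * (1 + Real.log (1 / δ)) * (832 * π ^ 2 * (1 + Real.log K))) =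
        ENNReal.ofReal (48 * π * (1 + Real.log (1 / δ))) *
          ENNReal.ofReal (832 * π ^ 2 * (1 + Real.log K)) := ENNReal.ofReal_mul (by positivity)
    rw [lintegral_const_mul' _ _ ENNReal.ofReal_ne_top, a1]
    refine le_trans ?_ (le_of_eq (mul_assoc _ _ _).symm)
    exact mul_le_mul' le_rfl (shell_int hf K j)
  refine (ENNReal.tsum_le_tsum h1).trans ?_
  rw [ENNReal.tsum_mul_left]
  have h2 : ∑' j : ℕ, ∫⁻ X in Sh j, f X ^ 3 * kt δ X * Wt X ≤
      4 * ∫⁻ X in S, f X ^ 3 * kt δ X * Wt X := by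
    have e1 : ∀ j : ℕ, ∫⁻ X in Sh j, f X ^ 3 * kt δ X * Wt X =
        ∫⁻ X in S, (Sh j).indicator (fun _ => 1) X * (f X ^ 3 * kt δ X * Wt X) := by
      intro j
      rw [← lintegral_indicator (Sh_meas j), ← lintegral_indicator hSm]
      apply lintegral_congr
      intro X
      by_cases hX : X ∈ Sh j
      · have hX' : X ∈ S := hX.1
        rw [indicator_of_mem hX, indicator_of_mem hX', indicator_of_mem hX, one_mul]
      · rw [indicator_of_notMem hX]
        by_cases hX' : X ∈ S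
        · rw [indicator_of_mem hX', indicator_of_notMem hX, zero_mul]
        · rw [indicator_of_notMem hX']
    simp only [e1]
    rw [← lintegral_tsum]
    · rw [← lintegral_const_mul' _ _ (by norm_num)]
      apply lintegral_mono
      intro X
      simp only
      rw [ENNReal.tsum_mul_right]
      gcongr
      exact Sh_overlap X
    · intro j
      apply Measurable.aemeasurable
      exact (measurable_const.indicator (Sh_meas j)).mul (((hf.pow_const 3).mul hkm).mul hWm)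
  calc _ ≤ ENNReal.ofReal (48 * π * (1 + Real.log (1 / δ)) *
        (832 * π ^ 2 * (1 + Real.log K))) * (4 * ∫⁻ X in S, f X ^ 3 * kt δ X * Wt X) := by
        gcongr
    _ = _ := by
        have : (4 : ℝ≥0∞) = ENNReal.ofReal 4 := by norm_num
        rw [← mul_assoc, this, ← ENNReal.ofReal_mul (by positivity)]
        congr 2
        ring

end Pool.Agent.D0H26.TS
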