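import Pool.Agent.N249.LR.Four

set_option autoImplicit false

/-!
Tubes tangent to a sphere: the telescoping identity for the Fourier coefficients on the circle of a
function of `⟪ξ, w⟫`.
-/

open MeasureTheory Set Complex Real

namespace Pool.Agent.D0H26.TS

open Pool.Agent.N249.LR (cx cy hasDerivAt_cx)

/-- The Fourier coefficients on the circle (not normalized). -/
noncomputable def cf (k : ℤ) (g : ℝ → ℂ) : ℂ := ∫ φ in (-π)..π, cexp (-(k * φ * I)) * g φ

/-- The Fourier coefficients of `F (x ⟪ξ, w⟫)`. -/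
noncomputable def bk (F : ℝ → ℂ) (ξ : ℂ) (k : ℤ) (x : ℝ) : ℂ := cf k (fun φ => F (x * cx ξ φ))

theorem cx_cont (ξ : ℂ) : Continuous (cx ξ) := by
  unfold cx; fun_prop

theorem cy_cont (ξ : ℂ) : Continuous (cy ξ) := by
  unfold cy; fun_prop

theorem cx_exp (ξ : ℂ) (φ : ℝ) : ((cx ξ φ : ℝ) : ℂ) =
    ((starRingEnd ℂ) ξ * cexp (φ * I) + ξ * cexp (-(φ * I))) / 2 := by
  have h1 : cexp (φ * I) = (Real.cos φ : ℝ) + (Real.sin φ : ℝ) * I := by
    rw [Complex.exp_mul_I, ← Complex.ofReal_cos, ← Complex.ofReal_sin]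
  have h2 : cexp (-(φ * I)) = (Real.cos φ : ℝ) - (Real.sin φ : ℝ) * I := by
    have : -(φ * I) = ((-φ : ℝ) : ℂ) * I := by push_cast; ring
    rw [this, Complex.exp_mul_I, ← Complex.ofReal_cos, ← Complex.ofReal_sin, Real.cos_neg,
      Real.sin_neg]
    push_cast
    ring
  rw [h1, h2]
  apply Complex.ext
  · simp [cx]
  · simp [cx]
    ring

theorem cy_exp (ξ : ℂ) (φ : ℝ) : ((cy ξ φ : ℝ) : ℂ) =
    (I * (starRingEnd ℂ) ξ * cexp (φ * I) - I * ξ * cexp (-(φ * I))) / 2 := by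
  have h1 : cexp (φ * I) = (Real.cos φ : ℝ) + (Real.sin φ : ℝ) * I := by
    rw [Complex.exp_mul_I, ← Complex.ofReal_cos, ← Complex.ofReal_sin]
  have h2 : cexp (-(φ * I)) = (Real.cos φ : ℝ) - (Real.sin φ : ℝ) * I := by
    have : -(φ * I) = ((-φ : ℝ) : ℂ) * I := by push_cast; ring
    rw [this, Complex.exp_mul_I, ← Complex.ofReal_cos, ← Complex.ofReal_sin, Real.cos_neg,
      Real.sin_neg]
    push_cast
    ring
  rw [h1, h2]
  apply Complex.ext
  · simp [cy]
    ring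
  · simp [cy]

theorem exp_shift (k : ℤ) (φ : ℝ) : cexp (-(k * φ * I)) * cexp (φ * I) =
    cexp (-(((k - 1 : ℤ) : ℂ) * φ * I)) := by
  rw [← Complex.exp_add]
  congr 1
  push_cast
  ring

theorem exp_shift' (k : ℤ) (φ : ℝ) : cexp (-(k * φ * I)) * cexp (-(φ * I)) =
    cexp (-(((k + 1 : ℤ) : ℂ) * φ * I)) := by
  rw [← Complex.exp_add]
  congr 1
  push_cast
  ring

theorem exp_cont (k : ℤ) : Continuous (fun φ : ℝ => cexp (-(k * φ * I))) := by fun_prop

theorem norm_exp (k : ℤ) (φ : ℝ) : ‖cexp (-(k * φ * I))‖ = 1 := by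
  have : -(k * φ * I) = ((-(k * φ) : ℝ) : ℂ) * I := by push_cast; ring
  rw [this, Complex.norm_exp_ofReal_mul_I]

theorem cf_add_int {k : ℤ} {g : ℝ → ℂ} (hg : Continuous g) :
    IntervalIntegrable (fun φ => cexp (-(k * φ * I)) * g φ) volume (-π) π :=
  ((exp_cont k).mul hg).intervalIntegrable _ _

/-- The coefficients of `⟪ξ, w⟫ g`. -/
theorem cf_cx {g : ℝ → ℂ} (hg : Continuous g) (ξ : ℂ) (k : ℤ) :
    cf k (fun φ => (cx ξ φ : ℂ) * g φ) =
      ((starRingEnd ℂ) ξ * cf (k - 1) g + ξ * cf (k + 1) g) / 2 := by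
  unfold cf
  rw [← intervalIntegral.integral_const_mul, ← intervalIntegral.integral_const_mul,
    ← intervalIntegral.integral_add ((cf_add_int hg).const_mul _) ((cf_add_int hg).const_mul _),
    ← intervalIntegral.integral_div]
  apply intervalIntegral.integral_congr
  intro φ _
  simp only
  rw [cx_exp, ← exp_shift, ← exp_shift']
  ring

/-- The coefficients of `⟪ξ, i w⟫ g`. -/
theorem cf_cy {g : ℝ → ℂ} (hg : Continuous g) (ξ : ℂ) (k : ℤ) :
    cf k (fun φ => (cy ξ φ : ℂ) * g φ) =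
      (I * (starRingEnd ℂ) ξ * cf (k - 1) g - I * ξ * cf (k + 1) g) / 2 := by
  unfold cf
  rw [← intervalIntegral.integral_const_mul, ← intervalIntegral.integral_const_mul,
    ← intervalIntegral.integral_sub ((cf_add_int hg).const_mul _) ((cf_add_int hg).const_mul _),
    ← intervalIntegral.integral_div]
  apply intervalIntegral.integral_congr
  intro φ _
  simp only
  rw [cy_exp, ← exp_shift, ← exp_shift']
  ring

variable {F F' : ℝ → ℂ} {M : ℝ}

theorem bk_deriv (hF : ∀ u, HasDerivAt F (F' u) u) (hF' : Continuous F') (hM : ∀ u, ‖F' u‖ ≤ M)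
    (ξ : ℂ) (k : ℤ) (x : ℝ) : HasDerivAt (bk F ξ k)
      (((starRingEnd ℂ) ξ * bk F' ξ (k - 1) x + ξ * bk F' ξ (k + 1) x) / 2) x := by
  have hFc : Continuous F := continuous_iff_continuousAt.2 fun u => (hF u).continuousAt
  have hcx := cx_cont ξ
  have hM0 : 0 ≤ M := (norm_nonneg _).trans (hM 0)
  have key := (intervalIntegral.hasDerivAt_integral_of_dominated_loc_of_deriv_le
    (F := fun x φ => cexp (-(k * φ * I)) * F (x * cx ξ φ))
    (F' := fun x φ => cexp (-(k * φ * I)) * ((cx ξ φ : ℂ) * F' (x * cx ξ φ)))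
    (x₀ := x) (s := univ) (a := -π) (b := π) (μ := volume)
    (bound := fun φ => |cx ξ φ| * M) Filter.univ_mem ?_ ?_ ?_ ?_ ?_ ?_).2
  · have e : (∫ φ in (-π)..π, cexp (-(k * φ * I)) * ((cx ξ φ : ℂ) * F' (x * cx ξ φ))) =
        ((starRingEnd ℂ) ξ * bk F' ξ (k - 1) x + ξ * bk F' ξ (k + 1) x) / 2 :=
      cf_cx (hF'.comp (continuous_const.mul hcx)) ξ k
    rw [← e]
    exact key
  · filter_upwards with y
    exact ((exp_cont k).mul (hFc.comp (continuous_const.mul hcx))).aestronglyMeasurable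
  · exact ((exp_cont k).mul (hFc.comp (continuous_const.mul hcx))).intervalIntegrable _ _
  · apply Continuous.aestronglyMeasurable
    exact (exp_cont k).mul ((continuous_ofReal.comp hcx).mul
      (hF'.comp (continuous_const.mul hcx)))
  · filter_upwards with φ _ y _
    rw [norm_mul, norm_mul, norm_exp, one_mul, Complex.norm_real, Real.norm_eq_abs]
    gcongr
    exact hM _
  · exact (hcx.abs.mul continuous_const).intervalIntegrable _ _
  · filter_upwards with φ _ y _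
    apply HasDerivAt.const_mul
    have h1 : HasDerivAt (fun x : ℝ => x * cx ξ φ) (cx ξ φ) y := by
      simpa using (hasDerivAt_id y).mul_const (cx ξ φ)
    have h2 := HasDerivAt.scomp y (hF (y * cx ξ φ)) h1
    simpa [Function.comp_def, Complex.real_smul] using h2

theorem bk_cont (hF' : Continuous F') (hM : ∀ u, ‖F' u‖ ≤ M) (ξ : ℂ) (k : ℤ) :
    Continuous (bk F' ξ k) := by
  unfold bk cf
  apply intervalIntegral.continuous_parametric_intervalIntegral_of_continuous'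
  have hcx := cx_cont ξ
  have h1 : Continuous (fun p : ℝ × ℝ => F' (p.1 * cx ξ p.2)) :=
    hF'.comp (continuous_fst.mul (hcx.comp continuous_snd))
  have h2 : Continuous (fun p : ℝ × ℝ => cexp (-(k * p.2 * I))) :=
    (exp_cont k).comp continuous_snd
  exact h2.mul h1

/-- Integration by parts on the circle. -/
theorem bk_mul (hF : ∀ u, HasDerivAt F (F' u) u) (hF' : Continuous F')
    (ξ : ℂ) (k : ℤ) (x : ℝ) : (k : ℂ) * bk F ξ k x =
      (x / 2 : ℂ) * ((starRingEnd ℂ) ξ * bk F' ξ (k - 1) x - ξ * bk F' ξ (k + 1) x) := by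
  have hFc : Continuous F := continuous_iff_continuousAt.2 fun u => (hF u).continuousAt
  have hcx := cx_cont ξ
  have hcy := cy_cont ξ
  have hd : ∀ φ ∈ uIcc (-π) π, HasDerivAt (fun φ : ℝ => cexp (-(k * φ * I)) * F (x * cx ξ φ))
      (-(k * I) * (cexp (-(k * φ * I)) * F (x * cx ξ φ)) +
        x * (cexp (-(k * φ * I)) * ((cy ξ φ : ℂ) * F' (x * cx ξ φ)))) φ := by
    intro φ _
    have h1 : HasDerivAt (fun φ : ℝ => -((k : ℂ) * φ * I)) (-(k * I)) φ := by
      have h0 : HasDerivAt (fun φ : ℝ => (φ : ℂ)) 1 φ := HasDerivAt.ofReal_comp (hasDerivAt_id φ)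
      have := ((h0.const_mul (k : ℂ)).mul_const I).fun_neg
      simpa using this
    have h2 := h1.cexp
    have h3 : HasDerivAt (fun φ : ℝ => x * cx ξ φ) (x * cy ξ φ) φ :=
      (hasDerivAt_cx ξ φ).const_mul x
    have h4 := HasDerivAt.scomp φ (hF (x * cx ξ φ)) h3
    have h5 := h2.mul h4
    refine h5.congr_deriv ?_
    simp only [Function.comp_def, Complex.real_smul]
    push_cast
    ring
  have hc : Continuous (fun φ : ℝ => -(k * I) * (cexp (-(k * φ * I)) * F (x * cx ξ φ)) +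
        x * (cexp (-(k * φ * I)) * ((cy ξ φ : ℂ) * F' (x * cx ξ φ)))) := by
    have a1 : Continuous (fun φ : ℝ => F (x * cx ξ φ)) := hFc.comp (continuous_const.mul hcx)
    have a2 : Continuous (fun φ : ℝ => F' (x * cx ξ φ)) := hF'.comp (continuous_const.mul hcx)
    have a3 := exp_cont k
    have a4 : Continuous (fun φ : ℝ => ((cy ξ φ : ℝ) : ℂ)) := continuous_ofReal.comp hcy
    fun_prop
  have hI := intervalIntegral.integral_eq_sub_of_hasDerivAt hd (hc.intervalIntegrable _ _)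
  have hper : cexp (-(k * (π : ℝ) * I)) * F (x * cx ξ π) -
      cexp (-(k * ((-π : ℝ) : ℂ) * I)) * F (x * cx ξ (-π)) = 0 := by
    have e1 : cx ξ (-π) = cx ξ π := by simp [cx]
    have e2 : cexp (-(k * ((-π : ℝ) : ℂ) * I)) = cexp (-(k * (π : ℝ) * I)) := by
      have : -(k * ((-π : ℝ) : ℂ) * I) = -(k * (π : ℝ) * I) + k * (2 * π * I) := by
        push_cast; ring
      rw [this, Complex.exp_periodic.int_mul k]
    rw [e1, e2, sub_self]
  rw [hper] at hI
  have a1 : Continuous (fun φ : ℝ => F (x * cx ξ φ)) := hFc.comp (continuous_const.mul hcx)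
  have a2 : Continuous (fun φ : ℝ => (cy ξ φ : ℂ) * F' (x * cx ξ φ)) :=
    (continuous_ofReal.comp hcy).mul (hF'.comp (continuous_const.mul hcx))
  rw [intervalIntegral.integral_add ((cf_add_int a1).const_mul _) ((cf_add_int a2).const_mul _),
    intervalIntegral.integral_const_mul, intervalIntegral.integral_const_mul] at hI
  have hI' : -(k * I) * bk F ξ k x + x * cf k (fun φ => (cy ξ φ : ℂ) * F' (x * cx ξ φ)) = 0 := hI
  rw [cf_cy (g := fun φ => F' (x * cx ξ φ)) (hF'.comp (continuous_const.mul hcx))] at hI'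
  have hI2 : (I : ℂ) * ((k : ℂ) * bk F ξ k x -
      (x / 2 : ℂ) * ((starRingEnd ℂ) ξ * bk F' ξ (k - 1) x - ξ * bk F' ξ (k + 1) x)) = 0 := by
    have : bk F' ξ (k - 1) x = cf (k - 1) (fun φ => F' (x * cx ξ φ)) := rfl
    rw [this]
    have : bk F' ξ (k + 1) x = cf (k + 1) (fun φ => F' (x * cx ξ φ)) := rfl
    rw [this]
    linear_combination -hI'
  have := (mul_eq_zero.1 hI2).resolve_left I_ne_zero
  exact sub_eq_zero.1 this

/-- The derivative of the energy of one coefficient. -/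
theorem energy_deriv (hF : ∀ u, HasDerivAt F (F' u) u) (hF' : Continuous F')
    (hM : ∀ u, ‖F' u‖ ≤ M) (ξ : ℂ) (k : ℤ) (x : ℝ) :
    HasDerivAt (fun x => (k : ℝ) * ‖bk F ξ k x‖ ^ 2)
      (x / 2 * ‖ξ‖ ^ 2 * (‖bk F' ξ (k - 1) x‖ ^ 2 - ‖bk F' ξ (k + 1) x‖ ^ 2)) x := by
  have h1 := (bk_deriv hF hF' hM ξ k x).norm_sq.const_mul (k : ℝ)
  refine h1.congr_deriv ?_
  set A : ℂ := (starRingEnd ℂ) ξ * bk F' ξ (k - 1) x with hA
  set B : ℂ := ξ * bk F' ξ (k + 1) x with hB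
  have e1 : (k : ℂ) * bk F ξ k x = (x / 2 : ℂ) * (A - B) := bk_mul hF hF' ξ k x
  have e2 : (k : ℝ) * (2 * inner ℝ (bk F ξ k x) ((A + B) / 2)) =
      2 * inner ℝ ((k : ℂ) * bk F ξ k x) ((A + B) / 2) := by
    have : (k : ℂ) * bk F ξ k x = (k : ℝ) • bk F ξ k x := by
      rw [Complex.real_smul]; push_cast; ring
    rw [this, real_inner_smul_left]
    ring
  have e3 : ‖A‖ ^ 2 = ‖ξ‖ ^ 2 * ‖bk F' ξ (k - 1) x‖ ^ 2 := by
    rw [hA, norm_mul, RCLike.norm_conj, mul_pow]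
  have e4 : ‖B‖ ^ 2 = ‖ξ‖ ^ 2 * ‖bk F' ξ (k + 1) x‖ ^ 2 := by
    rw [hB, norm_mul, mul_pow]
  rw [e2, e1]
  have e5 : (x / 2 : ℂ) * (A - B) = (x / 2 : ℝ) • (A - B) := by
    rw [Complex.real_smul]; push_cast; ring
  have e6 : (A + B) / 2 = (1 / 2 : ℝ) • (A + B) := by
    rw [Complex.real_smul]; push_cast; ring
  rw [e5, e6, real_inner_smul_left, real_inner_smul_right]
  have e7 : inner ℝ (A - B) (A + B) = ‖A‖ ^ 2 - ‖B‖ ^ 2 := by
    rw [inner_sub_left, inner_add_right, inner_add_right, real_inner_self_eq_norm_sq,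
      real_inner_self_eq_norm_sq, real_inner_comm A B]
    ring
  rw [e7, e3, e4]
  ring

theorem bk_zero (ξ : ℂ) {k : ℤ} (hk : k ≠ 0) : bk F ξ k 0 = 0 := by
  unfold bk cf
  simp only [zero_mul]
  rw [intervalIntegral.integral_mul_const]
  have hd : ∀ φ ∈ uIcc (-π) π, HasDerivAt (fun φ : ℝ => cexp (-(k * φ * I)))
      (-(k * I) * cexp (-(k * φ * I))) φ := by
    intro φ _
    have h1 : HasDerivAt (fun φ : ℝ => -((k : ℂ) * φ * I)) (-(k * I)) φ := by
      have h0 : HasDerivAt (fun φ : ℝ => (φ : ℂ)) 1 φ := HasDerivAt.ofReal_comp (hasDerivAt_id φ)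
      have := ((h0.const_mul (k : ℂ)).mul_const I).fun_neg
      simpa using this
    have h2 := h1.cexp
    refine h2.congr_deriv ?_
    ring
  have hI := intervalIntegral.integral_eq_sub_of_hasDerivAt hd
    ((continuous_const.mul (exp_cont k)).intervalIntegrable _ _)
  have e2 : cexp (-(k * ((-π : ℝ) : ℂ) * I)) = cexp (-(k * (π : ℝ) * I)) := by
    have : -(k * ((-π : ℝ) : ℂ) * I) = -(k * (π : ℝ) * I) + k * (2 * π * I) := by
      push_cast; ring
    rw [this, Complex.exp_periodic.int_mul k]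
  rw [e2, sub_self, intervalIntegral.integral_const_mul] at hI
  have hk' : -((k : ℂ) * I) ≠ 0 := by
    rw [neg_ne_zero]
    exact mul_ne_zero (by exact_mod_cast hk) I_ne_zero
  rw [(mul_eq_zero.1 hI).resolve_left hk', zero_mul]

/-- The energy of the coefficients of positive index. -/
theorem telescope (hF : ∀ u, HasDerivAt F (F' u) u) (hF' : Continuous F')
    (hM : ∀ u, ‖F' u‖ ≤ M) (ξ : ℂ) (K : ℕ) :
    ∑ n ∈ Finset.range K, ((n : ℝ) + 1) * ‖bk F ξ (n + 1) 1‖ ^ 2 ≤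
      ∫ x in (0 : ℝ)..1, x / 2 * ‖ξ‖ ^ 2 * (‖bk F' ξ 0 x‖ ^ 2 + ‖bk F' ξ 1 x‖ ^ 2) := by
  have hc : ∀ k, Continuous (bk F' ξ k) := fun k => bk_cont hF' hM ξ k
  have h1 : ∀ n : ℕ, ((n : ℝ) + 1) * ‖bk F ξ (n + 1) 1‖ ^ 2 =
      ∫ x in (0 : ℝ)..1, x / 2 * ‖ξ‖ ^ 2 * (‖bk F' ξ n x‖ ^ 2 - ‖bk F' ξ (n + 2) x‖ ^ 2) := by
    intro n
    have hd : ∀ x ∈ uIcc (0 : ℝ) 1, HasDerivAt
        (fun x => ((n + 1 : ℤ) : ℝ) * ‖bk F ξ (n + 1) x‖ ^ 2)
        (x / 2 * ‖ξ‖ ^ 2 * (‖bk F' ξ n x‖ ^ 2 - ‖bk F' ξ (n + 2) x‖ ^ 2)) x := by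
      intro x _
      have := energy_deriv hF hF' hM ξ (n + 1) x
      have e1 : ((n : ℤ) + 1 - 1) = n := by ring
      have e2 : ((n : ℤ) + 1 + 1) = n + 2 := by ring
      rw [e1, e2] at this
      exact this
    have hcc : Continuous (fun x : ℝ => x / 2 * ‖ξ‖ ^ 2 *
        (‖bk F' ξ n x‖ ^ 2 - ‖bk F' ξ (n + 2) x‖ ^ 2)) := by
      have a1 := hc n
      have a2 := hc (n + 2)
      fun_prop
    rw [intervalIntegral.integral_eq_sub_of_hasDerivAt hd (hcc.intervalIntegrable _ _),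
      bk_zero ξ (by omega : ((n : ℤ) + 1) ≠ 0)]
    push_cast
    simp
  have hcc : ∀ n : ℕ, Continuous (fun x : ℝ => x / 2 * ‖ξ‖ ^ 2 *
        (‖bk F' ξ n x‖ ^ 2 - ‖bk F' ξ (n + 2) x‖ ^ 2)) := by
    intro n
    have a1 := hc n
    have a2 := hc (n + 2)
    fun_prop
  simp only [h1]
  rw [← intervalIntegral.integral_finsetSum (fun n _ => (hcc n).intervalIntegrable _ _)]
  have htel : ∀ (x : ℝ) (K : ℕ), ∑ n ∈ Finset.range K, x / 2 * ‖ξ‖ ^ 2 *
      (‖bk F' ξ n x‖ ^ 2 - ‖bk F' ξ (n + 2) x‖ ^ 2) = x / 2 * ‖ξ‖ ^ 2 *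
      (‖bk F' ξ 0 x‖ ^ 2 + ‖bk F' ξ 1 x‖ ^ 2 - ‖bk F' ξ K x‖ ^ 2 - ‖bk F' ξ (K + 1) x‖ ^ 2) := by
    intro x K
    induction K with
    | zero => simp
    | succ K ih =>
      rw [Finset.sum_range_succ, ih]
      push_cast
      have : ((K : ℤ) + 1 + 1) = K + 2 := by ring
      rw [this]
      ring
  simp only [htel]
  apply intervalIntegral.integral_mono_on zero_le_one
  · have a0 := hc 0
    have a1 := hc 1
    have a2 := hc K
    have a3 := hc (K + 1)
    apply Continuous.intervalIntegrable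
    fun_prop
  · have a0 := hc 0
    have a1 := hc 1
    apply Continuous.intervalIntegrable
    fun_prop
  · intro x hx
    have hx0 : 0 ≤ x := hx.1
    apply mul_le_mul_of_nonneg_left _ (by positivity)
    have := sq_nonneg ‖bk F' ξ K x‖
    have := sq_nonneg ‖bk F' ξ (K + 1) x‖
    linarith

end Pool.Agent.D0H26.TS
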