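import Pool.Agent.D0H26.TS.Psi
import Pool.Agent.D0H26.WF.OSchur

set_option autoImplicit false

/-!
Tubes tangent to a sphere: the mean over the directions of the rays.
-/

open MeasureTheory Set Complex Real ENNReal Filter

namespace Pool.Agent.D0H26.TS

open Pool.Agent.N249.LR (cx cy w norm_w)

/-- The parameter of length, measured from the point of tangency. -/
noncomputable def sg (y : ℂ) (φ s : ℝ) : ℝ := cx y φ + s * ((1 + ‖y‖ ^ 2) / 2)

theorem ell_norm (y : ℂ) (φ s : ℝ) :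
    (ell y φ s).1 ^ 2 + ‖(ell y φ s).2‖ ^ 2 = 1 + sg y φ s ^ 2 := by
  unfold ell sg
  simp only
  have h1 : ‖w φ + s * y‖ ^ 2 = 1 + 2 * s * cx y φ + s ^ 2 * ‖y‖ ^ 2 := by
    have : (s : ℂ) * y = (s : ℝ) • y := by rw [Complex.real_smul]
    rw [this, norm_add_sq_real, real_inner_smul_right, inner_w, norm_smul, norm_w,
      Real.norm_eq_abs, mul_pow, sq_abs]
    ring
  rw [h1]
  ring

/-- The shells. -/
def Sh (j : ℕ) : Set (ℝ × ℂ) := {X | 1 ≤ X.1 ^ 2 + ‖X.2‖ ^ 2 ∧
  (j : ℝ) ≤ √(X.1 ^ 2 + ‖X.2‖ ^ 2 - 1) ∧ √(X.1 ^ 2 + ‖X.2‖ ^ 2 - 1) < j + 4}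

theorem Sh_meas (j : ℕ) : MeasurableSet (Sh j) := by
  have h1 : MeasurableSet {X : ℝ × ℂ | 1 ≤ X.1 ^ 2 + ‖X.2‖ ^ 2} :=
    measurableSet_le measurable_const (by fun_prop)
  have h2 : MeasurableSet {X : ℝ × ℂ | (j : ℝ) ≤ √(X.1 ^ 2 + ‖X.2‖ ^ 2 - 1)} :=
    measurableSet_le measurable_const (by fun_prop)
  have h3 : MeasurableSet {X : ℝ × ℂ | √(X.1 ^ 2 + ‖X.2‖ ^ 2 - 1) < j + 4} :=
    measurableSet_lt (by fun_prop) measurable_const
  exact h1.inter (h2.inter h3)

theorem ell_sqrt (y : ℂ) (φ s : ℝ) :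
    √((ell y φ s).1 ^ 2 + ‖(ell y φ s).2‖ ^ 2 - 1) = |sg y φ s| := by
  rw [ell_norm, add_sub_cancel_left, Real.sqrt_sq_eq_abs]

theorem ell_mem_Sh {j : ℕ} {y : ℂ} {φ s : ℝ} :
    ell y φ s ∈ Sh j ↔ (j : ℝ) ≤ |sg y φ s| ∧ |sg y φ s| < j + 4 := by
  unfold Sh
  simp only [mem_ofPred_eq]
  rw [ell_sqrt, ell_norm]
  constructor
  · rintro ⟨_, h⟩
    exact h
  · intro h
    exact ⟨by nlinarith [sq_nonneg (sg y φ s)], h⟩

/-- The length of the part of a line in a shell. -/
theorem Sh_len (j : ℕ) (y : ℂ) (φ : ℝ) :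
    volume {s : ℝ | ell y φ s ∈ Sh j} ≤ ENNReal.ofReal 16 := by
  set D : ℝ := (1 + ‖y‖ ^ 2) / 2 with hD
  have hD0 : 1 / 2 ≤ D := by rw [hD]; nlinarith [sq_nonneg ‖y‖]
  have hD1 : 0 < D := by linarith
  have hint : ∀ a : ℝ, volume {s : ℝ | a ≤ cx y φ + s * D ∧ cx y φ + s * D ≤ a + 4} ≤
      ENNReal.ofReal 8 := by
    intro a
    have e : {s : ℝ | a ≤ cx y φ + s * D ∧ cx y φ + s * D ≤ a + 4} =
        Icc ((a - cx y φ) / D) ((a + 4 - cx y φ) / D) := by
      ext s
      simp only [mem_ofPred_eq, mem_Icc]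
      rw [div_le_iff₀ hD1, le_div_iff₀ hD1]
      constructor
      · rintro ⟨h1, h2⟩
        exact ⟨by linarith, by linarith⟩
      · rintro ⟨h1, h2⟩
        exact ⟨by linarith, by linarith⟩
    rw [e, Real.volume_Icc]
    apply ENNReal.ofReal_le_ofReal
    rw [← sub_div, div_le_iff₀ hD1]
    linarith
  calc volume {s : ℝ | ell y φ s ∈ Sh j}
      ≤ volume ({s : ℝ | (j : ℝ) ≤ cx y φ + s * D ∧ cx y φ + s * D ≤ j + 4} ∪
          {s : ℝ | (-(j : ℝ) - 4) ≤ cx y φ + s * D ∧ cx y φ + s * D ≤ (-(j : ℝ) - 4) + 4}) := by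
        apply measure_mono
        intro s hs
        have hs' : ell y φ s ∈ Sh j := hs
        rw [ell_mem_Sh] at hs'
        obtain ⟨h1, h2⟩ := hs'
        unfold sg at h1 h2
        rw [← hD] at h1 h2
        rcases le_total 0 (cx y φ + s * D) with h | h
        · left
          rw [abs_of_nonneg h] at h1 h2
          exact ⟨h1, h2.le⟩
        · right
          rw [abs_of_nonpos h] at h1 h2
          refine ⟨by linarith, by linarith⟩
    _ ≤ ENNReal.ofReal 8 + ENNReal.ofReal 8 :=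
        (measure_union_le _ _).trans (add_le_add (hint _) (hint _))
    _ = _ := by
        rw [← ENNReal.ofReal_add (by norm_num) (by norm_num)]
        norm_num

/-- The set of the directions of the rays through a point which start in the unit disc. -/
theorem angle_vol {t : ℝ} (ht : 0 < t) (x : ℂ) :
    volume ({φ : ℝ | ‖x - t * w φ‖ ≤ 1} ∩ Ioc (-π) π) ≤ ENNReal.ofReal (6 * π / t) := by
  have hpi := Real.pi_pos
  rcases ({φ : ℝ | ‖x - t * w φ‖ ≤ 1} ∩ Ioc (-π) π).eq_empty_or_nonempty with h0 | ⟨φ0, h0, h0'⟩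
  · rw [h0]
    simp
  have hsin : ∀ ψ : ℝ, |ψ| ≤ π → |ψ| ≤ π * |Real.sin (ψ / 2)| := by
    intro ψ hψ
    have h1 : |Real.sin (ψ / 2)| = Real.sin (|ψ| / 2) := by
      have hs : 0 ≤ Real.sin (|ψ| / 2) := by
        apply Real.sin_nonneg_of_nonneg_of_le_pi (by positivity) (by linarith)
      rcases abs_choice ψ with h | h
      · rw [h] at hs ⊢
        exact abs_of_nonneg hs
      · rw [h] at hs ⊢
        rw [neg_div, Real.sin_neg] at hs ⊢
        exact abs_of_nonpos (by linarith)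
    have h2 := Real.mul_le_sin (x := |ψ| / 2) (by positivity) (by linarith)
    rw [h1]
    have h3 : π * (2 / π * (|ψ| / 2)) = |ψ| := by field_simp
    nlinarith
  have hdist : ∀ φ : ℝ, ‖w φ - w φ0‖ = 2 * |Real.sin ((φ - φ0) / 2)| := by
    intro φ
    have h1 : w φ - w φ0 = w φ0 * (cexp (I * ((φ - φ0 : ℝ) : ℂ)) - 1) := by
      unfold w
      rw [mul_sub, ← Complex.exp_add, mul_one]
      congr 2
      push_cast
      ring
    rw [h1, norm_mul, norm_w, one_mul, Complex.norm_exp_I_mul_ofReal_sub_one, Real.norm_eq_abs,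
      abs_mul]
    norm_num
  have hsub : {φ : ℝ | ‖x - t * w φ‖ ≤ 1} ∩ Ioc (-π) π ⊆
      (Icc (φ0 - π / t) (φ0 + π / t) ∪ Icc (φ0 + 2 * π - π / t) (φ0 + 2 * π + π / t)) ∪
        Icc (φ0 - 2 * π - π / t) (φ0 - 2 * π + π / t) := by
    rintro φ ⟨hφ, hφ'⟩
    have h1 : ‖x - t * w φ‖ ≤ 1 := hφ
    have h2 : ‖x - t * w φ0‖ ≤ 1 := h0
    have h3 : t * ‖w φ - w φ0‖ ≤ 2 := by
      have e : (t : ℂ) * (w φ - w φ0) = (x - t * w φ0) - (x - t * w φ) := by ring
      have := norm_sub_le (x - t * w φ0) (x - t * w φ)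
      rw [← e, norm_mul, Complex.norm_real, Real.norm_eq_abs, abs_of_pos ht] at this
      linarith
    rw [hdist] at h3
    have h4 : π * |Real.sin ((φ - φ0) / 2)| ≤ π / t := by
      rw [le_div_iff₀ ht]
      nlinarith
    obtain ⟨a1, a2⟩ := hφ'
    obtain ⟨b1, b2⟩ := h0'
    rcases le_or_gt (φ - φ0) π with c1 | c1
    · rcases le_or_gt (-π) (φ - φ0) with c2 | c2
      · left; left
        have := (hsin (φ - φ0) (abs_le.2 ⟨c2, c1⟩)).trans h4
        rw [abs_le] at this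
        exact ⟨by linarith [this.1], by linarith [this.2]⟩
      · right
        have e : |Real.sin ((φ - φ0) / 2)| = |Real.sin ((φ - φ0 + 2 * π) / 2)| := by
          have : (φ - φ0 + 2 * π) / 2 = (φ - φ0) / 2 + π := by ring
          rw [this, Real.sin_add_pi, abs_neg]
        rw [e] at h4
        have := (hsin (φ - φ0 + 2 * π) (abs_le.2 ⟨by linarith, by linarith⟩)).trans h4
        rw [abs_le] at this
        exact ⟨by linarith [this.1], by linarith [this.2]⟩
    · left; right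
      have e : |Real.sin ((φ - φ0) / 2)| = |Real.sin ((φ - φ0 - 2 * π) / 2)| := by
        have : (φ - φ0 - 2 * π) / 2 = (φ - φ0) / 2 - π := by ring
        rw [this, Real.sin_sub_pi, abs_neg]
      rw [e] at h4
      have := (hsin (φ - φ0 - 2 * π) (abs_le.2 ⟨by linarith, by linarith⟩)).trans h4
      rw [abs_le] at this
      exact ⟨by linarith [this.1], by linarith [this.2]⟩
  have hI : ∀ a : ℝ, volume (Icc (a - π / t) (a + π / t)) = ENNReal.ofReal (2 * π / t) := by
    intro a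
    rw [Real.volume_Icc]
    congr 1
    ring
  calc volume ({φ : ℝ | ‖x - t * w φ‖ ≤ 1} ∩ Ioc (-π) π)
      ≤ _ := measure_mono hsub
    _ ≤ (ENNReal.ofReal (2 * π / t) + ENNReal.ofReal (2 * π / t)) + ENNReal.ofReal (2 * π / t) := by
        refine (measure_union_le _ _).trans (add_le_add ?_ (hI _).le)
        exact (measure_union_le _ _).trans (add_le_add (hI _).le (hI _).le)
    _ = _ := by
        rw [← ENNReal.ofReal_add (by positivity) (by positivity),
          ← ENNReal.ofReal_add (by positivity) (by positivity)]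
        congr 1
        ring

theorem ell_meas : Measurable (fun q : (ℂ × ℝ) × ℝ => ell q.1.1 q.1.2 q.2) := by
  have hw := w_meas
  unfold ell cx
  fun_prop

/-- The square integral over the tangent lines. -/
theorem zero_sq {g : ℝ × ℂ → ℝ≥0∞} (hg : Measurable g) :
    ∫⁻ y in Metric.closedBall (0 : ℂ) 1, ∫⁻ φ in Ioc (-π) π, ∫⁻ s in Ioi (0 : ℝ),
      g (ell y φ s) ≤ ENNReal.ofReal (12 * π) * ∫⁻ X, g X * Wt X := by
  have hpi := Real.pi_pos
  have hGm := Gam_meas hg
  have hw := w_meas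
  have hm1 : Measurable (fun q : (ℂ × ℝ) × ℝ => Gam g q.2 (q.1.1 + q.2 * w q.1.2)) :=
    ray_meas hGm
  calc ∫⁻ y in Metric.closedBall (0 : ℂ) 1, ∫⁻ φ in Ioc (-π) π, ∫⁻ s in Ioi (0 : ℝ),
        g (ell y φ s)
      = ∫⁻ y in Metric.closedBall (0 : ℂ) 1, ∫⁻ φ in Ioc (-π) π, ∫⁻ t in Ioi (0 : ℝ),
        Gam g t (y + t * w φ) := by simp only [Gam_ray]
    _ = ∫⁻ y in Metric.closedBall (0 : ℂ) 1, ∫⁻ t in Ioi (0 : ℝ), ∫⁻ φ in Ioc (-π) π,
        Gam g t (y + t * w φ) := by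
        apply lintegral_congr
        intro y
        rw [lintegral_lintegral_swap]
        exact (hm1.comp (f := fun q : ℝ × ℝ => ((y, q.1), q.2)) (by fun_prop)).aemeasurable
    _ = ∫⁻ t in Ioi (0 : ℝ), ∫⁻ y in Metric.closedBall (0 : ℂ) 1, ∫⁻ φ in Ioc (-π) π,
        Gam g t (y + t * w φ) := by
        rw [lintegral_lintegral_swap]
        have h2 : Measurable (fun q : (ℂ × ℝ) × ℝ => Gam g q.1.2 (q.1.1 + q.1.2 * w q.2)) :=
          hm1.comp (f := fun q : (ℂ × ℝ) × ℝ => ((q.1.1, q.2), q.1.2)) (by fun_prop)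
        exact (h2.lintegral_prod_right' (ν := volume.restrict (Ioc (-π) π))).aemeasurable
    _ = ∫⁻ t in Ioi (0 : ℝ), ∫⁻ φ in Ioc (-π) π, ∫⁻ y in Metric.closedBall (0 : ℂ) 1,
        Gam g t (y + t * w φ) := by
        apply lintegral_congr
        intro t
        rw [lintegral_lintegral_swap]
        exact (hm1.comp (f := fun q : ℂ × ℝ => ((q.1, q.2), t)) (by fun_prop)).aemeasurable
    _ = ∫⁻ t in Ioi (0 : ℝ), ∫⁻ φ in Ioc (-π) π, ∫⁻ x : ℂ,
        {x : ℂ | ‖x - t * w φ‖ ≤ 1}.indicator (fun x => Gam g t x) x := by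
        apply lintegral_congr
        intro t
        apply lintegral_congr
        intro φ
        rw [← lintegral_indicator Metric.isClosed_closedBall.measurableSet,
          ← lintegral_add_right_eq_self (μ := (volume : Measure ℂ)) (fun x : ℂ =>
          {x : ℂ | ‖x - t * w φ‖ ≤ 1}.indicator (fun x => Gam g t x) x) (t * w φ)]
        apply lintegral_congr
        intro y
        simp only [indicator, Metric.mem_closedBall, dist_zero_right, mem_ofPred_eq,
          add_sub_cancel_right]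
    _ = ∫⁻ t in Ioi (0 : ℝ), ∫⁻ x : ℂ, ∫⁻ φ in Ioc (-π) π,
        {x : ℂ | ‖x - t * w φ‖ ≤ 1}.indicator (fun x => Gam g t x) x := by
        apply lintegral_congr
        intro t
        rw [lintegral_lintegral_swap]
        have hs : MeasurableSet {q : ℝ × ℂ | ‖q.2 - t * w q.1‖ ≤ 1} :=
          measurableSet_le (by fun_prop) measurable_const
        have h3 : Measurable (fun q : ℝ × ℂ => Gam g t q.2) :=
          hGm.comp (g := Function.uncurry (Gam g)) (f := fun q : ℝ × ℂ => (t, q.2)) (by fun_prop)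
        exact (h3.indicator hs).aemeasurable
    _ ≤ ∫⁻ t in Ioi (0 : ℝ), ∫⁻ x : ℂ, ENNReal.ofReal (6 * π / t) * Gam g t x := by
        apply setLIntegral_mono' measurableSet_Ioi
        intro t ht
        apply lintegral_mono
        intro x
        have e : ∀ φ : ℝ, {x : ℂ | ‖x - t * w φ‖ ≤ 1}.indicator (fun x => Gam g t x) x =
            {φ : ℝ | ‖x - t * w φ‖ ≤ 1}.indicator (fun _ => Gam g t x) φ := by
          intro φ
          simp only [indicator, mem_ofPred_eq]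
        simp only [e]
        have hs : MeasurableSet {φ : ℝ | ‖x - t * w φ‖ ≤ 1} :=
          measurableSet_le (by fun_prop) measurable_const
        rw [lintegral_indicator_const hs, Measure.restrict_apply hs, mul_comm]
        gcongr
        exact angle_vol ht x
    _ = ∫⁻ t in Ioi (0 : ℝ), ENNReal.ofReal (6 * π) * (ENNReal.ofReal (t⁻¹ ^ 3) *
          ∫⁻ x, g (Ps t x)) := by
        apply setLIntegral_congr_fun measurableSet_Ioi
        intro t ht
        have ht0 : 0 < t := ht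
        simp only
        unfold Gam
        have hgm : Measurable (fun x : ℂ => g (Ps t x)) := (hg.comp Ps_meas).comp
          (f := fun x : ℂ => (t, x)) (by fun_prop)
        rw [lintegral_const_mul _ (hgm.const_mul _), lintegral_const_mul _ hgm, ← mul_assoc,
          ← ENNReal.ofReal_mul (by positivity), ← mul_assoc, ← ENNReal.ofReal_mul (by positivity)]
        congr 2
        field_simp
    _ = ENNReal.ofReal (6 * π) * ∫⁻ t in Ioi (0 : ℝ), ENNReal.ofReal (t⁻¹ ^ 3) *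
          ∫⁻ x, g (Ps t x) := lintegral_const_mul' _ _ ENNReal.ofReal_ne_top
    _ ≤ ENNReal.ofReal (6 * π) * (2 * ∫⁻ X, g X * Wt X) := by
        gcongr
        exact Ps_int hg
    _ = _ := by
        rw [← mul_assoc]
        congr 1
        have : (2 : ℝ≥0∞) = ENNReal.ofReal 2 := by norm_num
        rw [this, ← ENNReal.ofReal_mul (by positivity)]
        congr 1
        ring

/-- **The mean over the directions.** -/
theorem zero_mode {g : ℝ × ℂ → ℝ≥0∞} (hg : Measurable g) {j : ℕ} (h0 : ∀ X, X ∉ Sh j → g X = 0) :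
    ∫⁻ y in Metric.closedBall (0 : ℂ) 1, (∫⁻ φ in Ioc (-π) π, ∫⁻ s in Ioi (0 : ℝ),
      g (ell y φ s)) ^ 2 ≤ ENNReal.ofReal (384 * π ^ 2) * ∫⁻ X, g X ^ 2 * Wt X := by
  have hpi := Real.pi_pos
  have hem := ell_meas
  have hgm : Measurable (fun q : (ℂ × ℝ) × ℝ => g (ell q.1.1 q.1.2 q.2)) := hg.comp hem
  have hS : ∀ (y : ℂ) (φ : ℝ), MeasurableSet {s : ℝ | ell y φ s ∈ Sh j} := by
    intro y φ
    exact (hem.comp (f := fun s : ℝ => ((y, φ), s)) (by fun_prop)) (Sh_meas j)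
  have h1 : ∀ (y : ℂ) (φ : ℝ), (∫⁻ s in Ioi (0 : ℝ), g (ell y φ s)) ^ 2 ≤
      ENNReal.ofReal 16 * ∫⁻ s in Ioi (0 : ℝ), g (ell y φ s) ^ 2 := by
    intro y φ
    have hgs : Measurable (fun s : ℝ => g (ell y φ s)) :=
      hgm.comp (f := fun s : ℝ => ((y, φ), s)) (by fun_prop)
    have e1 : ∫⁻ s in Ioi (0 : ℝ), g (ell y φ s) = ∫⁻ s in Ioi (0 : ℝ),
        {s : ℝ | ell y φ s ∈ Sh j}.indicator (fun _ => 1) s * g (ell y φ s) := by
      apply lintegral_congr
      intro s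
      by_cases hs : s ∈ {s : ℝ | ell y φ s ∈ Sh j}
      · rw [indicator_of_mem hs, one_mul]
      · rw [indicator_of_notMem hs, zero_mul, h0 _ hs]
    rw [e1]
    refine (Pool.Agent.D0H26.WF.cs (volume.restrict (Ioi (0 : ℝ)))
      (measurable_const.indicator (hS y φ)).aemeasurable hgs.aemeasurable).trans ?_
    gcongr
    have e2 : ∀ s : ℝ, ({s : ℝ | ell y φ s ∈ Sh j}.indicator (fun _ => (1 : ℝ≥0∞)) s) ^ 2 =
        {s : ℝ | ell y φ s ∈ Sh j}.indicator (fun _ => 1) s := by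
      intro s
      by_cases hs : s ∈ {s : ℝ | ell y φ s ∈ Sh j}
      · rw [indicator_of_mem hs, one_pow]
      · rw [indicator_of_notMem hs]
        norm_num
    simp only [e2]
    rw [lintegral_indicator_const (hS y φ), one_mul]
    exact (Measure.restrict_apply_le _ _).trans (Sh_len j y φ)
  have h2 : ∀ y : ℂ, (∫⁻ φ in Ioc (-π) π, ∫⁻ s in Ioi (0 : ℝ), g (ell y φ s)) ^ 2 ≤
      ENNReal.ofReal (32 * π) * ∫⁻ φ in Ioc (-π) π, ∫⁻ s in Ioi (0 : ℝ), g (ell y φ s) ^ 2 := by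
    intro y
    have hgs : Measurable (fun φ : ℝ => ∫⁻ s in Ioi (0 : ℝ), g (ell y φ s)) :=
      (hgm.lintegral_prod_right' (ν := volume.restrict (Ioi (0 : ℝ)))).comp
        (f := fun φ : ℝ => (y, φ)) (by fun_prop)
    have h3 := Pool.Agent.D0H26.WF.cs (volume.restrict (Ioc (-π) π)) (f := fun _ => (1 : ℝ≥0∞))
      measurable_const.aemeasurable hgs.aemeasurable
    simp only [one_mul, one_pow] at h3
    refine h3.trans ?_
    rw [lintegral_const, Measure.restrict_apply_univ, Real.volume_Ioc, one_mul]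
    have e3 : ENNReal.ofReal (32 * π) = ENNReal.ofReal (π - -π) * ENNReal.ofReal 16 := by
      rw [← ENNReal.ofReal_mul (by linarith)]
      congr 1
      ring
    rw [e3, mul_assoc]
    gcongr
    rw [← lintegral_const_mul' _ _ ENNReal.ofReal_ne_top]
    apply lintegral_mono
    intro φ
    exact h1 y φ
  calc ∫⁻ y in Metric.closedBall (0 : ℂ) 1, (∫⁻ φ in Ioc (-π) π, ∫⁻ s in Ioi (0 : ℝ),
      g (ell y φ s)) ^ 2
      ≤ ∫⁻ y in Metric.closedBall (0 : ℂ) 1, ENNReal.ofReal (32 * π) *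
          ∫⁻ φ in Ioc (-π) π, ∫⁻ s in Ioi (0 : ℝ), g (ell y φ s) ^ 2 := lintegral_mono h2
    _ = ENNReal.ofReal (32 * π) * ∫⁻ y in Metric.closedBall (0 : ℂ) 1,
          ∫⁻ φ in Ioc (-π) π, ∫⁻ s in Ioi (0 : ℝ), g (ell y φ s) ^ 2 :=
        lintegral_const_mul' _ _ ENNReal.ofReal_ne_top
    _ ≤ ENNReal.ofReal (32 * π) * (ENNReal.ofReal (12 * π) * ∫⁻ X, g X ^ 2 * Wt X) := by
        gcongr
        exact zero_sq (g := fun X => g X ^ 2) (hg.pow_const 2)
    _ = _ := by
        rw [← mul_assoc, ← ENNReal.ofReal_mul (by positivity)]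
        congr 2
        ring

end Pool.Agent.D0H26.TS
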